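import Pool.Agent.Lib.MP_1a0ddd_nt.Quad.QFld

/-! Quadratic families: the square members and the hypotheses (no proofs). -/

set_option autoImplicit false

namespace Pool.Agent.Lib.MP_1a0ddd_nt.Hyp

open Polynomial Quad

/-- the closed points of the affine `t`-line at which the member of the family is a square and not
zero: the monic irreducible polynomials `τ ∈ L[t]`, not dividing `F`, modulo which `F` is the square
of a polynomial in `x` -/
def memSet {L : Type} [Field L] (F : L[X][X]) : Set L[X] :=
  {τ : L[X] | τ.Monic ∧ Irreducible τ ∧ ¬ C τ ∣ F ∧ ∃ s : L[X][X], C τ ∣ F - s ^ 2}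

/-- The family `y² = F(x, t)`, `F = a(x) t² + 2 b(x) t + c(x)`, over the domain `R`: `F` has no square
factor over the fraction field of `R` (`b² ≠ a c` and no square of a nonconstant polynomial in `x`
divides `a`, `b` and `c`) and depends on `x`. -/
structure Family {R : Type} [CommRing R] [IsDomain R] (a b c : R[X]) : Prop where
  disc : b ^ 2 ≠ a * c
  sqf : ∀ q : (FractionRing R)[X], Common (toF a) (toF b) (toF c) (q ^ 2) → IsUnit q
  pos : 0 < (quad a b c).natDegree

end Pool.Agent.Lib.MP_1a0ddd_nt.Hyp
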