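import Pool.Agent.Lib.MP_1a0ddd_nt.Quad.QCore
import Pool.Agent.Lib.MP_1a0ddd_nt.Hyp.HBase

/-! Ranks and limits of quadratic families, affine form (no proofs). -/

set_option autoImplicit false

namespace Pool.Agent.Lib.MP_1a0ddd_nt.Hyp

open Polynomial Filter Topology Quad

open Classical in
/-- the number of the split `π ∈ L[x]`, minus the number of the closed points of the projective
`t`-line at which the member of the family is a square and not zero (the member at infinity
is `a`) -/
noncomputable def famRank {L : Type} [Field L] (a b c : L[X]) : ℤ :=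
  (splitSet a b c).ncard - (memSet (quad a b c)).ncard - if a ≠ 0 ∧ IsSquare a then 1 else 0

/-- the units of the coordinate ring modulo the constants -/
def UnitsMod {K : Type} [Field K] (F : K[X]) : Type :=
  (CurveRing F)ˣ ⧸ (Units.map (curveConst F : K →* CurveRing F)).range

noncomputable instance {K : Type} [Field K] (F : K[X]) : CommGroup (UnitsMod F) :=
  inferInstanceAs (CommGroup ((CurveRing F)ˣ ⧸ (Units.map (curveConst F : K →* CurveRing F)).range))

/-- The affine curve `y² = F(x)` over the field `K` is regular (its coordinate ring `A` is a Dedekind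
domain), `Pic A` and `A*/K*` are finitely generated and `rank Pic A - rank A*/K* = r`. -/
def CurveRank {K : Type} [Field K] (F : K[X]) (r : ℤ) : Prop :=
  IsDedekindDomain (CurveRing F) ∧
  Module.Finite ℤ (Additive (CommRing.Pic (CurveRing F))) ∧
  Module.Finite ℤ (Additive (UnitsMod F)) ∧
  (Module.finrank ℤ (Additive (CommRing.Pic (CurveRing F))) : ℤ) -
    Module.finrank ℤ (Additive (UnitsMod F)) = r

/-- THE RANK. For every field `L` containing `R` the sets which are counted in `famRank` are finite and
the curve `y² = a t² + 2 b t + c` over `L(t)` has the rank `famRank`. -/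
def RankOverAll {R : Type} [CommRing R] (a b c : R[X]) : Prop :=
  ∀ (L : Type) [Field L] (φ : R →+* L), Function.Injective φ →
    (splitSet (a.map φ) (b.map φ) (c.map φ)).Finite ∧
    (memSet (quad (a.map φ) (b.map φ) (c.map φ))).Finite ∧
    CurveRank (overLt L (quad (a.map φ) (b.map φ) (c.map φ)))
      (famRank (a.map φ) (b.map φ) (c.map φ))

/-- THE LIMIT. There is `D₀ ≠ 0` in `R[t]` such that for every `D ≠ 0` in `R[t]` divisible by `D₀` the
average of the traces over the `F_p`-points of `{D ≠ 0} ⊆ Spec R[t]`, divided by `p^m`, tends in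
the Tauberian mean to `-r`. -/
def NagaoLimit {R : Type} [CommRing R] (F : R[X][X]) (m : ℕ) (r : ℤ) : Prop :=
  ∃ D₀ : R[X], D₀ ≠ 0 ∧ ∀ D : R[X], D ≠ 0 → D₀ ∣ D → TauMean (traceAvg F D m) (-(r : ℝ))

end Pool.Agent.Lib.MP_1a0ddd_nt.Hyp
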