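import Pool.Agent.Lib.MP_1a0ddd_nt.Hyp.Chi

/-! Orders at the primes of a Dedekind domain, divisors and the class group. -/

set_option autoImplicit false

namespace Pool.Agent.Lib.MP_1a0ddd_nt.Hyp

open IsDedekindDomain Module

variable (A Q : Type) [CommRing A] [IsDedekindDomain A] [Field Q] [Algebra A Q]
  [IsFractionRing A Q]

/-- the order at the prime `v`, additively -/
noncomputable def ordZ (v : HeightOneSpectrum A) : Additive Qˣ →ₗ[ℤ] ℤ :=
  -(MonoidHom.toAdditiveLeft (v.valuationOfNeZero (K := Q))).toIntLinearMap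

variable {A Q} in
private theorem val_eq (v : HeightOneSpectrum A) (q : Qˣ) :
    v.valuation Q (q : Q) = WithZero.exp (-(ordZ A Q v (Additive.ofMul q))) := by
  rw [← HeightOneSpectrum.valuationOfNeZero_eq]
  have h : ordZ A Q v (Additive.ofMul q) = -(Multiplicative.toAdd (v.valuationOfNeZero q)) := rfl
  rw [h, neg_neg]
  rfl

variable {A Q} in
private theorem val_le_iff (v : HeightOneSpectrum A) (q : Qˣ) (a : A)
    (h : (q : Q) = algebraMap A Q a) (n : ℕ) :
    (n : ℤ) ≤ ordZ A Q v (Additive.ofMul q) ↔ a ∈ v.asIdeal ^ n := by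
  have h1 : v.valuation Q (q : Q) = v.intValuation a := by
    rw [h]
    exact v.valuation_of_algebraMap a
  rw [← v.intValuation_le_pow_iff_mem, ← h1, val_eq, WithZero.exp_le_exp, neg_le_neg_iff]

/-- elements of `A` -/
theorem ord_nonneg (v : HeightOneSpectrum A) (q : Qˣ) (a : A) (h : (q : Q) = algebraMap A Q a) :
    0 ≤ ordZ A Q v (Additive.ofMul q) := by
  have h1 := (val_le_iff v q a h 0).2 (by simp)
  exact_mod_cast h1

theorem ord_pos_iff (v : HeightOneSpectrum A) (q : Qˣ) (a : A) (h : (q : Q) = algebraMap A Q a) :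
    0 < ordZ A Q v (Additive.ofMul q) ↔ a ∈ v.asIdeal := by
  have h1 := val_le_iff v q a h 1
  rw [pow_one] at h1
  rw [← h1, Nat.cast_one]
  exact Int.lt_iff_add_one_le

/-- the order is the exponent in the factorization -/
theorem ord_eq_iff (v : HeightOneSpectrum A) (q : Qˣ) (a : A) (h : (q : Q) = algebraMap A Q a)
    (n : ℕ) : ordZ A Q v (Additive.ofMul q) = n ↔ a ∈ v.asIdeal ^ n ∧ a ∉ v.asIdeal ^ (n + 1) := by
  rw [← val_le_iff v q a h n, ← val_le_iff v q a h (n + 1)]
  push_cast
  omega

theorem ord_finite (q : Additive Qˣ) : {v : HeightOneSpectrum A | ordZ A Q v q ≠ 0}.Finite := by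
  have h1 := HeightOneSpectrum.Support.finite A ((q.toMul : Qˣ) : Q)
  have h2 := HeightOneSpectrum.Support.finite A (((q.toMul)⁻¹ : Qˣ) : Q)
  refine (h1.union h2).subset fun v hv => ?_
  have h3 : ordZ A Q v (Additive.ofMul q.toMul) ≠ 0 := hv
  have h4 : ordZ A Q v (Additive.ofMul (q.toMul)⁻¹) = -ordZ A Q v (Additive.ofMul q.toMul) := by
    rw [ofMul_inv, map_neg]
  rcases lt_or_gt_of_ne h3 with h5 | h5
  · left
    change 1 < v.valuation Q ((q.toMul : Qˣ) : Q)
    rw [val_eq, ← WithZero.exp_zero, WithZero.exp_lt_exp]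
    omega
  · right
    change 1 < v.valuation Q (((q.toMul)⁻¹ : Qˣ) : Q)
    rw [val_eq, h4, ← WithZero.exp_zero, WithZero.exp_lt_exp]
    omega

/-- the kernel: the units -/
theorem ord_eq_zero_iff (q : Qˣ) : (∀ v : HeightOneSpectrum A, ordZ A Q v (Additive.ofMul q) = 0) ↔
    ∃ u : Aˣ, Units.map (algebraMap A Q : A →* Q) u = q := by
  constructor
  · intro h
    have h1 : ∀ v : HeightOneSpectrum A, v.valuation Q (q : Q) ≤ 1 := fun v => by
      rw [val_eq, h v, neg_zero, WithZero.exp_zero]
    have h2 : ∀ v : HeightOneSpectrum A, v.valuation Q ((q⁻¹ : Qˣ) : Q) ≤ 1 := fun v => by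
      rw [val_eq, ofMul_inv, map_neg, h v, neg_zero, neg_zero, WithZero.exp_zero]
    obtain ⟨a, ha⟩ := HeightOneSpectrum.mem_integers_of_valuation_le_one Q _ h1
    obtain ⟨b, hb⟩ := HeightOneSpectrum.mem_integers_of_valuation_le_one Q _ h2
    have hab : a * b = 1 := by
      apply IsFractionRing.injective A Q
      rw [map_mul, ha, hb, map_one, Units.mul_inv]
    refine ⟨⟨a, b, hab, by rw [mul_comm, hab]⟩, ?_⟩
    ext
    exact ha
  · rintro ⟨u, rfl⟩ v
    have h1 := v.valuation_of_unit_eq (K := Q) u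
    have h2 : ordZ A Q v (Additive.ofMul (Units.map (algebraMap A Q : A →* Q) u)) =
        -(Multiplicative.toAdd (v.valuationOfNeZero (Units.map (algebraMap A Q : A →* Q) u))) := rfl
    rw [h2, h1, toAdd_one, neg_zero]

/-- the orders determine the prime -/
theorem ord_ext (v w : HeightOneSpectrum A) (h : ordZ A Q v = ordZ A Q w) : v = w := by
  refine HeightOneSpectrum.ext (Ideal.ext fun a => ?_)
  by_cases ha : a = 0
  · rw [ha]
    simp
  have h0 : algebraMap A Q a ≠ 0 := fun h1 => ha ((IsFractionRing.injective A Q) (by rw [h1, map_zero]))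
  rw [← ord_pos_iff A Q v (Units.mk0 _ h0) a rfl, ← ord_pos_iff A Q w (Units.mk0 _ h0) a rfl, h]

/-- the order is the exponent in the factorization of the principal fractional ideal -/
private theorem ord_eq_count (v : HeightOneSpectrum A) (q : Qˣ) :
    ordZ A Q v (Additive.ofMul q) =
      FractionalIdeal.count Q v (FractionalIdeal.spanSingleton (nonZeroDivisors A) (q : Q)) := by
  classical
  have h1 : ordZ A Q v (Additive.ofMul q) =
      -((-((Associates.mk v.asIdeal).count (Associates.mk <| Ideal.span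
        {(IsLocalization.sec (nonZeroDivisors A) (q : Q)).fst}).factors : ℤ)) -
        (-((Associates.mk v.asIdeal).count (Associates.mk <| Ideal.span
          {((IsLocalization.sec (nonZeroDivisors A) (q : Q)).snd : A)}).factors : ℤ))) := rfl
  have h2 : algebraMap A Q (IsLocalization.sec (nonZeroDivisors A) (q : Q)).snd ≠ 0 :=
    IsFractionRing.to_map_ne_zero_of_mem_nonZeroDivisors (SetLike.coe_mem _)
  have h3 := IsLocalization.sec_spec' (nonZeroDivisors A) (q : Q)
  rw [h1, FractionalIdeal.count_well_defined Q v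
    (a := ((IsLocalization.sec (nonZeroDivisors A) (q : Q)).snd : A))
    (J := Ideal.span {(IsLocalization.sec (nonZeroDivisors A) (q : Q)).fst})]
  · ring
  · rw [Ne, FractionalIdeal.spanSingleton_eq_zero_iff]
    exact q.ne_zero
  · rw [FractionalIdeal.coeIdeal_span_singleton, FractionalIdeal.spanSingleton_mul_spanSingleton,
      h3, inv_mul_cancel_left₀ h2]

private theorem count_finite (I : FractionalIdeal (nonZeroDivisors A) Q) :
    {v : HeightOneSpectrum A | FractionalIdeal.count Q v I ≠ 0}.Finite := by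
  have h := FractionalIdeal.finite_factors (K := Q) I
  rwa [Filter.eventually_cofinite] at h

/-- the divisor of a fractional ideal -/
private noncomputable def divFI :
    Additive (FractionalIdeal (nonZeroDivisors A) Q)ˣ →+ (HeightOneSpectrum A →₀ ℤ) where
  toFun I := Finsupp.ofSupportFinite
    (fun v => FractionalIdeal.count Q v ((Additive.toMul I : (FractionalIdeal (nonZeroDivisors A) Q)ˣ) :
      FractionalIdeal (nonZeroDivisors A) Q)) (count_finite A Q _)
  map_zero' := by
    ext v
    simp [Finsupp.ofSupportFinite_coe, FractionalIdeal.count_one]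
  map_add' I J := by
    ext v
    simp only [Finsupp.ofSupportFinite_coe, Finsupp.coe_add, Pi.add_apply, toMul_add, Units.val_mul]
    exact FractionalIdeal.count_mul Q v (Units.ne_zero _) (Units.ne_zero _)

private theorem divFI_apply (I : (FractionalIdeal (nonZeroDivisors A) Q)ˣ)
    (v : HeightOneSpectrum A) : divFI A Q (Additive.ofMul I) v =
      FractionalIdeal.count Q v (I : FractionalIdeal (nonZeroDivisors A) Q) := rfl

private theorem divFI_inj : Function.Injective (divFI A Q) := by
  intro I J h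
  have h1 : ∀ v, FractionalIdeal.count Q v ((Additive.toMul I :
      (FractionalIdeal (nonZeroDivisors A) Q)ˣ) : FractionalIdeal (nonZeroDivisors A) Q) =
      FractionalIdeal.count Q v ((Additive.toMul J :
      (FractionalIdeal (nonZeroDivisors A) Q)ˣ) : FractionalIdeal (nonZeroDivisors A) Q) :=
    fun v => DFunLike.congr_fun h v
  apply Additive.toMul.injective
  apply Units.ext
  rw [← FractionalIdeal.finprod_heightOneSpectrum_factorization' Q (Units.ne_zero (Additive.toMul I)),
    ← FractionalIdeal.finprod_heightOneSpectrum_factorization' Q (Units.ne_zero (Additive.toMul J))]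
  exact finprod_congr fun v => by rw [h1 v]

private theorem divFI_surj : Function.Surjective (divFI A Q) := by
  intro n
  have h0 : n.prod (fun (v : HeightOneSpectrum A) (k : ℤ) =>
      (v.asIdeal : FractionalIdeal (nonZeroDivisors A) Q) ^ k) ≠ 0 :=
    Finset.prod_ne_zero_iff.2 fun v _ => zpow_ne_zero _ (FractionalIdeal.coeIdeal_ne_zero.mpr v.ne_bot)
  refine ⟨Additive.ofMul (Units.mk0 _ h0), ?_⟩
  ext v
  rw [divFI_apply, Units.val_mk0]
  exact FractionalIdeal.count_finsuppProd Q v n

/-- the class of a divisor -/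
private noncomputable def clsDiv : (HeightOneSpectrum A →₀ ℤ) →+ Additive (ClassGroup A) :=
  (MonoidHom.toAdditive (ClassGroup.mk (R := A) Q)).comp
    (AddEquiv.ofBijective (divFI A Q) ⟨divFI_inj A Q, divFI_surj A Q⟩).symm.toAddMonoidHom

private theorem clsDiv_divFI (I : (FractionalIdeal (nonZeroDivisors A) Q)ˣ) :
    clsDiv A Q (divFI A Q (Additive.ofMul I)) = Additive.ofMul (ClassGroup.mk Q I) := by
  have h : (AddEquiv.ofBijective (divFI A Q) ⟨divFI_inj A Q, divFI_surj A Q⟩).symm
      (divFI A Q (Additive.ofMul I)) = Additive.ofMul I :=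
    (AddEquiv.ofBijective (divFI A Q) ⟨divFI_inj A Q, divFI_surj A Q⟩).symm_apply_apply _
  show MonoidHom.toAdditive (ClassGroup.mk (R := A) Q) _ = _
  rw [show (AddEquiv.ofBijective (divFI A Q) ⟨divFI_inj A Q, divFI_surj A Q⟩).symm.toAddMonoidHom
    (divFI A Q (Additive.ofMul I)) = Additive.ofMul I from h]
  rfl

private theorem clsDiv_surj : Function.Surjective (clsDiv A Q) := by
  intro c
  obtain ⟨I, hI⟩ : ∃ I : (FractionalIdeal (nonZeroDivisors A) Q)ˣ,
      ClassGroup.mk Q I = Additive.toMul c := by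
    refine ClassGroup.induction Q (P := fun c => ∃ I : (FractionalIdeal (nonZeroDivisors A) Q)ˣ,
      ClassGroup.mk Q I = c) (fun I => ⟨I, rfl⟩) _
  refine ⟨divFI A Q (Additive.ofMul I), ?_⟩
  rw [clsDiv_divFI, hI]
  rfl

private theorem clsDiv_eq_zero (n : HeightOneSpectrum A →₀ ℤ) : clsDiv A Q n = 0 ↔
    n ∈ LinearMap.range (divL (ordZ A Q) (ord_finite A Q)) := by
  obtain ⟨I, rfl⟩ := divFI_surj A Q n
  obtain ⟨I, rfl⟩ := Additive.ofMul.surjective I
  have h0 : clsDiv A Q (divFI A Q (Additive.ofMul I)) = 0 ↔ ClassGroup.mk Q I = 1 := by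
    rw [clsDiv_divFI]
    exact Iff.rfl
  rw [h0, ClassGroup.mk_eq_one_iff]
  constructor
  · rintro ⟨x, hx⟩
    have hI : (I : FractionalIdeal (nonZeroDivisors A) Q) =
        FractionalIdeal.spanSingleton (nonZeroDivisors A) x := by
      apply FractionalIdeal.coeToSubmodule_injective
      exact hx.trans (FractionalIdeal.coe_spanSingleton _ x).symm
    have hx0 : x ≠ 0 := by
      rintro rfl
      rw [FractionalIdeal.spanSingleton_zero] at hI
      exact I.ne_zero hI
    refine ⟨Additive.ofMul (Units.mk0 x hx0), ?_⟩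
    ext v
    rw [divL_apply, ord_eq_count, divFI_apply, hI, Units.val_mk0]
  · rintro ⟨q, hq⟩
    obtain ⟨q, rfl⟩ := Additive.ofMul.surjective q
    have h1 : divFI A Q (Additive.ofMul (toPrincipalIdeal A Q q)) = divFI A Q (Additive.ofMul I) := by
      rw [← hq]
      ext v
      rw [divL_apply, ord_eq_count, divFI_apply, coe_toPrincipalIdeal]
    have h2 : toPrincipalIdeal A Q q = I := Additive.ofMul.injective (divFI_inj A Q h1)
    rw [← h2, coe_toPrincipalIdeal, FractionalIdeal.coe_spanSingleton]
    exact ⟨q, rfl⟩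

/-- the class group is the group of divisors modulo the principal divisors: `v ↦` the class of the
ideal `v`, unique factorization of ideals; fractional ideals -/
theorem class_equiv : Nonempty (Additive (ClassGroup A) ≃ₗ[ℤ]
    ((HeightOneSpectrum A →₀ ℤ) ⧸ LinearMap.range (divL (ordZ A Q) (ord_finite A Q)))) := by
  have hk : LinearMap.range (divL (ordZ A Q) (ord_finite A Q)) =
      LinearMap.ker (clsDiv A Q).toIntLinearMap := by
    ext n
    rw [LinearMap.mem_ker]
    exact (clsDiv_eq_zero A Q n).symm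
  exact ⟨((Submodule.quotEquivOfEq _ _ hk).trans
    ((clsDiv A Q).toIntLinearMap.quotKerEquivOfSurjective (clsDiv_surj A Q))).symm⟩

/-- the units are the kernel of the divisor map -/
private noncomputable def unitsKer : Additive Aˣ →ₗ[ℤ]
    LinearMap.ker (divL (ordZ A Q) (ord_finite A Q)) :=
  LinearMap.codRestrict _ (MonoidHom.toAdditive (Units.map (algebraMap A Q : A →* Q))).toIntLinearMap
    (by
      intro u
      rw [LinearMap.mem_ker]
      ext v
      rw [divL_apply, Finsupp.coe_zero, Pi.zero_apply]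
      exact (ord_eq_zero_iff A Q (Units.map (algebraMap A Q : A →* Q) (Additive.toMul u))).2
        ⟨_, rfl⟩ v)

private theorem unitsKer_coe (u : Additive Aˣ) : ((unitsKer A Q u : LinearMap.ker (divL (ordZ A Q)
    (ord_finite A Q))) : Additive Qˣ) =
      Additive.ofMul (Units.map (algebraMap A Q : A →* Q) (Additive.toMul u)) := rfl

private theorem unitsKer_bij : Function.Bijective (unitsKer A Q) := by
  constructor
  · intro u w h
    have h1 : Units.map (algebraMap A Q : A →* Q) (Additive.toMul u) =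
        Units.map (algebraMap A Q : A →* Q) (Additive.toMul w) :=
      Additive.ofMul.injective (congrArg Subtype.val h)
    have h2 : (Units.map (algebraMap A Q : A →* Q) (Additive.toMul u) : Q) =
        Units.map (algebraMap A Q : A →* Q) (Additive.toMul w) := congrArg Units.val h1
    simp only [Units.coe_map] at h2
    exact Additive.toMul.injective (Units.ext (IsFractionRing.injective A Q h2))
  · rintro ⟨q, hq⟩
    obtain ⟨q, rfl⟩ := Additive.ofMul.surjective q
    rw [LinearMap.mem_ker] at hq
    obtain ⟨u, hu⟩ := (ord_eq_zero_iff A Q q).1 fun v => by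
      have := DFunLike.congr_fun hq v
      exact this
    refine ⟨Additive.ofMul u, Subtype.ext ?_⟩
    rw [unitsKer_coe]
    exact congrArg Additive.ofMul hu

/-- `Chi` for all primes of `A` and a group `E` of units -/
theorem chi_of_class (E : Submodule ℤ (Additive Qˣ)) (U : Subgroup Aˣ)
    (hE : ∀ q : Qˣ, Additive.ofMul q ∈ E ↔ ∃ u ∈ U, Units.map (algebraMap A Q : A →* Q) u = q)
    (n : ℤ) : Chi (ordZ A Q) E n ↔
      Module.Finite ℤ (Additive (ClassGroup A)) ∧ Module.Finite ℤ (Additive Aˣ ⧸
        AddSubgroup.toIntSubmodule (Subgroup.toAddSubgroup U)) ∧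
      (finrank ℤ (Additive (ClassGroup A)) : ℤ) - finrank ℤ (Additive Aˣ ⧸
        AddSubgroup.toIntSubmodule (Subgroup.toAddSubgroup U)) = n := by
  obtain ⟨e1⟩ := class_equiv A Q
  obtain ⟨e, he⟩ : ∃ e : Additive Aˣ ≃ₗ[ℤ] LinearMap.ker (divL (ordZ A Q) (ord_finite A Q)),
      ∀ u, ((e u : LinearMap.ker (divL (ordZ A Q) (ord_finite A Q))) : Additive Qˣ) =
        Additive.ofMul (Units.map (algebraMap A Q : A →* Q) (Additive.toMul u)) :=
    ⟨LinearEquiv.ofBijective (unitsKer A Q) (unitsKer_bij A Q), fun u => rfl⟩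
  have hmap : (AddSubgroup.toIntSubmodule (Subgroup.toAddSubgroup U)).map (e : Additive Aˣ →ₗ[ℤ]
      LinearMap.ker (divL (ordZ A Q) (ord_finite A Q))) =
      E.comap (LinearMap.ker (divL (ordZ A Q) (ord_finite A Q))).subtype := by
    ext ⟨q, hq⟩
    rw [Submodule.mem_map, Submodule.mem_comap, Submodule.coe_subtype]
    obtain ⟨q, rfl⟩ := Additive.ofMul.surjective q
    rw [hE]
    constructor
    · rintro ⟨u, hu, h⟩
      refine ⟨Additive.toMul u, hu, ?_⟩
      have := congrArg Subtype.val h
      exact Additive.ofMul.injective ((he u).symm.trans this)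
    · rintro ⟨u, hu, h⟩
      refine ⟨Additive.ofMul u, hu, Subtype.ext ?_⟩
      exact (he (Additive.ofMul u)).trans (congrArg Additive.ofMul h)
  have e2 := Submodule.Quotient.equiv (AddSubgroup.toIntSubmodule (Subgroup.toAddSubgroup U))
    (E.comap (LinearMap.ker (divL (ordZ A Q) (ord_finite A Q))).subtype) e hmap
  constructor
  · rintro ⟨h1, h2, h3, h4, h5⟩
    refine ⟨Module.Finite.equiv e1.symm, Module.Finite.equiv e2.symm, ?_⟩
    rw [e1.finrank_eq, e2.finrank_eq]
    exact h5
  · rintro ⟨h3, h4, h5⟩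
    refine ⟨ord_finite A Q, ?_, Module.Finite.equiv e1, Module.Finite.equiv e2, ?_⟩
    · intro g hg i
      obtain ⟨q, rfl⟩ := Additive.ofMul.surjective g
      obtain ⟨u, -, hu⟩ := (hE q).1 hg
      exact (ord_eq_zero_iff A Q q).2 ⟨u, hu⟩ i
    · rw [← e1.finrank_eq, ← e2.finrank_eq]
      exact h5

end Pool.Agent.Lib.MP_1a0ddd_nt.Hyp
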