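import Pool.Agent.Lib.MP_1a0ddd_nt.Quad.Defs2

/-! Square roots of polynomials of `L[t][x]` modulo an irreducible polynomial of `L[x]`. -/

set_option autoImplicit false

namespace Pool.Agent.Lib.MP_1a0ddd_nt.Hyp

open Polynomial Quad

variable {L : Type} [Field L]

/-- `L[t][x] → κ[t]`, `κ = L[x]/(π)` -/
private noncomputable def psi (π : L[X]) : L[X][X] →+* (AdjoinRoot π)[X] :=
  (mapRingHom (AdjoinRoot.mk π)).comp (Bivariate.swap (R := L) : L[X][X] →+* L[X][X])

private theorem psi_eq_zero (π : L[X]) (G : L[X][X]) : psi π G = 0 ↔ π.map C ∣ G := by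
  have h1 : psi π G = 0 ↔ C π ∣ Bivariate.swap (R := L) G := by
    rw [C_dvd_iff_dvd_coeff]
    constructor
    · intro h i
      have := congrArg (fun p => p.coeff i) h
      simp only [psi, RingHom.comp_apply, coe_mapRingHom, coeff_map, coeff_zero] at this
      exact AdjoinRoot.mk_eq_zero.1 this
    · intro h
      ext i
      simp only [psi, RingHom.comp_apply, coe_mapRingHom, coeff_map, coeff_zero]
      exact AdjoinRoot.mk_eq_zero.2 (h i)
  rw [h1, ← Bivariate.swap_map_C]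
  exact map_dvd_iff (Bivariate.swap (R := L))

private theorem psi_surjective (π : L[X]) : Function.Surjective (psi π) := by
  intro s
  obtain ⟨u, hu⟩ := map_surjective (AdjoinRoot.mk π) AdjoinRoot.mk_surjective s
  obtain ⟨v, hv⟩ := (Bivariate.swap (R := L)).surjective u
  refine ⟨v, ?_⟩
  show (Bivariate.swap (R := L) v).map (AdjoinRoot.mk π) = s
  rw [hv, hu]

private theorem psi_C {π : L[X]} (hπ : Irreducible π) {τ : L[X]} (hτ : τ ≠ 0) :
    psi π (C τ) ≠ 0 := by
  have := Fact.mk hπ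
  have h1 : psi π (C τ) = τ.map (AdjoinRoot.of π) := by
    simp only [psi, RingHom.comp_apply, RingHom.coe_coe, Bivariate.swap_C, coe_mapRingHom, map_map]
    rfl
  rw [h1]
  exact (Polynomial.map_ne_zero_iff (AdjoinRoot.of π).injective).2 hτ

private theorem clear (ρ : (RatFunc L)[X]) :
    ∃ τ : L[X], τ ≠ 0 ∧ ∃ S : L[X][X], toK L S = toK L (C τ) * ρ := by
  obtain ⟨τ, hτ, e1⟩ := IsLocalization.integerNormalization_spec (nonZeroDivisors L[X]) ρ
  refine ⟨τ, nonZeroDivisors.ne_zero hτ,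
    IsLocalization.integerNormalization (nonZeroDivisors L[X]) ρ, ?_⟩
  have : toK L (IsLocalization.integerNormalization (nonZeroDivisors L[X]) ρ) = τ • ρ := e1
  rw [this, Algebra.smul_def]
  simp only [coe_mapRingHom, map_C]
  rfl

private theorem toK_map_C (π : L[X]) :
    toK L (π.map C) = π.map (RatFunc.C : L →+* RatFunc L) := by
  have h4 : (algebraMap L[X] (RatFunc L)).comp (C : L →+* L[X]) = RatFunc.C := by
    ext a
    exact RatFunc.algebraMap_C a
  show ((π.map C).map (algebraMap L[X] (RatFunc L))) = _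
  rw [map_map, h4]

/-- divisibility by `π(x)` over `L(t)` and over `L[t]` -/
theorem up_dvd_toK {π : L[X]} (hπ : Irreducible π) (G : L[X][X]) :
    π.map (RatFunc.C : L →+* RatFunc L) ∣ toK L G ↔ π.map C ∣ G := by
  have := Fact.mk hπ
  constructor
  · rintro ⟨q, hq⟩
    obtain ⟨τ, hτ, Q, hQ⟩ := clear q
    have e : C τ * G = π.map C * Q := by
      apply toK_injective
      rw [map_mul, map_mul, hQ, hq, toK_map_C]
      ring
    rw [← psi_eq_zero]
    have h1 := congrArg (psi π) e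
    rw [map_mul, map_mul, (psi_eq_zero π (π.map C)).2 dvd_rfl, zero_mul] at h1
    exact (mul_eq_zero.1 h1).resolve_left (psi_C hπ hτ)
  · intro h
    rw [← toK_map_C]
    exact _root_.map_dvd (toK L) h

/-- a square root modulo `π(x)` over `L(t)` gives a square root in `κ[t]`, `κ = L[x]/(π)` -/
private theorem sq_psi {π : L[X]} (hπ : Irreducible π) (G : L[X][X]) (ρ : (RatFunc L)[X])
    (h : π.map (RatFunc.C : L →+* RatFunc L) ∣ ρ ^ 2 - toK L G) :
    ∃ s : L[X][X], π.map C ∣ s ^ 2 - G := by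
  have := Fact.mk hπ
  obtain ⟨τ, hτ, S, hS⟩ := clear ρ
  have h1 : π.map (RatFunc.C : L →+* RatFunc L) ∣ toK L (S ^ 2 - C τ ^ 2 * G) := by
    have : toK L (S ^ 2 - C τ ^ 2 * G) = toK L (C τ) ^ 2 * (ρ ^ 2 - toK L G) := by
      rw [map_sub, map_pow, map_mul, map_pow, hS]
      ring
    rw [this]
    exact Dvd.dvd.mul_left h _
  rw [up_dvd_toK hπ, ← psi_eq_zero, map_sub, map_mul, map_pow, map_pow, sub_eq_zero] at h1
  have h2 : psi π (C τ) ^ 2 ∣ psi π S ^ 2 := ⟨_, h1⟩
  rw [IsIntegrallyClosed.pow_dvd_pow_iff two_ne_zero] at h2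
  obtain ⟨σ, hσ⟩ := h2
  obtain ⟨s, rfl⟩ := psi_surjective π σ
  refine ⟨s, ?_⟩
  rw [← psi_eq_zero, map_sub, map_pow, sub_eq_zero]
  rw [hσ, mul_pow] at h1
  exact mul_left_cancel₀ (pow_ne_zero 2 (psi_C hπ hτ)) h1

/-- square roots modulo `π(x)` over `L(t)` and over `L[t]` -/
theorem up_sq_toK {π : L[X]} (hπ : Irreducible π) (G : L[X][X]) :
    (∃ ρ : (RatFunc L)[X], π.map (RatFunc.C : L →+* RatFunc L) ∣ ρ ^ 2 - toK L G) ↔
      ∃ s : L[X][X], π.map C ∣ s ^ 2 - G := by
  constructor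
  · rintro ⟨ρ, h⟩
    exact sq_psi hπ G ρ h
  · rintro ⟨s, h⟩
    refine ⟨toK L s, ?_⟩
    rw [← map_pow, ← map_sub]
    exact (up_dvd_toK hπ _).2 h

private theorem psi_quad (π a b c : L[X]) : psi π (quad a b c) =
    C (AdjoinRoot.mk π a) * X ^ 2 + C (2 * AdjoinRoot.mk π b) * X + C (AdjoinRoot.mk π c) := by
  have hs : Bivariate.swap (R := L) (quad a b c) = C a * X ^ 2 + C (2 * b) * X + C c := by
    rw [quad, C_mul, C_ofNat]
    simp only [map_add, map_mul, map_pow, map_ofNat, Bivariate.swap_map_C, Bivariate.swap_X]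
  show (Bivariate.swap (R := L) (quad a b c)).map (AdjoinRoot.mk π) = _
  rw [hs]
  simp only [Polynomial.map_add, Polynomial.map_mul, Polynomial.map_pow, map_C, map_X, map_mul,
    map_ofNat, Polynomial.map_ofNat]

private theorem two_dvd [CharZero L] {π b : L[X]} : π ∣ 2 * b ↔ π ∣ b := by
  have hu : IsUnit (2 : L[X]) := by
    have : (2 : L[X]) = C 2 := by rw [C_ofNat]
    rw [this]
    exact isUnit_C.mpr (IsUnit.mk0 _ two_ne_zero)
  exact hu.dvd_mul_left

/-- `π` divides `a t² + 2 b t + c` iff it is a common factor -/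
theorem dvd_quad_iff_common [CharZero L] {a b c π : L[X]} :
    π.map C ∣ quad a b c ↔ Common a b c π := by
  rw [← psi_eq_zero, psi_quad]
  constructor
  · intro h
    have h2 := congrArg (fun p => p.coeff 2) h
    have h1 := congrArg (fun p => p.coeff 1) h
    have h0 := congrArg (fun p => p.coeff 0) h
    simp only [coeff_add, coeff_C_mul, coeff_X_pow, coeff_X, coeff_C, coeff_zero] at h2 h1 h0
    norm_num at h2 h1 h0
    refine ⟨h2, ?_, h0⟩
    rw [← two_dvd, ← AdjoinRoot.mk_eq_zero, map_mul, map_ofNat]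
    exact h1
  · rintro ⟨h1, h2, h3⟩
    rw [AdjoinRoot.mk_eq_zero.2 h1, AdjoinRoot.mk_eq_zero.2 h2, AdjoinRoot.mk_eq_zero.2 h3]
    simp

/-- `a t² + 2 b t + c` is a square modulo `π` iff it is the square of a polynomial `β t + γ` -/
theorem sq_quad_iff_split [CharZero L] {a b c π : L[X]} (hπ : Irreducible π) :
    (∃ s : L[X][X], π.map C ∣ s ^ 2 - quad a b c) ↔ ∃ β γ : L[X], Split a b c π β γ := by
  have := Fact.mk hπ
  constructor
  · rintro ⟨s, h⟩
    rw [← psi_eq_zero, map_sub, map_pow, sub_eq_zero, psi_quad] at h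
    have hd : (psi π s).natDegree ≤ 1 := by
      have h1 : ((psi π s) ^ 2).natDegree ≤ 2 := by
        rw [h]
        exact natDegree_quadratic_le
      rw [natDegree_pow] at h1
      omega
    rw [eq_X_add_C_of_natDegree_le_one hd] at h
    obtain ⟨β, hβ⟩ := AdjoinRoot.mk_surjective ((psi π s).coeff 1)
    obtain ⟨γ, hγ⟩ := AdjoinRoot.mk_surjective ((psi π s).coeff 0)
    rw [← hβ, ← hγ] at h
    have e : (C (AdjoinRoot.mk π β) * X + C (AdjoinRoot.mk π γ)) ^ 2 =
        C (AdjoinRoot.mk π β ^ 2) * X ^ 2 + C (2 * (AdjoinRoot.mk π β * AdjoinRoot.mk π γ)) * X +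
          C (AdjoinRoot.mk π γ ^ 2) := by
      simp only [C_mul, C_pow, C_ofNat]
      ring
    rw [e] at h
    have h2 := congrArg (fun p => p.coeff 2) h
    have h1 := congrArg (fun p => p.coeff 1) h
    have h0 := congrArg (fun p => p.coeff 0) h
    simp only [coeff_add, coeff_C_mul, coeff_X_pow, coeff_X, coeff_C] at h2 h1 h0
    norm_num at h2 h1 h0
    refine ⟨β, γ, ?_, ?_, ?_⟩
    · rw [← AdjoinRoot.mk_eq_zero, map_sub, map_pow, h2, sub_self]
    · rw [← two_dvd, ← AdjoinRoot.mk_eq_zero, map_mul, map_sub, map_mul, map_ofNat, mul_sub,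
        sub_eq_zero]
      rcases h1 with h1 | h1
      · rw [h1]
      · rw [h1, zero_mul, zero_mul]
    · rw [← AdjoinRoot.mk_eq_zero, map_sub, map_pow, h0, sub_self]
  · rintro ⟨β, γ, h⟩
    exact ⟨lin β γ, h.dvd_quad⟩

/-- divisibility by `τ(t)` over `L(x)` and over `L[t][x]` -/
theorem up_dvd_toW {τ : L[X]} (hτ : Irreducible τ) (G : L[X][X]) :
    τ.map (RatFunc.C : L →+* RatFunc L) ∣ toW L G ↔ C τ ∣ G := by
  have e : toW L G = toK L (Bivariate.swap (R := L) G) := rfl
  rw [e, up_dvd_toK hτ, ← Bivariate.swap_C]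
  exact map_dvd_iff (Bivariate.swap (R := L))

/-- square roots modulo `τ(t)` over `L(x)` and over `L[t][x]` -/
theorem up_sq_toW {τ : L[X]} (hτ : Irreducible τ) (G : L[X][X]) :
    (∃ ρ : (RatFunc L)[X], τ.map (RatFunc.C : L →+* RatFunc L) ∣ ρ ^ 2 - toW L G) ↔
      ∃ s : L[X][X], C τ ∣ s ^ 2 - G := by
  have e : toW L G = toK L (Bivariate.swap (R := L) G) := rfl
  rw [e, up_sq_toK hτ, ← Bivariate.swap_C]
  constructor
  · rintro ⟨s, h⟩
    obtain ⟨u, rfl⟩ := (Bivariate.swap (R := L)).surjective s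
    refine ⟨u, ?_⟩
    rw [← map_pow, ← map_sub] at h
    exact (map_dvd_iff (Bivariate.swap (R := L))).1 h
  · rintro ⟨s, h⟩
    refine ⟨Bivariate.swap (R := L) s, ?_⟩
    rw [← map_pow, ← map_sub]
    exact (map_dvd_iff (Bivariate.swap (R := L))).2 h

end Pool.Agent.Lib.MP_1a0ddd_nt.Hyp
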