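import Pool.Agent.Lib.MP_1a0ddd_nt.Hyp.Vert
import Pool.Agent.Lib.MP_1a0ddd_nt.Hyp.Ord
import Pool.Agent.Lib.MP_1a0ddd_nt.Hyp.HDef
import Pool.Agent.Lib.MP_1a0ddd_nt.Hyp.QSw

/-! The primes of `K[X][y]/(y² - P)`, `K = L(t)`, over the irreducible polynomials with coefficients in
`L`. -/

set_option autoImplicit false

namespace Pool.Agent.Lib.MP_1a0ddd_nt.Hyp

open Polynomial Quad IsDedekindDomain Module

variable {L : Type} [Field L] [CharZero L]

/-- a polynomial over `L` over the field `L(t)` -/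
noncomputable abbrev up (w : L[X]) : (RatFunc L)[X] := w.map (RatFunc.C : L →+* RatFunc L)

/-- the monic irreducible `π` over `L` which split in `y² = P` -/
def vSet (P : (RatFunc L)[X]) : Set L[X] :=
  {π | π.Monic ∧ Irreducible π ∧ ¬ up π ∣ P ∧ ∃ ρ : (RatFunc L)[X], up π ∣ ρ ^ 2 - P}

private theorem mem_iff_two {A : Type} [CommRing A] [IsDedekindDomain A]
    {v w u : HeightOneSpectrum A} {a : A} (h : Ideal.span {a} = v.asIdeal * w.asIdeal) :
    a ∈ u.asIdeal ↔ u = v ∨ u = w := by
  constructor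
  · intro ha
    have ha' : v.asIdeal * w.asIdeal ≤ u.asIdeal := by
      rw [← h, Ideal.span_singleton_le_iff_mem]
      exact ha
    rcases u.isPrime.mul_le.mp ha' with h1 | h1
    · left
      exact HeightOneSpectrum.ext (v.isMaximal.eq_of_le u.isPrime.ne_top h1).symm
    · right
      exact HeightOneSpectrum.ext (w.isMaximal.eq_of_le u.isPrime.ne_top h1).symm
  · intro hu
    have ha : a ∈ v.asIdeal * w.asIdeal := by
      rw [← h]
      exact Ideal.mem_span_singleton_self a
    have hb := Ideal.mul_le_inf ha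
    rcases hu with hu | hu
    · rw [hu]
      exact hb.1
    · rw [hu]
      exact hb.2

private theorem mem_iff_one {A : Type} [CommRing A] [IsDedekindDomain A]
    {v u : HeightOneSpectrum A} {a : A} (h : Ideal.span {a} = v.asIdeal) :
    a ∈ u.asIdeal ↔ u = v := by
  constructor
  · intro ha
    rw [← Ideal.dvd_span_singleton, h] at ha
    exact HeightOneSpectrum.ext
        (v.isMaximal.eq_of_le u.isPrime.ne_top (Ideal.le_of_dvd ha)).symm
  · rintro rfl
    rw [← h]
    exact Ideal.mem_span_singleton_self a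

private theorem not_mem_two {A : Type} [CommRing A] [IsDedekindDomain A]
    {v w : HeightOneSpectrum A} {a : A} (hvw : v ≠ w)
    (h : Ideal.span {a} = v.asIdeal * w.asIdeal) : a ∉ v.asIdeal ^ 2 := by
  intro ha
  rw [← Ideal.dvd_span_singleton, h, sq] at ha
  have h1 : v.asIdeal ∣ w.asIdeal := (mul_dvd_mul_iff_left v.ne_bot).mp ha
  exact hvw (HeightOneSpectrum.ext
    (w.isMaximal.eq_of_le v.isPrime.ne_top (Ideal.le_of_dvd h1)).symm)

private theorem not_mem_one {A : Type} [CommRing A] [IsDedekindDomain A]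
    {v : HeightOneSpectrum A} {a : A} (h : Ideal.span {a} = v.asIdeal) :
    a ∉ v.asIdeal ^ 2 := by
  intro ha
  rw [← Ideal.dvd_span_singleton, h, sq] at ha
  have h1 : v.asIdeal * v.asIdeal ∣ v.asIdeal * 1 := by rwa [mul_one]
  have h2 : v.asIdeal ∣ 1 := (mul_dvd_mul_iff_left v.ne_bot).mp h1
  exact v.prime.not_isUnit (isUnit_of_dvd_one h2)

omit [CharZero L] in
private theorem exists_monic (P : (RatFunc L)[X]) {I : Ideal (QR P)} (hI : I.IsPrime)
    {w : L[X]} (hw : w ≠ 0) (hm : em P (up w) ∈ I) :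
    ∃ π : {π : L[X] // π.Monic ∧ Irreducible π}, em P (up π.1) ∈ I := by
  induction w using UniqueFactorizationMonoid.induction_on_prime with
  | h₁ => exact absurd rfl hw
  | h₂ x hx =>
    exact absurd (Ideal.eq_top_of_isUnit_mem _ hm
      (((hx.map (mapRingHom (RatFunc.C : L →+* RatFunc L))).map (em P)))) hI.ne_top
  | h₃ a p ha hp ih =>
    unfold up at hm
    rw [Polynomial.map_mul, map_mul] at hm
    rcases hI.mem_or_mem hm with h | h
    · refine ⟨⟨p * C p.leadingCoeff⁻¹, monic_mul_leadingCoeff_inv hp.ne_zero,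
        (irreducible_mul_leadingCoeff_inv).mpr hp.irreducible⟩, ?_⟩
      change em P ((p * C p.leadingCoeff⁻¹).map _) ∈ I
      rw [Polynomial.map_mul, map_mul]
      exact Ideal.mul_mem_right _ _ h
    · exact ih ha h

omit [CharZero L] in
private theorem monic_unique (P : (RatFunc L)[X]) {I : Ideal (QR P)} (hI : I.IsPrime)
    (π τ : {π : L[X] // π.Monic ∧ Irreducible π}) (h1 : em P (up π.1) ∈ I)
    (h2 : em P (up τ.1) ∈ I) : π = τ := by
  by_contra hne
  have hnd : ¬ π.1 ∣ τ.1 := by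
    intro hd
    apply hne
    exact Subtype.ext (eq_of_monic_of_associated π.2.1 τ.2.1
      (π.2.2.associated_of_dvd τ.2.2 hd))
  obtain ⟨a, b, hab⟩ := (π.2.2.coprime_iff_not_dvd).mpr hnd
  apply hI.ne_top
  rw [Ideal.eq_top_iff_one]
  have e : (1 : QR P) = em P (up a) * em P (up π.1) + em P (up b) * em P (up τ.1) := by
    have e1 := congrArg (fun z : L[X] => em P (up z)) hab
    simp only [up, Polynomial.map_add, Polynomial.map_mul, map_add, map_mul,
      Polynomial.map_one, map_one] at e1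
    exact e1.symm
  rw [e]
  exact Ideal.add_mem _ (Ideal.mul_mem_left _ _ h1) (Ideal.mul_mem_left _ _ h2)

omit [CharZero L] in
private theorem dvd_finite {P : (RatFunc L)[X]} (hP : P ≠ 0) :
    {π : {π : L[X] // π.Monic ∧ Irreducible π} | up π.1 ∣ P}.Finite := by
  classical
  have hinj : Function.Injective (fun π : {π : L[X] // π.Monic ∧ Irreducible π} => up π.1) := by
    intro π τ h
    exact Subtype.ext (Polynomial.map_injective _ (RatFunc.C : L →+* RatFunc L).injective h)
  refine Set.Finite.of_injOn (f := fun π : {π : L[X] // π.Monic ∧ Irreducible π} => up π.1)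
    (t := ((UniqueFactorizationMonoid.normalizedFactors P).toFinset : Set _)) ?_
    hinj.injOn (Finset.finite_toSet _)
  intro π hπ
  simp only [Finset.mem_coe, Multiset.mem_toFinset]
  rw [UniqueFactorizationMonoid.mem_normalizedFactors_iff' hP]
  refine ⟨map_irreducible2 π.2.2, ?_, hπ⟩
  exact (π.2.1.map _).normalize_eq_self

/-- The primes over `π`: `up π` is irreducible (`map_irreducible2`); if `π ∈ vSet P` with `ρ`, then the
primes over `π` are the two different ideals `PI P π ρ`, `PI P π (-ρ)` with product `(π)`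
(`primes_of_mem`, `PI_mul_neg`, `mem_PI`); if `π ∣ P` then there is one, `PI P π 0`, with square
`(π)`; otherwise `(π)` is maximal (`span_isMaximal`). -/
theorem primes_over (P : (RatFunc L)[X]) (hsq : Squarefree P) (hns : ¬ IsSquare P)
    [IsDedekindDomain (QR P)] (π : L[X]) (hm : π.Monic) (hi : Irreducible π) :
    (π ∈ vSet P ∧ ∃ v w : HeightOneSpectrum (QR P), v ≠ w ∧
      Ideal.span {em P (up π)} = v.asIdeal * w.asIdeal) ∨
    (π ∉ vSet P ∧ up π ∣ P ∧ ∃ v : HeightOneSpectrum (QR P),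
      Ideal.span {em P (up π)} = v.asIdeal ^ 2) ∨
    (π ∉ vSet P ∧ ¬ up π ∣ P ∧ ∃ v : HeightOneSpectrum (QR P),
      Ideal.span {em P (up π)} = v.asIdeal) := by
  have hirr : Irreducible (up π) := map_irreducible2 hi
  have hQ : CharZero (RatFunc L) := charZero_of_injective_algebraMap
    (algebraMap L (RatFunc L)).injective
  have h2 : IsUnit (2 : (RatFunc L)[X]) := by
    have e : (2 : (RatFunc L)[X]) = C 2 := by rw [C_ofNat]
    rw [e]
    exact isUnit_C.mpr (IsUnit.mk0 _ two_ne_zero)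
  have hem : em P (up π) ≠ 0 := by
    rw [Ne, map_eq_zero_iff _ (em_injective P)]
    exact hirr.ne_zero
  have hne : ∀ ρ : (RatFunc L)[X], PI P (up π) ρ ≠ ⊥ := by
    intro ρ h
    apply hem
    have h1 : em P (up π) ∈ PI P (up π) ρ := Ideal.subset_span (by simp)
    rwa [h, Ideal.mem_bot] at h1
  by_cases hv : π ∈ vSet P
  · left
    refine ⟨hv, ?_⟩
    obtain ⟨-, -, hnd, ρ, hρ⟩ := hv
    have hρ' : up π ∣ (-ρ) ^ 2 - P := by rwa [neg_sq]
    refine ⟨⟨PI P (up π) ρ, (PI_isMaximal hirr hρ).isPrime, hne ρ⟩,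
      ⟨PI P (up π) (-ρ), (PI_isMaximal hirr hρ').isPrime, hne (-ρ)⟩, ?_,
      (PI_mul_neg h2 hsq hρ).symm⟩
    intro he
    have he' : PI P (up π) ρ = PI P (up π) (-ρ) := congrArg HeightOneSpectrum.asIdeal he
    have h1 : em P ρ + em P 1 * yy P ∈ PI P (up π) (-ρ) := by
      have e : em P ρ + em P 1 * yy P = yy P - em P (-ρ) := by
        rw [map_one, map_neg]
        ring
      rw [e]
      exact Ideal.subset_span (by simp)
    rw [← he', mem_PI P hρ, one_mul, ← two_mul, h2.dvd_mul_left] at h1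
    apply hnd
    have e : P = ρ * ρ - (ρ ^ 2 - P) := by ring
    rw [e]
    exact dvd_sub (Dvd.dvd.mul_left h1 _) hρ
  · right
    by_cases hd : up π ∣ P
    · left
      have h0 : up π ∣ (0 : (RatFunc L)[X]) ^ 2 - P := by
        rw [zero_pow two_ne_zero, zero_sub]
        exact (dvd_neg).mpr hd
      refine ⟨hv, hd, ⟨PI P (up π) 0, (PI_isMaximal hirr h0).isPrime, hne 0⟩, ?_⟩
      have h1 := PI_mul_neg h2 hsq h0
      rw [neg_zero, ← sq] at h1
      exact h1.symm
    · right
      have hall : ∀ ρ : (RatFunc L)[X], ¬ up π ∣ ρ ^ 2 - P := fun ρ h =>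
        hv ⟨hm, hi, hd, ρ, h⟩
      refine ⟨hv, hd, ⟨Ideal.span {em P (up π)}, (span_isMaximal hirr hall).isPrime, ?_⟩, rfl⟩
      rw [Ne, Ideal.span_singleton_eq_bot]
      exact hem

/-- The group of the primes over polynomials with coefficients in `L`, modulo these polynomials:
`vert_group` with `X` the primes, `f v` the monic irreducible `π` in `v`, `m v` the exponent of `v`
in `(π)`, `S = vSet P`. -/
theorem vert_QR (P : (RatFunc L)[X]) (hsq : Squarefree P) (hns : ¬ IsSquare P)
    [IsDedekindDomain (QR P)] (hfin : (vSet P).Finite) (Q : Type) [Field Q] [Algebra (QR P) Q]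
    [IsFractionRing (QR P) Q] :
    VertRank (fun v : {v : HeightOneSpectrum (QR P) // ∃ w : L[X], w ≠ 0 ∧
        em P (up w) ∈ v.asIdeal} => ordZ (QR P) Q v.1)
      (Submodule.span ℤ {q : Additive Qˣ | ∃ w : L[X], w ≠ 0 ∧
        ((Additive.toMul q : Qˣ) : Q) = algebraMap (QR P) Q (em P (up w))}) (vSet P).ncard := by
  classical
  have hP0 : P ≠ 0 := by
    rintro rfl
    exact hns ⟨0, by rw [mul_zero]⟩
  have hex : ∀ v : {v : HeightOneSpectrum (QR P) // ∃ w : L[X], w ≠ 0 ∧ em P (up w) ∈ v.asIdeal},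
      ∃ π : {π : L[X] // π.Monic ∧ Irreducible π}, em P (up π.1) ∈ v.1.asIdeal := by
    rintro ⟨v, w, hw, hm⟩
    exact exists_monic P v.isPrime hw hm
  choose f hf using hex
  have hfu : ∀ v (π : {π : L[X] // π.Monic ∧ Irreducible π}),
      f v = π ↔ em P (up π.1) ∈ v.1.asIdeal := by
    intro v π
    constructor
    · rintro rfl
      exact hf v
    · intro h
      exact monic_unique P v.1.isPrime _ _ (hf v) h
  have hne : ∀ w : L[X], w ≠ 0 → algebraMap (QR P) Q (em P (up w)) ≠ 0 := by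
    intro w hw
    rw [Ne, map_eq_zero_iff _ (IsFractionRing.injective (QR P) Q),
      map_eq_zero_iff _ (em_injective P)]
    exact (Polynomial.map_ne_zero_iff (RatFunc.C : L →+* RatFunc L).injective).mpr hw
  obtain ⟨q, hq⟩ : ∃ q : ∀ w : L[X], w ≠ 0 → Qˣ, ∀ w hw, ((q w hw : Qˣ) : Q) =
      algebraMap (QR P) Q (em P (up w)) := ⟨fun w hw => Units.mk0 _ (hne w hw), fun _ _ => rfl⟩
  have hqm : ∀ a b (ha : a ≠ 0) (hb : b ≠ 0), q (a * b) (mul_ne_zero ha hb) = q a ha * q b hb := by
    intro a b ha hb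
    apply Units.ext
    rw [Units.val_mul, hq, hq, hq, ← map_mul, ← map_mul]
    unfold up
    rw [Polynomial.map_mul]
  obtain ⟨m, hmc⟩ : ∃ m : {v : HeightOneSpectrum (QR P) // ∃ w : L[X], w ≠ 0 ∧
      em P (up w) ∈ v.asIdeal} → ℕ, ∀ v, (m v : ℤ) = ordZ (QR P) Q v.1
        (Additive.ofMul (q (f v).1 (f v).2.1.ne_zero)) :=
    ⟨fun v => (ordZ (QR P) Q v.1 (Additive.ofMul (q (f v).1 (f v).2.1.ne_zero))).toNat,
      fun v => Int.toNat_of_nonneg (ord_nonneg (QR P) Q v.1 _ _ (hq _ _))⟩
  have hm0 : ∀ v, 0 < m v := by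
    intro v
    have h := (ord_pos_iff (QR P) Q v.1 _ _ (hq (f v).1 (f v).2.1.ne_zero)).mpr (hf v)
    rw [← hmc] at h
    exact_mod_cast h
  -- the primes over a polynomial
  have hin : ∀ (π : {π : L[X] // π.Monic ∧ Irreducible π}) (v : HeightOneSpectrum (QR P)),
      em P (up π.1) ∈ v.asIdeal → ∃ w : L[X], w ≠ 0 ∧ em P (up w) ∈ v.asIdeal :=
    fun π v h => ⟨π.1, π.2.1.ne_zero, h⟩
  have hone : ∀ (π : {π : L[X] // π.Monic ∧ Irreducible π}) (v : HeightOneSpectrum (QR P)),
      (∀ u : HeightOneSpectrum (QR P), em P (up π.1) ∈ u.asIdeal ↔ u = v) →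
      ∃ x, {z | f z = π} = {x} := by
    intro π v h
    refine ⟨⟨v, hin π v ((h v).mpr rfl)⟩, ?_⟩
    ext z
    rw [Set.mem_ofPred_eq, Set.mem_singleton_iff, hfu, h, Subtype.ext_iff]
  have hS2 : ∀ π : {π : L[X] // π.Monic ∧ Irreducible π}, π.1 ∈ vSet P →
      ∃ x y, x ≠ y ∧ {z | f z = π} = {x, y} := by
    intro π hπ
    rcases primes_over P hsq hns π.1 π.2.1 π.2.2 with ⟨-, v, w, hvw, h⟩ | ⟨h, -⟩ | ⟨h, -⟩
    · refine ⟨⟨v, hin π v ((mem_iff_two h).mpr (Or.inl rfl))⟩,
        ⟨w, hin π w ((mem_iff_two h).mpr (Or.inr rfl))⟩, ?_, ?_⟩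
      · intro he
        exact hvw (congrArg Subtype.val he)
      · ext z
        rw [Set.mem_ofPred_eq, Set.mem_insert_iff, Set.mem_singleton_iff, hfu, mem_iff_two h,
          Subtype.ext_iff, Subtype.ext_iff]
    · exact absurd hπ h
    · exact absurd hπ h
  have hS1 : ∀ π : {π : L[X] // π.Monic ∧ Irreducible π}, π.1 ∉ vSet P →
      ∃ x, {z | f z = π} = {x} := by
    intro π hπ
    rcases primes_over P hsq hns π.1 π.2.1 π.2.2 with ⟨h, -⟩ | ⟨-, -, v, h⟩ | ⟨-, -, v, h⟩
    · exact absurd h hπ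
    · refine hone π v fun u => ?_
      rw [pow_two v.asIdeal] at h
      rw [mem_iff_two h, or_self]
    · exact hone π v fun u => mem_iff_one h
  have hfib : ∀ π, {z | f z = π}.Finite := by
    intro π
    by_cases hπ : π.1 ∈ vSet P
    · obtain ⟨x, y, -, h⟩ := hS2 π hπ
      rw [h]
      exact Set.toFinite _
    · obtain ⟨x, h⟩ := hS1 π hπ
      rw [h]
      exact Set.toFinite _
  have hm1 : ∀ v, ¬ up (f v).1 ∣ P → m v = 1 := by
    intro v hv
    have hn : em P (up (f v).1) ∉ v.1.asIdeal ^ 2 := by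
      rcases primes_over P hsq hns (f v).1 (f v).2.1 (f v).2.2 with
        ⟨-, a, b, hab, h⟩ | ⟨-, h, -⟩ | ⟨-, -, a, h⟩
      · rcases (mem_iff_two h).mp (hf v) with e | e
        · rw [e]
          exact not_mem_two hab h
        · rw [e]
          exact not_mem_two hab.symm (by rw [mul_comm]; exact h)
      · exact absurd h hv
      · rw [(mem_iff_one h).mp (hf v)]
        exact not_mem_one h
    have h1 := (ord_eq_iff (QR P) Q v.1 _ _ (hq (f v).1 (f v).2.1.ne_zero) 1).mpr
      ⟨by rw [pow_one]; exact hf v, hn⟩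
    rw [← hmc] at h1
    exact_mod_cast h1
  have hmfin : {v | m v ≠ 1}.Finite := by
    refine ((dvd_finite hP0).biUnion (t := fun π => {z | f z = π}) fun π _ => hfib π).subset ?_
    intro v hv
    simp only [Set.mem_iUnion, Set.mem_ofPred_eq, exists_prop, exists_eq_right']
    by_contra h
    exact hv (hm1 v h)
  have hfinS : {π : {π : L[X] // π.Monic ∧ Irreducible π} | π.1 ∈ vSet P}.Finite :=
    hfin.preimage Subtype.val_injective.injOn
  have hcard : {π : {π : L[X] // π.Monic ∧ Irreducible π} | π.1 ∈ vSet P}.ncard =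
      (vSet P).ncard := by
    rw [← Set.ncard_image_of_injective _ Subtype.val_injective]
    congr 1
    ext π
    constructor
    · rintro ⟨τ, hτ, rfl⟩
      exact hτ
    · intro h
      exact ⟨⟨π, h.1, h.2.1⟩, h, rfl⟩
  -- the divisor map
  have hβ : ∀ g : Additive Qˣ, {x : {v : HeightOneSpectrum (QR P) // ∃ w : L[X], w ≠ 0 ∧
      em P (up w) ∈ v.asIdeal} | ordZ (QR P) Q x.1 g ≠ 0}.Finite := fun g =>
    (ord_finite (QR P) Q g).preimage Subtype.val_injective.injOn
  have hunit : ∀ (w : L[X]) (hw : w ≠ 0), IsUnit w → divL _ hβ (Additive.ofMul (q w hw)) = 0 := by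
    intro w hw hu
    ext x
    rw [divL_apply, Finsupp.zero_apply]
    have h1 := ord_nonneg (QR P) Q x.1 _ _ (hq w hw)
    have h2 : ¬ 0 < ordZ (QR P) Q x.1 (Additive.ofMul (q w hw)) := by
      rw [ord_pos_iff (QR P) Q x.1 _ _ (hq w hw)]
      intro h
      exact x.1.isPrime.ne_top (Ideal.eq_top_of_isUnit_mem _ h
        (((hu.map (mapRingHom (RatFunc.C : L →+* RatFunc L))).map (em P))))
    omega
  have hirr : ∀ π : {π : L[X] // π.Monic ∧ Irreducible π},
      divL _ hβ (Additive.ofMul (q π.1 π.2.1.ne_zero)) =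
        ∑ x ∈ (hfib π).toFinset, Finsupp.single x (m x : ℤ) := by
    intro π
    ext x
    rw [divL_apply, Finsupp.finsetSum_apply]
    by_cases hx : f x = π
    · rw [Finset.sum_eq_single x]
      · rw [Finsupp.single_eq_same, hmc]
        subst hx
        rfl
      · intro y _ hy
        exact Finsupp.single_eq_of_ne hy.symm
      · intro h
        exact absurd ((hfib π).mem_toFinset.mpr hx) h
    · rw [Finset.sum_eq_zero]
      · have h1 := ord_nonneg (QR P) Q x.1 _ _ (hq π.1 π.2.1.ne_zero)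
        have h2 : ¬ 0 < ordZ (QR P) Q x.1 (Additive.ofMul (q π.1 π.2.1.ne_zero)) := by
          rw [ord_pos_iff (QR P) Q x.1 _ _ (hq π.1 π.2.1.ne_zero), ← hfu]
          exact hx
        omega
      · intro y hy
        refine Finsupp.single_eq_of_ne ?_
        rintro rfl
        exact hx ((hfib π).mem_toFinset.mp hy)
  have hmap : Submodule.map (divL _ hβ) (Submodule.span ℤ {g : Additive Qˣ | ∃ w : L[X], w ≠ 0 ∧
        ((Additive.toMul g : Qˣ) : Q) = algebraMap (QR P) Q (em P (up w))}) =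
      Submodule.span ℤ (Set.range fun π => ∑ x ∈ (hfib π).toFinset,
        Finsupp.single x (m x : ℤ)) := by
    rw [Submodule.map_span]
    apply le_antisymm
    · rw [Submodule.span_le]
      rintro _ ⟨g, ⟨w, hw, hg⟩, rfl⟩
      have e : g = Additive.ofMul (q w hw) := by
        have : Additive.toMul g = q w hw := Units.ext (by rw [hg, hq])
        rw [← this]
        rfl
      rw [e]
      clear e hg g
      rw [SetLike.mem_coe]
      induction w using UniqueFactorizationMonoid.induction_on_prime with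
      | h₁ => exact absurd rfl hw
      | h₂ x hx =>
        rw [hunit x hw hx]
        exact Submodule.zero_mem _
      | h₃ a p ha hp ih =>
        have hp0 : p ≠ 0 := hp.ne_zero
        have hl : C p.leadingCoeff ≠ (0 : L[X]) := C_ne_zero.mpr (leadingCoeff_ne_zero.mpr hp0)
        have hmon := monic_mul_leadingCoeff_inv hp0
        have e1 : p = (p * C p.leadingCoeff⁻¹) * C p.leadingCoeff := by
          rw [mul_assoc, ← C_mul, inv_mul_cancel₀ (leadingCoeff_ne_zero.mpr hp0), C_1, mul_one]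
        have e2 : q (p * a) hw = q (p * C p.leadingCoeff⁻¹) hmon.ne_zero *
            q (C p.leadingCoeff) hl * q a ha := by
          rw [← hqm, ← hqm]
          congr 1
          rw [← e1]
        rw [e2, ofMul_mul, ofMul_mul, map_add, map_add, hunit (C p.leadingCoeff) hl
          (isUnit_C.mpr (IsUnit.mk0 _ (leadingCoeff_ne_zero.mpr hp0))), add_zero]
        refine Submodule.add_mem _ ?_ (ih ha)
        have h3 := hirr ⟨p * C p.leadingCoeff⁻¹, hmon,
          (irreducible_mul_leadingCoeff_inv).mpr hp.irreducible⟩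
        rw [h3]
        exact Submodule.subset_span ⟨_, rfl⟩
    · rw [Submodule.span_le]
      rintro _ ⟨π, rfl⟩
      beta_reduce
      rw [← hirr π]
      exact Submodule.subset_span ⟨_, ⟨π.1, π.2.1.ne_zero, hq _ _⟩, rfl⟩
  have hvg := vert_group f m hm0 hfib {π | π.1 ∈ vSet P} hfinS
    (fun π hπ => by
      obtain ⟨x, h⟩ := hS1 π hπ
      rw [h, Set.ncard_singleton])
    (fun π hπ => by
      obtain ⟨x, y, hxy, h⟩ := hS2 π hπ
      rw [h, Set.ncard_pair hxy]) hmfin
  rw [hcard] at hvg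
  refine ⟨hβ, ?_⟩
  rw [hmap]
  exact hvg

/-- `π` splits over `L(t)` iff it is in `splitSet` (compare `Split.dvd_quad`; a square root in
`κ(t)`, `κ = L[x]/(π)`, of a polynomial of degree `≤ 2` in `t` is a polynomial `β t + γ`) -/
theorem vSet_toK (a b c : L[X]) : vSet (toK L (quad a b c)) = splitSet a b c := by
  ext π
  refine and_congr_right fun _ => and_congr_right fun hi => ?_
  rw [up_dvd_toK hi, dvd_quad_iff_common, up_sq_toK hi, sq_quad_iff_split hi]

/-- the same for the conic: `toW` exchanges the variables, `em (C τ) ↦ up τ`; a square root in `κ(x)`,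
`κ = L[t]/(τ)`, of a polynomial is a polynomial -/
theorem vSet_toW (a b c : L[X]) : vSet (toW L (quad a b c)) = memSet (quad a b c) := by
  ext τ
  refine and_congr_right fun _ => and_congr_right fun hi => ?_
  rw [up_dvd_toW hi, up_sq_toW hi]
  simp only [dvd_sub_comm]

omit [CharZero L] in
private theorem ms_zero {τ : L[X]} {G : L[X][X]} : C τ ∣ G ↔ G.map (AdjoinRoot.mk τ) = 0 := by
  rw [C_dvd_iff_dvd_coeff, Polynomial.ext_iff]
  simp only [coeff_map, coeff_zero, AdjoinRoot.mk_eq_zero]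

omit [CharZero L] in
private theorem ms_finite {d : L[X]} (hd : d ≠ 0) :
    {τ : L[X] | τ.Monic ∧ Irreducible τ ∧ τ ∣ d}.Finite := by
  classical
  refine (UniqueFactorizationMonoid.normalizedFactors d).toFinset.finite_toSet.subset ?_
  rintro τ ⟨h1, h2, h3⟩
  rw [Finset.mem_coe, Multiset.mem_toFinset,
    UniqueFactorizationMonoid.mem_normalizedFactors_iff' hd]
  exact ⟨h2, h1.normalize_eq_self, h3⟩

omit [CharZero L] in
private theorem ms_clear (u : (RatFunc L)[X]) :
    ∃ (U : L[X][X]) (r : L[X]), r ≠ 0 ∧ toK L U = toK L (C r) * u := by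
  obtain ⟨r, hr, e⟩ := IsLocalization.integerNormalization_spec (nonZeroDivisors L[X]) u
  refine ⟨_, r, nonZeroDivisors.ne_zero hr, Eq.trans e ?_⟩
  rw [Algebra.smul_def]
  simp only [coe_mapRingHom, map_C]
  rfl

/-- the relation between `F` and its derivative -/
private theorem ms_bezout {F : L[X][X]} (h : Squarefree (toK L F)) :
    ∃ (U V : L[X][X]) (r : L[X]), r ≠ 0 ∧ U * F + V * derivative F = C r := by
  have : CharZero (RatFunc L) := charZero_of_injective_algebraMap
    (algebraMap L (RatFunc L)).injective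
  have hs : (toK L F).Separable := PerfectField.separable_iff_squarefree.2 h
  obtain ⟨u, v, huv⟩ := hs
  obtain ⟨U, r, hr, hU⟩ := ms_clear u
  obtain ⟨V, r', hr', hV⟩ := ms_clear v
  refine ⟨C r' * U, C r * V, r * r', mul_ne_zero hr hr', ?_⟩
  apply toK_injective
  have hd : toK L (derivative F) = derivative (toK L F) := by
    rw [coe_mapRingHom, derivative_map]
  rw [map_add, map_mul, map_mul, map_mul, map_mul, hU, hV, hd, C_mul, map_mul]
  calc toK L (C r') * (toK L (C r) * u) * toK L F + toK L (C r) * (toK L (C r') * v) *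
        derivative (toK L F) =
      toK L (C r) * toK L (C r') * (u * toK L F + v * derivative (toK L F)) := by ring
    _ = _ := by rw [huv, mul_one]

private theorem ms_dvd {F U V : L[X][X]} {r : L[X]} (h : U * F + V * derivative F = C r)
    (hpos : 0 < F.natDegree) {τ : L[X]} (hi : Irreducible τ) (hs : ∃ s : L[X][X], C τ ∣ F - s ^ 2) :
    τ ∣ r * F.leadingCoeff := by
  by_contra hnd
  have hfact : Fact (Irreducible τ) := ⟨hi⟩
  obtain ⟨s, hs⟩ := hs
  rw [ms_zero, Polynomial.map_sub, Polynomial.map_pow, sub_eq_zero] at hs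
  obtain ⟨S, hS⟩ : ∃ S, S = s.map (AdjoinRoot.mk τ) := ⟨_, rfl⟩
  rw [← hS] at hs
  have hr : AdjoinRoot.mk τ r ≠ 0 := by
    rw [Ne, AdjoinRoot.mk_eq_zero]
    exact fun h1 => hnd (h1.mul_right _)
  have hl : AdjoinRoot.mk τ F.leadingCoeff ≠ 0 := by
    rw [Ne, AdjoinRoot.mk_eq_zero]
    exact fun h1 => hnd (h1.mul_left _)
  have h1 := congrArg (Polynomial.map (AdjoinRoot.mk τ)) h
  rw [Polynomial.map_add, Polynomial.map_mul, Polynomial.map_mul, ← derivative_map, hs,
    Polynomial.map_C] at h1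
  have h2 : S ∣ C (AdjoinRoot.mk τ r) := by
    rw [← h1]
    refine dvd_add (Dvd.dvd.mul_left (dvd_pow_self _ two_ne_zero) _) (Dvd.dvd.mul_left ?_ _)
    rw [derivative_pow]
    refine Dvd.dvd.mul_right (Dvd.dvd.mul_left ?_ _) _
    norm_num
  have h3 : IsUnit S := isUnit_of_dvd_unit h2 (isUnit_C.2 (IsUnit.mk0 _ hr))
  have h4 : IsUnit (F.map (AdjoinRoot.mk τ)) := by
    rw [hs]
    exact h3.pow 2
  have h5 := natDegree_eq_zero_of_isUnit h4
  rw [natDegree_map_of_leadingCoeff_ne_zero _ hl] at h5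
  omega

/-- Proof: over `L(t)` the polynomial `F` is squarefree (`toK_squarefree`), so separable:
`u F + v F' = r(t) ≠ 0` with `u, v ∈ L[t][x]`. If `τ ∈ memSet F`, `F ≡ s²` modulo `τ`, and `τ` does not
divide the leading coefficient of `F` in `x`, then `s` has positive degree in `x` and divides `F` and
`F'` modulo `τ`, so `r ≡ 0`, `τ ∣ r`. So all `τ ∈ memSet F` divide `r` times the leading
coefficient. -/
theorem memSet_finite {a b c : L[X]} (h : Base2 a b c) (hpos : 0 < (quad a b c).natDegree) :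
    (memSet (quad a b c)).Finite := by
  obtain ⟨U, V, r, hr, hb⟩ := ms_bezout (toK_squarefree h)
  have hF : quad a b c ≠ 0 := by
    intro h0
    rw [h0, natDegree_zero] at hpos
    exact lt_irrefl _ hpos
  refine (ms_finite (mul_ne_zero hr (leadingCoeff_ne_zero.2 hF))).subset ?_
  rintro τ ⟨h1, h2, -, h4⟩
  exact ⟨h1, h2, ms_dvd hb hpos h2 h4⟩

end Pool.Agent.Lib.MP_1a0ddd_nt.Hyp
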