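import Pool.Agent.Lib.MP_1a0ddd_nt.Hyp.RemL
import Pool.Agent.Lib.MP_1a0ddd_nt.Hyp.QRv

/-! From a family to a pencil with factored discriminant, and the limit. -/

set_option autoImplicit false

namespace Pool.Agent.Lib.MP_1a0ddd_nt.Hyp

open Polynomial Quad Filter Topology LW

/-- the factorization of the discriminant -/
structure Pen {R : Type} [CommRing R] [IsDomain R] {m : ℕ} (a b c : R[X]) (π : Fin m → R[X])
    (k : Fin m → ℕ) (δ : R) : Prop where
  disc : b ^ 2 - a * c = C δ * ∏ i, π i ^ k i
  ne : δ ≠ 0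
  pos : ∀ i, k i ≠ 0
  monic : ∀ i, (π i).Monic
  irr : ∀ i, Irreducible (toF (π i))
  inj : Function.Injective π

/-- factorization over a field into powers of monic irreducible polynomials -/
private theorem exists_factP {K : Type} [Field K] {f : K[X]} (hf : f ≠ 0) :
    ∃ (m : ℕ) (p : Fin m → K[X]) (k : Fin m → ℕ) (δ : K), δ ≠ 0 ∧ (∀ i, k i ≠ 0) ∧
      (∀ i, (p i).Monic) ∧ (∀ i, Irreducible (p i)) ∧ Function.Injective p ∧
      f = C δ * ∏ i, p i ^ k i := by
  classical
  let F := UniqueFactorizationMonoid.normalizedFactors f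
  have h1 : Associated F.prod f := UniqueFactorizationMonoid.prod_normalizedFactors hf
  obtain ⟨u, hu⟩ := h1
  obtain ⟨δ, hδ, hδu⟩ := Polynomial.isUnit_iff.1 u.isUnit
  let e : Fin F.toFinset.card ≃ F.toFinset := F.toFinset.equivFin.symm
  have hirr : ∀ p ∈ F, Irreducible p := fun p hp =>
    UniqueFactorizationMonoid.irreducible_of_normalized_factor p hp
  refine ⟨F.toFinset.card, fun i => (e i : K[X]), fun i => F.count (e i : K[X]), δ,
    hδ.ne_zero, ?_, ?_, ?_, ?_, ?_⟩
  · intro i
    exact (Multiset.count_pos.2 (Multiset.mem_toFinset.1 (e i).2)).ne'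
  · intro i
    have hi := Multiset.mem_toFinset.1 (e i).2
    exact (normalize_eq_self_iff_monic (hirr _ hi).ne_zero).1
      (UniqueFactorizationMonoid.normalize_normalized_factor _ hi)
  · intro i
    exact hirr _ (Multiset.mem_toFinset.1 (e i).2)
  · intro i j hij
    exact e.injective (Subtype.ext hij)
  · have h2 : ∏ i, (e i : K[X]) ^ F.count (e i : K[X]) = F.prod := by
      rw [Finset.prod_multiset_count,
        e.prod_comp (fun x : F.toFinset => (x : K[X]) ^ F.count (x : K[X])),
        Finset.prod_coe_sort F.toFinset (fun x : K[X] => x ^ F.count x)]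
    rw [h2, hδu, mul_comm]
    exact hu.symm

/-- if `e` becomes a square in the fraction field of `R[x]/(π)` then `e` is a square modulo `π` over
the fraction field of `R` -/
private theorem sq_modP {R : Type} [CommRing R] [IsDomain R] (π e : R[X]) (hm : π.Monic)
    (hi : Irreducible (toF π)) [IsDomain (AdjoinRoot π)]
    (h : IsSquare (algebraMap (AdjoinRoot π) (FractionRing (AdjoinRoot π))
      (AdjoinRoot.mk π e))) : ∃ β : (FractionRing R)[X], toF π ∣ toF e - β ^ 2 := by
  classical
  have hfact : Fact (Irreducible (toF π)) := ⟨hi⟩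
  have hroot : π.eval₂ ((AdjoinRoot.of (toF π)).comp (algebraMap R (FractionRing R)))
      (AdjoinRoot.root (toF π)) = 0 := by
    rw [← eval₂_map]
    exact AdjoinRoot.eval₂_root (toF π)
  let ι : AdjoinRoot π →+* AdjoinRoot (toF π) :=
    AdjoinRoot.lift ((AdjoinRoot.of (toF π)).comp (algebraMap R (FractionRing R)))
      (AdjoinRoot.root (toF π)) hroot
  have hι : ∀ f : R[X], ι (AdjoinRoot.mk π f) = AdjoinRoot.mk (toF π) (toF f) := by
    intro f
    show AdjoinRoot.lift _ _ hroot (AdjoinRoot.mk π f) = _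
    rw [AdjoinRoot.lift_mk, ← eval₂_map, ← AdjoinRoot.aeval_eq, aeval_def,
      AdjoinRoot.algebraMap_eq]
  have hιi : Function.Injective ι := by
    rw [injective_iff_map_eq_zero]
    intro z hz
    obtain ⟨f, rfl⟩ := AdjoinRoot.mk_surjective z
    rw [hι, AdjoinRoot.mk_eq_zero] at hz
    rw [AdjoinRoot.mk_eq_zero]
    exact (Polynomial.map_dvd_map _ (IsFractionRing.injective R (FractionRing R)) hm).1 hz
  let ψ : FractionRing (AdjoinRoot π) →+* AdjoinRoot (toF π) := IsFractionRing.lift hιi
  have hψ : ∀ z, ψ (algebraMap (AdjoinRoot π) (FractionRing (AdjoinRoot π)) z) = ι z :=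
    fun z => IsFractionRing.lift_algebraMap hιi z
  obtain ⟨w, hw⟩ := h
  obtain ⟨β, hβ⟩ := AdjoinRoot.mk_surjective (ψ w)
  refine ⟨β, ?_⟩
  rw [← AdjoinRoot.mk_eq_zero, map_sub, map_pow, hβ, ← hι, ← hψ, hw, map_mul]
  ring

/-- `β² ≡ a`, `b² ≡ a c`, `a ≢ 0` give the second factor -/
private theorem second_factorP {K : Type} [Field K] {π a b c β : K[X]} (hi : Irreducible π)
    (h1 : π ∣ a - β ^ 2) (h2 : π ∣ b ^ 2 - a * c) (h3 : ¬ π ∣ a) :
    ∃ γ : K[X], π ∣ b - β * γ ∧ π ∣ c - γ ^ 2 := by
  have hfact : Fact (Irreducible π) := ⟨hi⟩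
  have e1 : AdjoinRoot.mk π a = AdjoinRoot.mk π β ^ 2 := by
    rw [← AdjoinRoot.mk_eq_zero, map_sub, map_pow, sub_eq_zero] at h1
    exact h1
  have e2 : AdjoinRoot.mk π b ^ 2 = AdjoinRoot.mk π a * AdjoinRoot.mk π c := by
    rw [← AdjoinRoot.mk_eq_zero, map_sub, map_pow, map_mul, sub_eq_zero] at h2
    exact h2
  have e3 : AdjoinRoot.mk π a ≠ 0 := by
    rwa [Ne, AdjoinRoot.mk_eq_zero]
  have e4 : AdjoinRoot.mk π β ≠ 0 := by
    intro h
    rw [e1, h] at e3
    exact e3 (by ring)
  obtain ⟨γ, hγ⟩ := AdjoinRoot.mk_surjective (AdjoinRoot.mk π b / AdjoinRoot.mk π β)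
  refine ⟨γ, ?_, ?_⟩
  · rw [← AdjoinRoot.mk_eq_zero, map_sub, map_mul, hγ]
    field_simp
    ring
  · rw [← AdjoinRoot.mk_eq_zero, map_sub, map_pow, hγ, div_pow, e2, e1]
    field_simp
    ring

/-- as `exists_pencil` in `LW/QRed.lean` (copy of the proof, without the conditions on members) -/
theorem exists_pen (R : Type) [CommRing R] [IsDomain R] [CharZero R] (a b c : R[X])
    (h : b ^ 2 ≠ a * c) : ∃ s : R, s ≠ 0 ∧ ∃ (_ : IsDomain (Localization.Away s)) (m : ℕ)
      (π : Fin m → (Localization.Away s)[X]) (k : Fin m → ℕ) (δ : Localization.Away s),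
      Pen (toL s a) (toL s b) (toL s c) π k δ := by
  classical
  have hΔ : toF b ^ 2 - toF a * toF c ≠ 0 := by
    intro h0
    apply h
    apply map_injective _ (IsFractionRing.injective R (FractionRing R))
    rw [Polynomial.map_pow, Polynomial.map_mul]
    exact sub_eq_zero.1 h0
  obtain ⟨m, p, k, δK, hδ, hk, hmon, hirr, hinj, hfac⟩ := exists_factP hΔ
  let Z : Finset (FractionRing R) := insert δK (Finset.univ.biUnion fun i => (p i).coeffs)
  obtain ⟨s, hs⟩ := IsLocalization.exist_integer_multiples_of_finset (nonZeroDivisors R) Z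
  have hs0 : (s : R) ≠ 0 := nonZeroDivisors.ne_zero s.2
  have hsK : algebraMap R (FractionRing R) s ≠ 0 := by
    rw [Ne, IsFractionRing.to_map_eq_zero_iff]
    exact hs0
  have hle : Submonoid.powers (s : R) ≤ nonZeroDivisors R :=
    powers_le_nonZeroDivisors_of_noZeroDivisors hs0
  have hdom : IsDomain (Localization.Away (s : R)) := IsLocalization.isDomain_localization hle
  refine ⟨s, hs0, hdom, m, ?_⟩
  obtain ⟨ψ, hψ⟩ : ∃ ψ : Localization.Away (s : R) →+* FractionRing R,
      ∀ r, ψ (algebraMap R (Localization.Away (s : R)) r) = algebraMap R (FractionRing R) r :=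
    ⟨IsLocalization.Away.lift (S := Localization.Away (s : R)) (s : R)
      (g := algebraMap R (FractionRing R)) (IsUnit.mk0 _ hsK),
      fun r => IsLocalization.Away.lift_eq (s : R) _ r⟩
  let _ : Algebra (Localization.Away (s : R)) (FractionRing R) := ψ.toAlgebra
  have tow : IsScalarTower R (Localization.Away (s : R)) (FractionRing R) :=
    IsScalarTower.of_algebraMap_eq fun r => (hψ r).symm
  have hfr : IsFractionRing (Localization.Away (s : R)) (FractionRing R) :=
    IsFractionRing.isFractionRing_of_isDomain_of_isLocalization (Submonoid.powers (s : R))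
      (Localization.Away (s : R)) (FractionRing R)
  have hψi : Function.Injective ψ :=
    IsFractionRing.injective (Localization.Away (s : R)) (FractionRing R)
  let e : FractionRing (Localization.Away (s : R)) ≃+* FractionRing R :=
    (FractionRing.algEquiv (Localization.Away (s : R)) (FractionRing R)).toRingEquiv
  have he : ∀ x, e (algebraMap (Localization.Away (s : R)) _ x) = ψ x := fun x =>
    (FractionRing.algEquiv (Localization.Away (s : R)) (FractionRing R)).commutes x
  have hrange : ∀ z ∈ Z, ∃ x, ψ x = z := by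
    intro z hz
    obtain ⟨r, hr⟩ := hs z hz
    refine ⟨algebraMap R _ r * IsLocalization.Away.invSelf (S := Localization.Away (s : R))
      (s : R), ?_⟩
    apply mul_right_cancel₀ hsK
    rw [← hψ (s : R), ← map_mul, mul_assoc, mul_comm (IsLocalization.Away.invSelf (s : R)),
      IsLocalization.Away.mul_invSelf, mul_one, hψ, hr, hψ, Algebra.smul_def, mul_comm]
  have hδA : ∃ δ, ψ δ = δK := hrange _ (Finset.mem_insert_self _ _)
  obtain ⟨δ, hδe⟩ := hδA
  have hlift : ∀ i, ∃ q : (Localization.Away (s : R))[X], q.map ψ = p i ∧ q.Monic := by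
    intro i
    have h1 : p i ∈ lifts ψ := by
      rw [lifts_iff_coeff_lifts]
      intro n
      by_cases hn : (p i).coeff n = 0
      · exact ⟨0, by rw [map_zero, hn]⟩
      · exact hrange _ (Finset.mem_insert_of_mem
          (Finset.mem_biUnion.2 ⟨i, Finset.mem_univ _, coeff_mem_coeffs hn⟩))
    obtain ⟨q, hq1, -, hq2⟩ := lifts_and_natDegree_eq_and_monic h1 (hmon i)
    exact ⟨q, hq1, hq2⟩
  choose q hq1 hq2 using hlift
  have htoL : ∀ f : R[X], (f.map (algebraMap R (Localization.Away (s : R)))).map ψ = toF f := by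
    intro f
    unfold toF
    rw [Polynomial.map_map]
    congr 1
    ext r
    exact hψ r
  refine ⟨q, k, δ, ?_, ?_, hk, hq2, ?_, ?_⟩
  · apply map_injective ψ hψi
    rw [Polynomial.map_sub, Polynomial.map_pow, Polynomial.map_mul, htoL, htoL, htoL, hfac,
      Polynomial.map_mul, map_C, hδe, Polynomial.map_prod]
    congr 1
    refine Finset.prod_congr rfl fun i _ => ?_
    rw [Polynomial.map_pow, hq1]
  · rintro rfl
    exact hδ (by rw [← hδe, map_zero])
  · intro i
    have h1 : (toF (q i)).map (e : FractionRing (Localization.Away (s : R)) →+* FractionRing R) =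
        p i := by
      rw [← hq1 i]
      unfold toF
      rw [Polynomial.map_map]
      congr 1
      ext x
      exact he x
    have h2 : Irreducible (mapEquiv e (toF (q i))) := by
      have h3 : mapEquiv e (toF (q i)) = p i := by
        rw [← h1]
        rfl
      rw [h3]
      exact hirr i
    exact (MulEquiv.irreducible_iff (mapEquiv e)).1 h2
  · intro i j hij
    apply hinj
    rw [← hq1, ← hq1, hij]

/-- as `counted_of` in `LW/QCou.lean` (copy of the proof) -/
theorem counted_pen (R : Type) [CommRing R] [IsDomain R] [CharZero R] [Algebra.FiniteType ℤ R]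
    (d : ℕ) (hd : Algebra.trdeg ℤ R = (d : Cardinal)) {m : ℕ} (a b c : R[X])
    (π : Fin m → R[X]) (k : Fin m → ℕ) (δ : R) (h : Pen a b c π k δ) :
    Counted a b c π d := by
  classical
  have hinj : Function.Injective (algebraMap R (FractionRing R)) :=
    IsFractionRing.injective R (FractionRing R)
  have hdvd : ∀ i (f : R[X]), toF (π i) ∣ toF f ↔ π i ∣ f := fun i f =>
    Polynomial.map_dvd_map _ hinj (h.monic i)
  have hdisc : ∀ i, toF (π i) ∣ toF b ^ 2 - toF a * toF c := by
    intro i
    have h1 : π i ∣ b ^ 2 - a * c := by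
      rw [h.disc]
      refine Dvd.dvd.mul_left ?_ _
      exact (dvd_pow_self (π i) (h.pos i)).trans
        (Finset.dvd_prod_of_mem (fun i => π i ^ k i) (Finset.mem_univ i))
    have h2 := (hdvd i _).2 h1
    simpa only [toF, Polynomial.map_sub, Polynomial.map_pow, Polynomial.map_mul] using h2
  refine ⟨langWeil R d hd, ?_, ?_, ?_⟩
  · intro i
    right
    obtain ⟨f1, f2, f3, f4⟩ := adjoin_facts R (π i) (h.monic i) (h.irr i)
    exact @langWeil (AdjoinRoot (π i)) _ f1 f2 f3 d (f4.trans hd)
  · intro i
    by_cases hcom : Common a b c (π i)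
    · exact Or.inl hcom
    right
    by_cases hsp : toF (π i) ∈ splitSet (toF a) (toF b) (toF c)
    · exact Or.inl hsp
    right
    obtain ⟨f1, f2, f3, f4⟩ := adjoin_facts R (π i) (h.monic i) (h.irr i)
    have hncom : ¬ Common (toF a) (toF b) (toF c) (toF (π i)) := by
      intro hc
      exact hcom ⟨(hdvd i a).1 hc.1, (hdvd i b).1 hc.2.1, (hdvd i c).1 hc.2.2⟩
    have hnot : ∀ β γ : (FractionRing R)[X], ¬ Split (toF a) (toF b) (toF c) (toF (π i)) β γ := by
      intro β γ hS
      exact hsp ⟨(h.monic i).map _, h.irr i, hncom, β, γ, hS⟩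
    have hprime : Prime (toF (π i)) := (h.irr i).prime
    by_cases ha : π i ∣ a
    · have hc : ¬ π i ∣ c := by
        intro hc
        have h1 : toF (π i) ∣ toF b ^ 2 := by
          have h2 := hdisc i
          have h3 : toF (π i) ∣ toF a * toF c := ((hdvd i a).2 ha).mul_right _
          have h4 := dvd_add h2 h3
          rwa [sub_add_cancel] at h4
        exact hcom ⟨ha, (hdvd i b).1 (hprime.dvd_of_dvd_pow h1), hc⟩
      refine ⟨c, Or.inr rfl, hc, ?_⟩
      refine @langWeil_sqrt (AdjoinRoot (π i)) _ f1 f2 f3 d (f4.trans hd) _ ?_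
      intro hsq
      obtain ⟨γ, hγ⟩ := sq_modP (π i) c (h.monic i) (h.irr i) hsq
      have h2 : toF (π i) ∣ toF b ^ 2 - toF c * toF a := by
        rw [mul_comm (toF c)]
        exact hdisc i
      obtain ⟨β, hβ1, hβ2⟩ := second_factorP (h.irr i) hγ h2
        (fun hh => hc ((hdvd i c).1 hh))
      refine hnot β γ ⟨hβ2, ?_, hγ⟩
      rw [mul_comm]
      exact hβ1
    · refine ⟨a, Or.inl rfl, ha, ?_⟩
      refine @langWeil_sqrt (AdjoinRoot (π i)) _ f1 f2 f3 d (f4.trans hd) _ ?_
      intro hsq
      obtain ⟨β, hβ⟩ := sq_modP (π i) a (h.monic i) (h.irr i) hsq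
      obtain ⟨γ, hγ1, hγ2⟩ := second_factorP (h.irr i) hβ (hdisc i)
        (fun hh => ha ((hdvd i a).1 hh))
      exact hnot β γ ⟨hβ, hγ1, hγ2⟩
  · by_cases h1 : IsSquare (toF a)
    · exact Or.inl h1
    right
    by_cases h2 : NotConstSquare a
    · exact Or.inl h2
    right
    unfold NotConstSquare at h2
    push Not at h2
    obtain ⟨v, s, hvs⟩ := h2
    obtain ⟨r, q, hq, rfl⟩ := IsFractionRing.div_surjective (A := R) v
    have hq0 : algebraMap R (FractionRing R) q ≠ 0 := by
      rw [Ne, IsFractionRing.to_map_eq_zero_iff]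
      exact nonZeroDivisors.ne_zero hq
    have h3 : toF a = C (algebraMap R (FractionRing R) (r * q)) *
        (C (1 / algebraMap R (FractionRing R) q) * s) ^ 2 := by
      have h4 : (C (algebraMap R (FractionRing R) r / algebraMap R (FractionRing R) q) :
          (FractionRing R)[X]) = C (algebraMap R (FractionRing R) (r * q)) *
            C (1 / algebraMap R (FractionRing R) q) ^ 2 := by
        rw [← C_pow, ← C_mul, map_mul (algebraMap R (FractionRing R))]
        congr 1
        field_simp
      rw [hvs, h4]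
      ring
    refine ⟨r * q, C (1 / algebraMap R (FractionRing R) q) * s, h3, ?_⟩
    apply langWeil_sqrt R d hd
    rintro ⟨w, hw⟩
    apply h1
    refine ⟨C w * (C (1 / algebraMap R (FractionRing R) q) * s), ?_⟩
    rw [h3, hw, C_mul]
    ring

/-- the irreducible factors of the discriminant -/
private theorem factor5 {R : Type} [CommRing R] [IsDomain R] {a b c : R[X]} {m : ℕ}
    {π : Fin m → R[X]} {k : Fin m → ℕ} {δ : R} (h : Pen a b c π k δ) {q : (FractionRing R)[X]}
    (hq : Irreducible q) (hd : q ∣ toF b ^ 2 - toF a * toF c) :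
    ∃ i, Associated q (toF (π i)) := by
  have h1 : toF b ^ 2 - toF a * toF c =
      C (algebraMap R (FractionRing R) δ) * ∏ i, toF (π i) ^ k i := by
    have := congrArg toF h.disc
    simpa [toF, Polynomial.map_sub, Polynomial.map_mul, Polynomial.map_pow,
      Polynomial.map_prod] using this
  have h2 : IsUnit (C (algebraMap R (FractionRing R) δ)) := by
    apply isUnit_C.mpr
    apply IsUnit.mk0
    rw [Ne, IsFractionRing.to_map_eq_zero_iff]
    exact h.ne
  rw [h1] at hd
  have h5 : q ∣ ∏ i, toF (π i) ^ k i := by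
    rcases hq.prime.dvd_or_dvd hd with h' | h'
    · exfalso
      exact hq.not_isUnit (isUnit_of_dvd_unit h' h2)
    · exact h'
  obtain ⟨i, -, hi⟩ := (hq.prime.dvd_finsetProd_iff _).mp h5
  exact ⟨i, hq.associated_of_dvd (h.irr i) (hq.prime.dvd_of_dvd_pow hi)⟩

private theorem split_card {R : Type} [CommRing R] [IsDomain R] {a b c : R[X]} {m : ℕ}
    {π : Fin m → R[X]} {k : Fin m → ℕ} {δ : R} (h : Pen a b c π k δ) (S : Finset (Fin m))
    (hS : ∀ i, i ∈ S ↔ toF (π i) ∈ splitSet (toF a) (toF b) (toF c)) :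
    (splitSet (toF a) (toF b) (toF c)).ncard = S.card := by
  classical
  have h1 : splitSet (toF a) (toF b) (toF c) = (fun i => toF (π i)) '' (S : Set (Fin m)) := by
    ext q
    constructor
    · intro hq
      obtain ⟨i, rfl⟩ : ∃ i, q = toF (π i) := by
        obtain ⟨h1, h2, -, β, γ, h3⟩ := hq
        obtain ⟨i, hi⟩ := factor5 h h2 h3.dvd_disc
        exact ⟨i, eq_of_monic_of_associated h1 ((h.monic i).map _) hi⟩
      exact ⟨i, (hS i).mpr hq, rfl⟩
    · rintro ⟨i, hi, rfl⟩
      exact (hS i).mp hi
  rw [h1, Set.ncard_image_of_injective, Set.ncard_coe_finset]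
  intro i j hij
  exact h.inj (toF_inj hij)

open Classical in
/-- the full sums: `nagao_T4` and `inf_mean` as in `quad_limit4` of `Quad/Final4.lean` -/
theorem pen_full (R : Type) [CommRing R] [IsDomain R] [CharZero R] [Algebra.FiniteType ℤ R]
    (d : ℕ) (hd : Algebra.trdeg ℤ R = (d : Cardinal)) {m : ℕ} (a b c : R[X])
    (π : Fin m → R[X]) (k : Fin m → ℕ) (δ : R) (h : Pen a b c π k δ) :
    ∃ D₀ : R, D₀ ≠ 0 ∧ (∀ D : R, D ≠ 0 → D₀ ∣ D →
      TauMean (fun p => nagaoAvg2 a b c D d p)
        ((if toF a ≠ 0 ∧ IsSquare (toF a) then (1 : ℝ) else 0) -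
          (splitSet (toF a) (toF b) (toF c)).ncard)) ∧
      ∃ (K : ℝ) (p₀ : ℕ), ∀ p : ℕ, p₀ ≤ p → p.Prime → ∀ z : R →+* ZMod p, z D₀ ≠ 0 →
        |∑ᶠ t : ZMod p, (frobTrace2 a b c p z t : ℝ)| ≤ K * p := by
  have hc := counted_pen R d hd a b c π k δ h
  set S : Finset (Fin m) := Finset.univ.filter
    fun i => toF (π i) ∈ splitSet (toF a) (toF b) (toF c) with hSdef
  have hS : ∀ i, i ∈ S ↔ toF (π i) ∈ splitSet (toF a) (toF b) (toF c) := by
    intro i
    simp [hSdef]
  obtain ⟨E, hE, hinf⟩ := inf_mean R d hc.base a hc.infty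
  obtain ⟨D₀, hD₀, h1, h2⟩ := nagao_T4 R d a b c π k δ h.disc h.pos h.ne h.monic
    h.irr h.inj _ E hE hinf hc.factor S hS (fun i => by
      rcases hc.cover i with h' | h' | h'
      · exact Or.inl h'
      · exact Or.inr (Or.inl ((hS i).mpr h'))
      · exact Or.inr (Or.inr h'))
  refine ⟨D₀, hD₀, ?_, h2⟩
  rw [split_card h S hS]
  exact h1

/-- a polynomial over the fraction field divides one over `R` -/
private theorem clear_toF {R : Type} [CommRing R] [IsDomain R] {P : (FractionRing R)[X]}
    (hP : P ≠ 0) : ∃ M : R[X], M ≠ 0 ∧ P ∣ toF M := by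
  obtain ⟨r, -, hr⟩ := IsLocalization.integerNormalization_spec (nonZeroDivisors R) P
  refine ⟨IsLocalization.integerNormalization (nonZeroDivisors R) P, ?_, ?_⟩
  · intro h
    exact hP ((IsFractionRing.integerNormalization_eq_zero_iff).1 h)
  · rw [toF, hr, Algebra.smul_def]
    exact dvd_mul_left _ _

/-- the limit for a pencil: `D₀` of the theorem is `C D₀` of `pen_full` times a polynomial `M ≠ 0` over
`R` divisible (over the fraction field) by all elements of `memSet`; `rem_limit`, `open_limit5` -/
theorem pen_nagao (R : Type) [CommRing R] [IsDomain R] [CharZero R] [Algebra.FiniteType ℤ R]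
    (d : ℕ) (hd : Algebra.trdeg ℤ R = (d : Cardinal)) {m : ℕ} (a b c : R[X])
    (π : Fin m → R[X]) (k : Fin m → ℕ) (δ : R) (h : Pen a b c π k δ)
    (hfin : (memSet (quad (toF a) (toF b) (toF c))).Finite) :
    Hyp.NagaoLimit (quad a b c) (d + 1) (famRank (toF a) (toF b) (toF c)) := by
  classical
  obtain ⟨D₀, hD₀, h1, h2⟩ := pen_full R d hd a b c π k δ h
  have hc := counted_pen R d hd a b c π k δ h
  have hP : (∏ q ∈ hfin.toFinset, q) ≠ 0 := by
    refine Finset.prod_ne_zero_iff.2 fun q hq => ?_
    exact ((hfin.mem_toFinset.1 hq).1).ne_zero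
  obtain ⟨M, hM0, hM⟩ := clear_toF hP
  refine ⟨C D₀ * M, mul_ne_zero (fun h => hD₀ (C_eq_zero.1 h)) hM0, fun D hD hdvd => ?_⟩
  have hmem : ∀ q ∈ memSet (quad (toF a) (toF b) (toF c)), q ∣ toF D := by
    intro q hq
    have h3 : q ∣ toF M :=
      (Finset.dvd_prod_of_mem (fun q => q) (hfin.mem_toFinset.2 hq)).trans hM
    exact h3.trans (Polynomial.map_dvd _ ((dvd_mul_left M _).trans hdvd))
  have h3 := rem_limit R d hd a b c D hD hfin hmem
  have h4 := open_limit5 R d hc.base a b c _ _ D₀ hD₀ h1 h2 D hD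
    ((dvd_mul_right _ M).trans hdvd) h3
  have e : (-((famRank (toF a) (toF b) (toF c) : ℤ) : ℝ)) =
      ((if toF a ≠ 0 ∧ IsSquare (toF a) then (1 : ℝ) else 0) -
          (splitSet (toF a) (toF b) (toF c)).ncard) -
        (-((memSet (quad (toF a) (toF b) (toF c))).ncard : ℝ)) := by
    rw [famRank]
    push_cast
    split_ifs <;> ring
  rw [e]
  exact h4

private theorem famRank_eq {L : Type} [Field L] (a b c : L[X]) :
    famRank a b c = pencilRank a b c - (memSet (quad a b c)).ncard := by
  classical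
  unfold famRank pencilRank
  ring

private theorem memSet_equiv {L L' : Type} [Field L] [Field L'] (e : L ≃+* L') (F : L[X][X]) :
    memSet (F.map (mapRingHom (e : L →+* L'))) = (Polynomial.mapEquiv e) '' memSet F := by
  have hE : ∀ G : L[X][X], Polynomial.mapEquiv (Polynomial.mapEquiv e) G =
      G.map (mapRingHom (e : L →+* L')) := fun G => rfl
  have hdvd : ∀ f g : L[X][X], Polynomial.mapEquiv (Polynomial.mapEquiv e) f ∣
      Polynomial.mapEquiv (Polynomial.mapEquiv e) g ↔ f ∣ g :=
    fun f g => map_dvd_iff (Polynomial.mapEquiv (Polynomial.mapEquiv e))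
  have hC : ∀ τ : L[X], (C (Polynomial.mapEquiv e τ) : L'[X][X]) =
      Polynomial.mapEquiv (Polynomial.mapEquiv e) (C τ) := by
    intro τ
    rw [hE, Polynomial.map_C]
    rfl
  rw [← hE]
  ext τ'
  constructor
  · rintro ⟨h1, h2, h3, σ, h4⟩
    obtain ⟨τ, rfl⟩ := (Polynomial.mapEquiv e).surjective τ'
    obtain ⟨σ, rfl⟩ := (Polynomial.mapEquiv (Polynomial.mapEquiv e)).surjective σ
    refine ⟨τ, ⟨?_, ?_, ?_, σ, ?_⟩, rfl⟩
    · exact (Polynomial.monic_map_iff (f := (e : L →+* L'))).1 h1
    · exact (MulEquiv.irreducible_iff (Polynomial.mapEquiv e)).1 h2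
    · rwa [hC, hdvd] at h3
    · rwa [hC, ← map_pow, ← map_sub, hdvd] at h4
  · rintro ⟨τ, ⟨h1, h2, h3, σ, h4⟩, rfl⟩
    refine ⟨h1.map _, (MulEquiv.irreducible_iff (Polynomial.mapEquiv e)).2 h2, ?_,
      Polynomial.mapEquiv (Polynomial.mapEquiv e) σ, ?_⟩
    · rwa [hC, hdvd]
    · rwa [hC, ← map_pow, ← map_sub, hdvd]

/-- as `pencilRank_loc` in `LW/QRed.lean`, with `memSet` (isomorphism of the fraction fields) -/
theorem famRank_loc (R : Type) [CommRing R] [IsDomain R] (s : R) (hs : s ≠ 0)
    [IsDomain (Localization.Away s)] (a b c : R[X]) :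
    famRank (toF (toL s a)) (toF (toL s b)) (toF (toL s c)) = famRank (toF a) (toF b) (toF c) ∧
    ((memSet (quad (toF a) (toF b) (toF c))).Finite →
      (memSet (quad (toF (toL s a)) (toF (toL s b)) (toF (toL s c)))).Finite) := by
  have hu : IsUnit (algebraMap R (FractionRing R) s) := by
    refine IsUnit.mk0 _ fun h => hs ?_
    exact (IsFractionRing.injective R (FractionRing R)) (by rw [h, map_zero])
  let _ : Algebra (Localization.Away s) (FractionRing R) :=
    (IsLocalization.Away.lift s hu).toAlgebra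
  have : IsScalarTower R (Localization.Away s) (FractionRing R) :=
    IsScalarTower.of_algebraMap_eq fun x => (IsLocalization.Away.lift_eq s hu x).symm
  have : IsFractionRing (Localization.Away s) (FractionRing R) :=
    IsFractionRing.isFractionRing_of_isDomain_of_isLocalization (Submonoid.powers s)
      (Localization.Away s) (FractionRing R)
  let e : FractionRing (Localization.Away s) ≃ₐ[Localization.Away s] FractionRing R :=
    FractionRing.algEquiv (Localization.Away s) (FractionRing R)
  have key : ∀ f : R[X], (toF (toL s f)).map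
      ((e : FractionRing (Localization.Away s) ≃+* FractionRing R) :
        FractionRing (Localization.Away s) →+* FractionRing R) = toF f := by
    intro f
    rw [Polynomial.map_map, Polynomial.map_map]
    congr 1
    ext x
    change e (algebraMap (Localization.Away s) (FractionRing (Localization.Away s))
      (algebraMap R (Localization.Away s) x)) = algebraMap R (FractionRing R) x
    rw [AlgEquiv.commutes, ← IsScalarTower.algebraMap_apply]
  have hmem : memSet (quad (toF a) (toF b) (toF c)) =
      (Polynomial.mapEquiv (e : FractionRing (Localization.Away s) ≃+* FractionRing R)) ''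
        memSet (quad (toF (toL s a)) (toF (toL s b)) (toF (toL s c))) := by
    rw [← memSet_equiv, ← quad_map, key, key, key]
  have hinj := (Polynomial.mapEquiv
    (e : FractionRing (Localization.Away s) ≃+* FractionRing R)).injective
  refine ⟨?_, fun hf => ?_⟩
  · have h1 := pencilRank_loc R s hs a b c
    rw [famRank_eq, famRank_eq, h1, hmem, Set.ncard_image_of_injective _ hinj]
  · rw [hmem] at hf
    exact hf.of_finite_image hinj.injOn

private theorem clear_poly {R : Type} [CommRing R] (s : R) (D : (Localization.Away s)[X]) :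
    ∃ (n : ℕ) (r : R[X]), C (algebraMap R (Localization.Away s) s ^ n) * D = toL s r := by
  induction D using Polynomial.induction_on' with
  | add p q hp hq =>
    obtain ⟨n, r, h1⟩ := hp
    obtain ⟨k, t, h2⟩ := hq
    refine ⟨n + k, C (s ^ k) * r + C (s ^ n) * t, ?_⟩
    have h3 : toL s (C (s ^ k) * r + C (s ^ n) * t) =
        C (algebraMap R (Localization.Away s) s ^ k) * toL s r +
          C (algebraMap R (Localization.Away s) s ^ n) * toL s t := by
      simp only [toL, Polynomial.map_add, Polynomial.map_mul, Polynomial.map_pow,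
        Polynomial.map_C, map_pow]
    rw [h3, ← h1, ← h2, pow_add, C_mul]
    ring
  | monomial m x =>
    obtain ⟨n, r, h⟩ := IsLocalization.Away.surj s x
    refine ⟨n, monomial m r, ?_⟩
    rw [toL, Polynomial.map_monomial, C_mul_monomial, mul_comm]
    exact congrArg _ h

private theorem traceAvg_loc5 {R : Type} [CommRing R] (s : R) (a b c : R[X]) (D : R[X])
    (hD : C s ∣ D) (m p : ℕ) (hp : p.Prime) :
    traceAvg (quad (toL s a) (toL s b) (toL s c)) (toL s D) m p = traceAvg (quad a b c) D m p := by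
  have : Fact p.Prime := ⟨hp⟩
  set ψ : R[X] →+* (Localization.Away s)[X] :=
    Polynomial.mapRingHom (algebraMap R (Localization.Away s)) with hψ
  have hψD : ∀ y' : (Localization.Away s)[X] →+* ZMod p, (y'.comp ψ) D = y' (toL s D) :=
    fun y' => rfl
  have hft : ∀ y' : (Localization.Away s)[X] →+* ZMod p,
      fibreTrace (quad (toL s a) (toL s b) (toL s c)) p y' =
        fibreTrace (quad a b c) p (y'.comp ψ) := by
    intro y'
    unfold fibreTrace
    rw [quad_map, Polynomial.map_map]
  unfold traceAvg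
  congr 1
  let g : {y' : (Localization.Away s)[X] →+* ZMod p // y' (toL s D) ≠ 0} →
      {y : R[X] →+* ZMod p // y D ≠ 0} := fun y' => ⟨y'.1.comp ψ, by rw [hψD]; exact y'.2⟩
  refine finsum_eq_of_bijective g ⟨?_, ?_⟩ ?_
  · rintro ⟨y₁, h₁⟩ ⟨y₂, h₂⟩ h
    have h' : y₁.comp ψ = y₂.comp ψ := congrArg Subtype.val h
    apply Subtype.ext
    change y₁ = y₂
    apply Polynomial.ringHom_ext'
    · apply IsLocalization.ringHom_ext (Submonoid.powers s)
      ext x
      have := congrArg (fun f : R[X] →+* ZMod p => f (C x)) h'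
      simpa [hψ] using this
    · have := congrArg (fun f : R[X] →+* ZMod p => f X) h'
      simpa [hψ] using this
  · rintro ⟨y, hy⟩
    have hs : (y.comp C) s ≠ 0 := by
      intro h0
      obtain ⟨E, hE⟩ := hD
      apply hy
      rw [hE, map_mul]
      change (y.comp C) s * y E = 0
      rw [h0, zero_mul]
    have hu : IsUnit ((y.comp C) s) := IsUnit.mk0 _ hs
    let y' : (Localization.Away s)[X] →+* ZMod p :=
      Polynomial.eval₂RingHom (IsLocalization.Away.lift s hu) (y X)
    have hyy : y'.comp ψ = y := by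
      apply Polynomial.ringHom_ext
      · intro x
        change Polynomial.eval₂ (IsLocalization.Away.lift s hu) (y X)
          ((C x : R[X]).map (algebraMap R (Localization.Away s))) = y (C x)
        rw [Polynomial.map_C, Polynomial.eval₂_C, IsLocalization.Away.lift_eq]
        rfl
      · change Polynomial.eval₂ (IsLocalization.Away.lift s hu) (y X)
          ((X : R[X]).map (algebraMap R (Localization.Away s))) = y X
        rw [Polynomial.map_X, Polynomial.eval₂_X]
    refine ⟨⟨y', ?_⟩, Subtype.ext hyy⟩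
    rw [← hψD, hyy]
    exact hy
  · rintro ⟨y', hy'⟩
    rw [hft]

/-- as `nagao_descend` in `LW/QRed.lean`: if `D₀'` is the polynomial over `R[1/s]`, clear denominators
and multiply by `C s` -/
theorem nagao_descend5 (R : Type) [CommRing R] [IsDomain R] (s : R) (hs : s ≠ 0) (a b c : R[X])
    (m : ℕ) (r : ℤ) (h : Hyp.NagaoLimit (quad (toL s a) (toL s b) (toL s c)) m r) :
    Hyp.NagaoLimit (quad a b c) m r := by
  obtain ⟨D₁, hD₁, h⟩ := h
  have hle : Submonoid.powers s ≤ nonZeroDivisors R := powers_le_nonZeroDivisors_of_noZeroDivisors hs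
  have hinj : Function.Injective (algebraMap R (Localization.Away s)) :=
    IsLocalization.injective (Localization.Away s) hle
  obtain ⟨n, r₀, hr⟩ := clear_poly s D₁
  have hsn : IsUnit (algebraMap R (Localization.Away s) s ^ n) :=
    (IsLocalization.Away.algebraMap_isUnit s).pow n
  have hr0 : r₀ ≠ 0 := by
    rintro rfl
    apply hD₁
    have h1 : IsUnit (C (algebraMap R (Localization.Away s) s ^ n) :
      (Localization.Away s)[X]) := isUnit_C.2 hsn
    apply (h1.mul_right_eq_zero).1
    rw [hr, toL, Polynomial.map_zero]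
  have hCs : (C s : R[X]) ≠ 0 := fun h => hs (C_eq_zero.1 h)
  refine ⟨C s * r₀, mul_ne_zero hCs hr0, fun D hD hdvd => ?_⟩
  have hD' : toL s D ≠ 0 := by
    intro h0
    apply hD
    apply Polynomial.map_injective _ hinj
    rw [Polynomial.map_zero]
    exact h0
  have hsD : C s ∣ D := (dvd_mul_right _ _).trans hdvd
  have hdvd' : D₁ ∣ toL s D := by
    obtain ⟨E, hE⟩ := hdvd
    refine ⟨C (algebraMap R (Localization.Away s) s) *
      C (algebraMap R (Localization.Away s) s ^ n) * toL s E, ?_⟩
    rw [hE, toL, Polynomial.map_mul, Polynomial.map_mul, Polynomial.map_C, ← toL, ← toL, ← hr]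
    ring
  have key := h (toL s D) hD' hdvd'
  unfold TauMean at key ⊢
  refine key.congr fun T => ?_
  refine congrArg (fun z : ℝ => z / (T : ℝ)) (Finset.sum_congr rfl fun p hp => ?_)
  rw [traceAvg_loc5 s a b c D hsD m p (Finset.mem_filter.1 hp).2]

/-- the greatest common divisor of `a`, `b`, `c` over the fraction field is squarefree -/
private theorem gcd_fam {R : Type} [CommRing R] [IsDomain R] {a b c : R[X]}
    (h : Hyp.Family a b c) :
    ∃ g u v w : (FractionRing R)[X], u * toF a + v * toF b + w * toF c = g ∧ Squarefree g := by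
  obtain ⟨g, hg⟩ := (IsPrincipalIdealRing.principal (Ideal.span {toF a, toF b, toF c})).principal
  have hg' : Ideal.span {toF a, toF b, toF c} = Ideal.span {g} := hg
  have hmem : ∀ f ∈ ({toF a, toF b, toF c} : Set (FractionRing R)[X]), g ∣ f := by
    intro f hf
    rw [← Ideal.mem_span_singleton, ← hg']
    exact Ideal.subset_span hf
  have ha := hmem (toF a) (by simp)
  have hb := hmem (toF b) (by simp)
  have hc := hmem (toF c) (by simp)
  have h2 : g ∈ Ideal.span {toF a, toF b, toF c} := by
    rw [hg']; exact Ideal.mem_span_singleton_self g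
  rw [Ideal.mem_span_insert] at h2
  obtain ⟨u, z, hz, e⟩ := h2
  rw [Ideal.mem_span_insert] at hz
  obtain ⟨v, z', hz', e'⟩ := hz
  obtain ⟨w, hw⟩ := Ideal.mem_span_singleton'.mp hz'
  refine ⟨g, u, v, w, by rw [e, e', ← hw]; ring, ?_⟩
  intro q hqq
  rw [← pow_two] at hqq
  exact h.sqf q ⟨hqq.trans ha, hqq.trans hb, hqq.trans hc⟩

/-- squarefreeness over all fields containing `R` (the greatest common divisor of `a`, `b`, `c` over
the fraction field is squarefree, so separable; compare `quad_rank4` in `Quad/Final4.lean`) -/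
theorem base_of_family {R : Type} [CommRing R] [IsDomain R] [CharZero R] {a b c : R[X]}
    (h : Hyp.Family a b c) (L : Type) [Field L] (φ : R →+* L) (hφ : Function.Injective φ) :
    CharZero L ∧ Base2 (a.map φ) (b.map φ) (c.map φ) ∧
      0 < (quad (a.map φ) (b.map φ) (c.map φ)).natDegree := by
  have hch : CharZero L := by
    refine ⟨fun m k h => ?_⟩
    have h1 : φ (m : R) = φ (k : R) := by rw [map_natCast, map_natCast, h]
    exact_mod_cast hφ h1
  refine ⟨hch, ⟨?_, ?_⟩, ?_⟩
  · intro h0
    have h1 : (b ^ 2 - a * c).map φ = 0 := by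
      rw [Polynomial.map_sub, Polynomial.map_pow, Polynomial.map_mul, h0]
    have h2 := (Polynomial.map_eq_zero_iff hφ).mp h1
    exact h.disc (sub_eq_zero.mp h2)
  · rintro ρ hρ ⟨ha, hb, hc⟩
    obtain ⟨g, u, v, w, huvw, hg⟩ := gcd_fam h
    have hCF : CharZero (FractionRing R) := charZero_of_injective_algebraMap
      (IsFractionRing.injective R (FractionRing R))
    have hsep : g.Separable := PerfectField.separable_iff_squarefree.mpr hg
    have hsepL := (hsep.map (f := IsFractionRing.lift (K := FractionRing R) hφ)).squarefree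
    have h2 := congrArg (Polynomial.map (IsFractionRing.lift (K := FractionRing R) hφ)) huvw
    have e : ∀ f : R[X], (toF f).map (IsFractionRing.lift (K := FractionRing R) hφ) =
        f.map φ := by
      intro f
      rw [toF, Polynomial.map_map]
      congr 1
      ext r
      simp
    rw [Polynomial.map_add, Polynomial.map_add, Polynomial.map_mul, Polynomial.map_mul,
      Polynomial.map_mul, e, e, e] at h2
    have h3 : ρ ^ 2 ∣ g.map (IsFractionRing.lift (K := FractionRing R) hφ) := by
      rw [← h2]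
      exact dvd_add (dvd_add (Dvd.dvd.mul_left ha _) (Dvd.dvd.mul_left hb _))
        (Dvd.dvd.mul_left hc _)
    rw [pow_two] at h3
    exact hρ.not_isUnit (hsepL ρ h3)
  · rw [quad_natDegree_map φ hφ]
    exact h.pos

end Pool.Agent.Lib.MP_1a0ddd_nt.Hyp
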