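import Pool.Agent.Lib.MP_1a0ddd_nt.Hyp.Alg
import Pool.Agent.Lib.MP_1a0ddd_nt.Hyp.Red

/-! Nagao's statement for all quadratic families. -/

set_option autoImplicit false

namespace Pool.Agent.Lib.MP_1a0ddd_nt.Hyp

open Polynomial Quad LW

theorem family_rank (R : Type) [CommRing R] [IsDomain R] [CharZero R] (a b c : R[X])
    (h : Hyp.Family a b c) : Hyp.RankOverAll a b c := by
  intro L _ φ hφ
  obtain ⟨_, hB, hpos⟩ := base_of_family h L φ hφ
  exact ⟨splitSet_finite hB.disc_ne, memSet_finite hB hpos, curve_rank hB hpos⟩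

theorem family_limit (R : Type) [CommRing R] [IsDomain R] [CharZero R] [Algebra.FiniteType ℤ R]
    (d : ℕ) (hd : Algebra.trdeg ℤ R = (d : Cardinal)) (a b c : R[X]) (h : Hyp.Family a b c) :
    Hyp.NagaoLimit (quad a b c) (d + 1) (famRank (toF a) (toF b) (toF c)) := by
  obtain ⟨s, hs, i0, m, π, k, δ, hp⟩ := exists_pen R a b c h.disc
  obtain ⟨i1, i2, i3, htr, hinj⟩ := loc_facts R s hs (Localization.Away s)
  obtain ⟨_, hB, hpos⟩ := base_of_family h (FractionRing R) (algebraMap R (FractionRing R))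
    (IsFractionRing.injective R (FractionRing R))
  obtain ⟨h1, h2⟩ := famRank_loc R s hs a b c
  have h3 := pen_nagao (Localization.Away s) d (htr.trans hd) (toL s a) (toL s b) (toL s c)
    π k δ hp (h2 (memSet_finite hB hpos))
  rw [h1] at h3
  exact nagao_descend5 R s hs a b c _ _ h3

theorem family_main (R : Type) [CommRing R] [IsDomain R] [CharZero R] [Algebra.FiniteType ℤ R]
    (d : ℕ) (hd : Algebra.trdeg ℤ R = (d : Cardinal)) (a b c : R[X]) (h : Hyp.Family a b c) :
    Hyp.RankOverAll a b c ∧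
      Hyp.NagaoLimit (quad a b c) (d + 1) (famRank (toF a) (toF b) (toF c)) :=
  ⟨family_rank R a b c h, family_limit R d hd a b c h⟩

end Pool.Agent.Lib.MP_1a0ddd_nt.Hyp
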