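import Pool.Agent.Lib.MP_1a0ddd_nt.Hyp.Ord
import Pool.Agent.Lib.MP_1a0ddd_nt.Quad.Conic
import Pool.Agent.Lib.MP_1a0ddd_nt.Quad.Conic3
import Pool.Agent.Lib.MP_1a0ddd_nt.Quad.Cls4

/-! The Euler characteristic of an affine conic. -/

set_option autoImplicit false

namespace Pool.Agent.Lib.MP_1a0ddd_nt.Hyp

open Polynomial Quad IsDedekindDomain Module

/-! ### constants -/

/-- the group of the constant units -/
private noncomputable def cstU {κ : Type} [Field κ] (P : κ[X]) : Subgroup (QR P)ˣ :=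
  (Units.map (((em P).comp C : κ →+* QR P) : κ →* QR P)).range

private theorem mem_cstU {κ : Type} [Field κ] (P : κ[X]) (z : (QR P)ˣ) :
    z ∈ cstU P ↔ ∃ k : κ, k ≠ 0 ∧ (z : QR P) = em P (C k) := by
  constructor
  · rintro ⟨u, rfl⟩
    exact ⟨u, u.ne_zero, rfl⟩
  · rintro ⟨k, hk, h⟩
    exact ⟨Units.mk0 k hk, Units.ext h.symm⟩

private theorem cst_span {κ : Type} [Field κ] (P : κ[X]) (Q : Type) [Field Q]
    [Algebra (QR P) Q] (q : Qˣ) :
    Additive.ofMul q ∈ Submodule.span ℤ {q : Additive Qˣ | ∃ k : κ, k ≠ 0 ∧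
        ((Additive.toMul q : Qˣ) : Q) = algebraMap (QR P) Q (em P (C k))} ↔
      ∃ u ∈ cstU P, Units.map (algebraMap (QR P) Q : QR P →* Q) u = q := by
  constructor
  · intro h
    have key : ∀ x : Additive Qˣ, x ∈ Submodule.span ℤ {q : Additive Qˣ | ∃ k : κ, k ≠ 0 ∧
        ((Additive.toMul q : Qˣ) : Q) = algebraMap (QR P) Q (em P (C k))} →
        ∃ u ∈ cstU P, Units.map (algebraMap (QR P) Q : QR P →* Q) u = Additive.toMul x := by
      intro x hx
      induction hx using Submodule.span_induction with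
      | mem x hx =>
        obtain ⟨k, hk, h1⟩ := hx
        refine ⟨Units.map (((em P).comp C : κ →+* QR P) : κ →* QR P) (Units.mk0 k hk),
          ⟨Units.mk0 k hk, rfl⟩, Units.ext ?_⟩
        rw [h1]
        rfl
      | zero => exact ⟨1, Subgroup.one_mem _, by rw [map_one, toMul_zero]⟩
      | add x y _ _ hx hy =>
        obtain ⟨u, hu, h1⟩ := hx
        obtain ⟨v, hv, h2⟩ := hy
        exact ⟨u * v, Subgroup.mul_mem _ hu hv, by rw [map_mul, h1, h2, toMul_add]⟩
      | smul a x _ hx =>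
        obtain ⟨u, hu, h1⟩ := hx
        exact ⟨u ^ a, Subgroup.zpow_mem _ hu a, by rw [map_zpow, h1, toMul_zsmul]⟩
    exact key _ h
  · rintro ⟨u, hu, rfl⟩
    obtain ⟨k, hk, h⟩ := (mem_cstU P u).1 hu
    refine Submodule.subset_span ⟨k, hk, ?_⟩
    show algebraMap (QR P) Q (u : QR P) = _
    rw [h]

/-! ### class groups -/

private theorem class_fin {A : Type} [CommRing A] [IsDedekindDomain A]
    (h : ∀ P P' : Ideal A, P.IsPrime → P'.IsPrime → P ≠ ⊥ → P' ≠ ⊥ →
      (∃ u, P = Ideal.span {u}) ∨ (∃ u, P' = Ideal.span {u}) ∨ ∃ u, P * P' = Ideal.span {u}) :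
    Module.Finite ℤ (Additive (ClassGroup A)) ∧ finrank ℤ (Additive (ClassGroup A)) = 0 := by
  have h1 := clg_index (A := A) ⊥ fun P P' hP hP' h0 h0' => by
    simp only [AddSubgroup.mem_bot]
    rcases h P P' hP hP' h0 h0' with h1 | h1 | h1
    · exact Or.inl ((clg_eq_zero h0).2 h1)
    · exact Or.inr (Or.inl ((clg_eq_zero h0').2 h1))
    · refine Or.inr (Or.inr ?_)
      rw [← clg_mul h0 h0']
      exact (clg_eq_zero (mul_ne_zero h0 h0')).2 h1
  have h2 : Nat.card (Additive (ClassGroup A)) ≠ 0 := by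
    rw [AddSubgroup.index_bot] at h1
    rcases h1 with h1 | h1 <;> rw [h1] <;> norm_num
  have h3 : Finite (Additive (ClassGroup A)) := Nat.finite_of_card_ne_zero h2
  refine ⟨Module.Finite.of_finite, ?_⟩
  have h4 : Module.IsTorsion ℤ (Additive (ClassGroup A)) := by
    intro x
    refine ⟨⟨(Nat.card (Additive (ClassGroup A)) : ℤ), ?_⟩, ?_⟩
    · exact mem_nonZeroDivisors_of_ne_zero (by exact_mod_cast h2)
    · show (Nat.card (Additive (ClassGroup A)) : ℤ) • x = 0
      rw [natCast_zsmul]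
      exact card_nsmul_eq_zero'
  exact finrank_eq_zero_of_rank_eq_zero (Module.rank_eq_zero_iff_isTorsion.2 h4)

private theorem class_triv {A : Type} [CommRing A] [IsDedekindDomain A]
    (h : ∀ I : Ideal A, ∃ u, I = Ideal.span {u}) :
    Module.Finite ℤ (Additive (ClassGroup A)) ∧ finrank ℤ (Additive (ClassGroup A)) = 0 :=
  class_fin fun P _ _ _ _ _ => Or.inl (h P)

/-! ### units -/

private theorem units_triv {κ : Type} [Field κ] (P : κ[X])
    (h : ∀ z : QR P, IsUnit z → ∃ k : κ, z = em P (C k)) :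
    Module.Finite ℤ (Additive (QR P)ˣ ⧸ AddSubgroup.toIntSubmodule
      (Subgroup.toAddSubgroup (cstU P))) ∧
    finrank ℤ (Additive (QR P)ˣ ⧸ AddSubgroup.toIntSubmodule
      (Subgroup.toAddSubgroup (cstU P))) = 0 := by
  have h1 : AddSubgroup.toIntSubmodule (Subgroup.toAddSubgroup (cstU P)) = ⊤ := by
    rw [eq_top_iff]
    intro x _
    show Additive.toMul x ∈ cstU P
    rw [mem_cstU]
    obtain ⟨k, hk⟩ := h _ (Additive.toMul x).isUnit
    refine ⟨k, ?_, hk⟩
    rintro rfl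
    have h2 := (Additive.toMul x).isUnit
    rw [hk, C_0, map_zero] at h2
    have : Nontrivial (QR P) := (em_injective P).nontrivial
    exact not_isUnit_zero h2
  rw [h1]
  have : Subsingleton (Additive (QR P)ˣ ⧸ (⊤ : Submodule ℤ (Additive (QR P)ˣ))) :=
    Submodule.Quotient.subsingleton_iff.2 rfl
  exact ⟨Module.Finite.of_finite, finrank_zero_of_subsingleton⟩

/-- `deg (u² - v² P)` if there is no cancellation -/
private theorem units_nonsq {κ : Type} [Field κ] {P : κ[X]} (hP : 0 < P.natDegree)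
    (hodd : Odd P.natDegree ∨ ¬ IsSquare P.leadingCoeff) (z : QR P) (hz : IsUnit z) :
    ∃ k : κ, z = em P (C k) := by
  obtain ⟨u, v, rfl⟩ := rep P z
  obtain ⟨z', hz'⟩ := hz.exists_right_inv
  have hN : IsUnit (u ^ 2 - v ^ 2 * P) := by
    obtain ⟨u', v', rfl⟩ := rep P z'
    refine IsUnit.of_mul_eq_one (u' ^ 2 - v' ^ 2 * P) ?_
    apply em_injective P
    rw [map_mul, ← mul_conj, ← mul_conj, map_one, mul_mul_mul_comm, ← map_mul, hz', map_one,
      mul_one]
  have hd : (u ^ 2 - v ^ 2 * P).natDegree = 0 := natDegree_eq_zero_of_isUnit hN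
  have hP0 : P ≠ 0 := by
    rintro rfl
    simp at hP
  have hv : v = 0 := by
    by_contra hv
    have hvP : v ^ 2 * P ≠ 0 := mul_ne_zero (pow_ne_zero 2 hv) hP0
    have d2 : (v ^ 2 * P).natDegree = 2 * v.natDegree + P.natDegree := by
      rw [natDegree_mul (pow_ne_zero 2 hv) hP0, natDegree_pow]
    have d1 : (u ^ 2).natDegree = 2 * u.natDegree := natDegree_pow u 2
    rcases lt_trichotomy (u ^ 2).natDegree (v ^ 2 * P).natDegree with h | h | h
    · rw [natDegree_sub_eq_right_of_natDegree_lt h, d2] at hd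
      omega
    · rcases hodd with ho | ho
      · rw [d1, d2] at h
        obtain ⟨k, hk⟩ := ho
        omega
      · have hu : u ≠ 0 := by
          rintro rfl
          rw [d1, d2, natDegree_zero] at h
          omega
        have hc : (u ^ 2 - v ^ 2 * P).coeff (u ^ 2).natDegree =
            u.leadingCoeff ^ 2 - v.leadingCoeff ^ 2 * P.leadingCoeff := by
          rw [coeff_sub, coeff_natDegree, leadingCoeff_pow]
          conv_lhs => rw [h]
          rw [coeff_natDegree, leadingCoeff_mul, leadingCoeff_pow]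
        have hz0 : (u ^ 2 - v ^ 2 * P).coeff (u ^ 2).natDegree = 0 := by
          apply coeff_eq_zero_of_natDegree_lt
          rw [hd, h, d2]
          omega
        rw [hc] at hz0
        apply ho
        refine ⟨u.leadingCoeff / v.leadingCoeff, ?_⟩
        have hvl : v.leadingCoeff ≠ 0 := leadingCoeff_ne_zero.2 hv
        field_simp
        linear_combination -hz0
    · rw [natDegree_sub_eq_left_of_natDegree_lt h] at hd
      omega
  subst hv
  have hu0 : u.natDegree = 0 := by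
    have h1 : u ^ 2 - 0 ^ 2 * P = u ^ 2 := by ring
    rw [h1, natDegree_pow] at hd
    omega
  refine ⟨u.coeff 0, ?_⟩
  rw [map_zero, zero_mul, add_zero, ← eq_C_of_natDegree_eq_zero hu0]

/-- the map to `K`, `y - σ x - δ ↦ t` -/
private theorem exists_lau {κ K : Type} [Field κ] [Field K] (h2 : (2 : κ) ≠ 0) {σ : κ}
    (hσ : σ ≠ 0) (P : κ[X]) (e δ : κ) (hP : P = (C σ * X + C δ) ^ 2 + C e) (c : κ →+* K) (t : K)
    (ht0 : t ≠ 0) : ∃ g : QR P →+* K, (∀ r, g (em P (C r)) = c r) ∧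
      g (yy P - em P (C σ * X + C δ)) = t := by
  have hc2 : (2 : K) ≠ 0 := by
    have h := (map_ne_zero c).2 h2
    rwa [map_ofNat] at h
  have hcσ : c σ ≠ 0 := (map_ne_zero c).2 hσ
  obtain ⟨y₀, hy₀⟩ : ∃ y₀ : K, y₀ = (t + c e / t) / 2 := ⟨_, rfl⟩
  obtain ⟨l₀, hl₀⟩ : ∃ l₀ : K, l₀ = (c e / t - t) / 2 := ⟨_, rfl⟩
  obtain ⟨t₀, ht₀⟩ : ∃ t₀ : K, t₀ = (l₀ - c δ) / c σ := ⟨_, rfl⟩
  let i : κ[X] →+* K := eval₂RingHom c t₀
  have hic : ∀ r, i (C r) = c r := fun r => by simp [i]
  have hiL : i (C σ * X + C δ) = l₀ := by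
    rw [map_add, map_mul, hic, hic]
    have hX : i X = t₀ := by simp [i]
    rw [hX, ht₀, mul_div_cancel₀ _ hcσ, sub_add_cancel]
  have hy : eval₂ i y₀ (X ^ 2 - C P : κ[X][X]) = 0 := by
    rw [eval₂_sub, eval₂_pow, eval₂_X, eval₂_C]
    have h1 : i P = l₀ ^ 2 + c e := by
      conv_lhs => rw [hP]
      rw [map_add, map_pow, hiL, hic]
    rw [h1, hy₀, hl₀]
    field_simp
    ring
  refine ⟨AdjoinRoot.lift i y₀ hy, fun r => ?_, ?_⟩
  · rw [AdjoinRoot.lift_of, hic]
  · rw [map_sub, AdjoinRoot.lift_root, AdjoinRoot.lift_of, hiL, hy₀, hl₀]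
    field_simp
    ring

/-- two rational points at infinity: the units are the powers of one unit, up to constants -/
private theorem units_sq {κ : Type} [Field κ] (h2 : (2 : κ) ≠ 0) {σ β γ : κ} (hσ : σ ≠ 0)
    (hd : β ^ 2 - σ ^ 2 * γ ≠ 0) (P : κ[X]) (hP : P = cq (σ ^ 2) β γ) :
    ∃ u : (QR P)ˣ, (∀ z : (QR P)ˣ, ∃ n : ℤ, z * (u ^ n)⁻¹ ∈ cstU P) ∧
      ∀ n : ℤ, u ^ n ∈ cstU P → n = 0 := by
  set L : κ[X] := C σ * X + C (β / σ) with hL
  set u : QR P := yy P - em P L with hu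
  set v : QR P := yy P + em P L with hv
  set e : κ := γ - (β / σ) ^ 2 with he
  have he0 : e ≠ 0 := by
    intro h
    apply hd
    have h1 : γ = (β / σ) ^ 2 := sub_eq_zero.mp h
    rw [h1]
    field_simp
    ring
  have hPL : P = L ^ 2 + C e := by
    have h4 : β = σ * (β / σ) := by field_simp
    rw [hP, he, cq, hL]
    generalize β / σ = δ at h4 ⊢
    subst h4
    simp only [C_mul, C_pow, C_sub, C_ofNat]
    ring
  have huv : u * v = em P (C e) := by
    have h1 : u * v = yy P ^ 2 - em P (L ^ 2) := by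
      rw [hu, hv, map_pow]; ring
    have h3 : P - L ^ 2 = C e := by
      conv_lhs => rw [hPL]
      ring
    rw [h1, yy_sq, ← map_sub, h3]
  let f : κ[X] →+* QR P := eval₂RingHom ((em P).comp C) u
  have hC : ∀ r : κ, f (C r) = em P (C r) := by
    intro r
    simp [f]
  have hX : f X = u := by simp [f]
  have hunit : IsUnit u := by
    refine IsUnit.of_mul_eq_one (v * em P (C e⁻¹)) ?_
    rw [← mul_assoc, huv, ← map_mul, ← C_mul, mul_inv_cancel₀ he0, C_1, map_one]
  have h2inv : em P (C (2 : κ)⁻¹) * 2 = 1 := by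
    have : (2 : QR P) = em P (C 2) := by rw [C_ofNat, map_ofNat]
    rw [this, ← map_mul, ← C_mul, inv_mul_cancel₀ h2, C_1, map_one]
  let T : QR P → Prop := fun z => ∃ (n : ℕ) (p : κ[X]), u ^ n * z = f p
  have Tadd : ∀ z z', T z → T z' → T (z + z') := by
    rintro z z' ⟨n, p, h⟩ ⟨n', p', h'⟩
    refine ⟨n + n', X ^ n' * p + X ^ n * p', ?_⟩
    rw [map_add, map_mul, map_mul, map_pow, map_pow, hX, ← h, ← h', pow_add]
    ring
  have Tmul : ∀ z z', T z → T z' → T (z * z') := by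
    rintro z z' ⟨n, p, h⟩ ⟨n', p', h'⟩
    refine ⟨n + n', p * p', ?_⟩
    rw [map_mul, ← h, ← h', pow_add]
    ring
  have TC : ∀ r : κ, T (em P (C r)) := fun r => ⟨0, C r, by rw [pow_zero, one_mul, hC]⟩
  have Tu : T u := ⟨0, X, by rw [pow_zero, one_mul, hX]⟩
  have Tv : T v := ⟨1, C e, by rw [pow_one, huv, hC]⟩
  have Ty : T (yy P) := by
    have h1 : yy P = em P (C (2 : κ)⁻¹) * (u + v) := by
      have h3 : u + v = 2 * yy P := by rw [hu, hv]; ring
      rw [h3, ← mul_assoc, h2inv, one_mul]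
    rw [h1]
    exact Tmul _ _ (TC _) (Tadd _ _ Tu Tv)
  have TX : T (em P X) := by
    have h1 : em P X = em P (C σ⁻¹) * (em P (C (2 : κ)⁻¹) * (v + em P (C (-1)) * u) +
        em P (C (-(β / σ)))) := by
      have h3 : v + em P (C (-1)) * u = 2 * em P L := by
        rw [hu, hv, C_neg, map_neg, C_1, map_one]; ring
      rw [h3, ← mul_assoc (em P (C (2 : κ)⁻¹)), h2inv, one_mul, ← map_add, ← map_mul]
      congr 1
      rw [C_neg, hL, add_neg_cancel_right, ← mul_assoc, ← C_mul, inv_mul_cancel₀ hσ, C_1, one_mul]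
    rw [h1]
    exact Tmul _ _ (TC _) (Tadd _ _ (Tmul _ _ (TC _) (Tadd _ _ Tv (Tmul _ _ (TC _) Tu))) (TC _))
  have Tem : ∀ q : κ[X], T (em P q) := by
    intro q
    induction q using Polynomial.induction_on with
    | C r => exact TC r
    | add p q hp hq => rw [map_add]; exact Tadd _ _ hp hq
    | monomial n r h =>
      have h3 : (C r * X ^ (n + 1) : κ[X]) = C r * X ^ n * X := by ring
      rw [h3, map_mul (em P)]
      exact Tmul _ _ h TX
  have hT : ∀ z : QR P, T z := by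
    intro z
    obtain ⟨p, q, rfl⟩ := rep P z
    exact Tadd _ _ (Tem p) (Tmul _ _ (Tem q) Ty)
  -- the map to `κ(u)`
  have hinj : Function.Injective f := by
    obtain ⟨g, hg1, hg2⟩ := exists_lau h2 hσ P e (β / σ) hPL
      ((algebraMap κ[X] (FractionRing κ[X])).comp C)
      (algebraMap κ[X] (FractionRing κ[X]) X) (by
        rw [Ne, map_eq_zero_iff _ (IsFractionRing.injective κ[X] (FractionRing κ[X]))]
        exact X_ne_zero)
    have hg : g.comp f = algebraMap κ[X] (FractionRing κ[X]) := by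
      apply ringHom_ext
      · intro r
        rw [RingHom.comp_apply, hC, hg1]
        rfl
      · rw [RingHom.comp_apply, hX, hu, hL, hg2]
    intro p q hpq
    apply IsFractionRing.injective κ[X] (FractionRing κ[X])
    rw [← hg, RingHom.comp_apply, RingHom.comp_apply, hpq]
  obtain ⟨U, hU⟩ := hunit
  have hpow : ∀ n : ℕ, ((U ^ n : (QR P)ˣ) : QR P) = f (X ^ n) := by
    intro n
    rw [Units.val_pow_eq_pow_val, hU, map_pow, hX]
  have hnat : ∀ n : ℕ, U ^ n ∈ cstU P → n = 0 := by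
    intro n hn
    obtain ⟨k, hk, h⟩ := (mem_cstU P _).1 hn
    rw [hpow, ← hC] at h
    have h3 := congrArg natDegree (hinj h)
    rwa [natDegree_X_pow, natDegree_C] at h3
  refine ⟨U, fun z => ?_, fun n hn => ?_⟩
  · obtain ⟨n, p, h⟩ := hT (z : QR P)
    obtain ⟨n', p', h'⟩ := hT ((z⁻¹ : (QR P)ˣ) : QR P)
    have h3 : p * p' = X ^ (n + n') := by
      apply hinj
      rw [map_mul, ← h, ← h', map_pow, hX, pow_add]
      have : (z : QR P) * ((z⁻¹ : (QR P)ˣ) : QR P) = 1 := z.mul_inv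
      linear_combination (u ^ n * u ^ n') * this
    obtain ⟨i, -, hi⟩ := (dvd_prime_pow prime_X (n + n')).1 (Dvd.intro _ h3)
    obtain ⟨w, hw⟩ := hi.symm
    obtain ⟨k, hk, hk'⟩ := Polynomial.isUnit_iff.1 w.isUnit
    refine ⟨(i : ℤ) - n, ?_⟩
    rw [mem_cstU]
    refine ⟨k, hk.ne_zero, ?_⟩
    have h4 : ((U ^ n * z : (QR P)ˣ) : QR P) = em P (C k) * ((U ^ i : (QR P)ˣ) : QR P) := by
      rw [Units.val_mul, Units.val_pow_eq_pow_val, hU, h, ← hw, ← hk', hpow, map_mul, hC,
        mul_comm]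
    have h5 : z * (U ^ ((i : ℤ) - n))⁻¹ = (U ^ n * z) * (U ^ i)⁻¹ := by
      rw [zpow_sub, zpow_natCast, zpow_natCast, mul_inv, inv_inv]
      rw [mul_comm (U ^ n) z, mul_assoc, mul_comm (U ^ n)]
    rw [h5, Units.val_mul, h4, mul_assoc, Units.mul_inv, mul_one]
  · rcases Int.eq_nat_or_neg n with ⟨j, rfl | rfl⟩
    · rw [zpow_natCast] at hn
      rw [hnat j hn]
      rfl
    · rw [zpow_neg, zpow_natCast] at hn
      have h3 := (cstU P).inv_mem hn
      rw [inv_inv] at h3
      rw [hnat j h3]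
      rfl

private theorem units_rank {κ : Type} [Field κ] (P : κ[X]) (u : (QR P)ˣ)
    (h1 : ∀ z : (QR P)ˣ, ∃ n : ℤ, z * (u ^ n)⁻¹ ∈ cstU P)
    (h2 : ∀ n : ℤ, u ^ n ∈ cstU P → n = 0) :
    Module.Finite ℤ (Additive (QR P)ˣ ⧸ AddSubgroup.toIntSubmodule
      (Subgroup.toAddSubgroup (cstU P))) ∧
    finrank ℤ (Additive (QR P)ˣ ⧸ AddSubgroup.toIntSubmodule
      (Subgroup.toAddSubgroup (cstU P))) = 1 := by
  set S : Submodule ℤ (Additive (QR P)ˣ) := AddSubgroup.toIntSubmodule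
      (Subgroup.toAddSubgroup (cstU P)) with hS
  have hmem : ∀ x : Additive (QR P)ˣ, x ∈ S ↔ Additive.toMul x ∈ cstU P := fun x => Iff.rfl
  let φ : ℤ →ₗ[ℤ] (Additive (QR P)ˣ ⧸ S) :=
    LinearMap.toSpanSingleton ℤ _ (Submodule.Quotient.mk (Additive.ofMul u))
  have hφ : ∀ n : ℤ, φ n = Submodule.Quotient.mk (n • Additive.ofMul u) := fun n => by
    rw [LinearMap.toSpanSingleton_apply, Submodule.Quotient.mk_smul]
  have hinj : Function.Injective φ := by
    rw [injective_iff_map_eq_zero]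
    intro n hn
    rw [hφ, Submodule.Quotient.mk_eq_zero, hmem] at hn
    exact h2 n hn
  have hsurj : Function.Surjective φ := by
    intro x
    obtain ⟨z, rfl⟩ := Submodule.Quotient.mk_surjective _ x
    obtain ⟨n, hn⟩ := h1 (Additive.toMul z)
    refine ⟨n, ?_⟩
    rw [hφ, eq_comm, Submodule.Quotient.eq, hmem]
    have e : Additive.toMul (z - n • Additive.ofMul u) = Additive.toMul z * (u ^ n)⁻¹ := by
      rw [toMul_sub, div_eq_mul_inv]
      rfl
    rw [e]
    exact hn
  let E := LinearEquiv.ofBijective φ ⟨hinj, hsurj⟩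
  exact ⟨Module.Finite.equiv E, by rw [← E.finrank_eq, finrank_self]⟩

open Classical in
/-- The conic `y² = α t² + 2 β t + γ` over the field `κ`. Proof (`chi_of_class`): if `α` is not a square
then the class group has at most two elements (`conic_pairs`) and the units are constants (norm
`u² - v² P`, degrees); if `α = 0` then (`β ≠ 0`) the ring is `κ[y]`; if `α = σ²`, `σ ≠ 0`, then
`(y - σ t - β/σ)(y + σ t + β/σ) = γ - β²/α ≠ 0`, the ring is `κ[u, 1/u]` (`u = y + σ t + β/σ`): class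
group trivial, units modulo constants infinite cyclic. -/
theorem conic_chi {κ : Type} [Field κ] (h2 : (2 : κ) ≠ 0) (α β γ : κ) (hd : β ^ 2 - α * γ ≠ 0)
    [IsDedekindDomain (QR (cq α β γ))] (Q : Type) [Field Q] [Algebra (QR (cq α β γ)) Q]
    [IsFractionRing (QR (cq α β γ)) Q] :
    Chi (ordZ (QR (cq α β γ)) Q) (Submodule.span ℤ {q : Additive Qˣ | ∃ k : κ, k ≠ 0 ∧
        ((Additive.toMul q : Qˣ) : Q) = algebraMap (QR (cq α β γ)) Q (em (cq α β γ) (C k))})
      (-(if α ≠ 0 ∧ IsSquare α then 1 else 0)) := by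
  rw [chi_of_class (QR (cq α β γ)) Q _ (cstU (cq α β γ)) (cst_span (cq α β γ) Q)]
  by_cases hs : α ≠ 0 ∧ IsSquare α
  · rw [if_pos hs]
    obtain ⟨hα, σ, hσ⟩ := hs
    have hσ2 : α = σ ^ 2 := by rw [hσ, sq]
    have hσ0 : σ ≠ 0 := by
      rintro rfl
      exact hα (by rw [hσ, mul_zero])
    subst hσ2
    have c1 := class_triv (A := QR (cq (σ ^ 2) β γ)) fun I => conic_sq0 h2 hσ0 hd I
    obtain ⟨u, hu1, hu2⟩ := units_sq h2 hσ0 hd _ rfl
    have c2 := units_rank _ u hu1 hu2
    refine ⟨c1.1, c2.1, ?_⟩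
    rw [c1.2, c2.2]
    norm_num
  · rw [if_neg hs]
    have key : ∀ P : κ[X], [IsDedekindDomain (QR P)] →
      (Module.Finite ℤ (Additive (ClassGroup (QR P))) ∧
        finrank ℤ (Additive (ClassGroup (QR P))) = 0) →
      (Module.Finite ℤ (Additive (QR P)ˣ ⧸ AddSubgroup.toIntSubmodule
        (Subgroup.toAddSubgroup (cstU P))) ∧ finrank ℤ (Additive (QR P)ˣ ⧸
          AddSubgroup.toIntSubmodule (Subgroup.toAddSubgroup (cstU P))) = 0) →
      Module.Finite ℤ (Additive (ClassGroup (QR P))) ∧ Module.Finite ℤ (Additive (QR P)ˣ ⧸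
        AddSubgroup.toIntSubmodule (Subgroup.toAddSubgroup (cstU P))) ∧
      (finrank ℤ (Additive (ClassGroup (QR P))) : ℤ) - finrank ℤ (Additive (QR P)ˣ ⧸
        AddSubgroup.toIntSubmodule (Subgroup.toAddSubgroup (cstU P))) = -0 := by
      intro P _ h1 h3
      refine ⟨h1.1, h3.1, ?_⟩
      rw [h1.2, h3.2]
      norm_num
    by_cases hα : α = 0
    · subst hα
      have hβ : β ≠ 0 := by
        rintro rfl
        apply hd
        ring
      refine key _ (class_triv (conic_lin h2 hβ)) (units_triv _ ?_)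
      have e : cq 0 β γ = C (2 * β) * X + C γ := by
        rw [cq, C_0, zero_mul, zero_add]
      have h3 : (cq 0 β γ).natDegree = 1 := by
        rw [e]
        exact natDegree_linear (mul_ne_zero h2 hβ)
      exact units_nonsq (by rw [h3]; norm_num) (Or.inl (by rw [h3]; exact odd_one))
    · have hns : ¬ IsSquare α := fun h => hs ⟨hα, h⟩
      have h3 : (cq α β γ).natDegree = 2 := natDegree_quadratic hα
      have h4 : (cq α β γ).leadingCoeff = α := leadingCoeff_quadratic hα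
      refine key _ (class_fin fun P P' hP hP' h0 h0' => conic_pairs h2 hns hd P P' hP hP' h0 h0')
        (units_triv _ ?_)
      exact units_nonsq (by rw [h3]; norm_num) (Or.inr (by rw [h4]; exact hns))

end Pool.Agent.Lib.MP_1a0ddd_nt.Hyp
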