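import Pool.Agent.Lib.MP_1a0ddd_nt.Hyp.Ord

/-! Two Dedekind domains which are localisations of one ring: the mixed primes, and the comparison of
the Euler characteristics. -/

set_option autoImplicit false
set_option linter.unusedSectionVars false

namespace Pool.Agent.Lib.MP_1a0ddd_nt.Hyp

open IsDedekindDomain Module

/-- powers of a prime of a localisation -/
private theorem mix_pow {S A : Type} [CommRing S] [CommRing A] [IsDedekindDomain A] [Algebra S A]
    (N : Submonoid S) [IsLocalization N A] (v : HeightOneSpectrum A) (s : S) (n : ℕ) :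
    algebraMap S A s ∈ v.asIdeal ^ n ↔
      ∃ t, t ∉ v.asIdeal.under S ∧ t * s ∈ (v.asIdeal.under S) ^ n := by
  have hv := v.isPrime
  have e : (v.asIdeal.under S).map (algebraMap S A) = v.asIdeal := IsLocalization.map_under N A _
  constructor
  · intro h
    rw [← e, ← Ideal.map_pow, IsLocalization.algebraMap_mem_map_algebraMap_iff N] at h
    obtain ⟨m, hm, h1⟩ := h
    refine ⟨m, fun h2 => ?_, h1⟩
    exact hv.ne_top (Ideal.eq_top_of_isUnit_mem _ h2 (IsLocalization.map_units A ⟨m, hm⟩))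
  · rintro ⟨t, ht, h⟩
    have h1 := Ideal.mem_map_of_mem (algebraMap S A) h
    rw [Ideal.map_pow, e, map_mul] at h1
    exact (Ideal.IsPrime.mul_mem_pow _ h1).resolve_left ht

/-- the orders of the elements of `S` -/
private theorem mix_ord {S A W Q : Type} [CommRing S] [IsDomain S] [CommRing A]
    [IsDedekindDomain A] [CommRing W] [IsDedekindDomain W] [Field Q] [Algebra S A] [Algebra S W]
    [Algebra S Q] [Algebra A Q] [Algebra W Q] [IsScalarTower S A Q] [IsScalarTower S W Q]
    [IsFractionRing A Q] [IsFractionRing W Q] (v : HeightOneSpectrum A) (w : HeightOneSpectrum W)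
    (h : ∀ (s : S) (n : ℕ), algebraMap S A s ∈ v.asIdeal ^ n ↔ algebraMap S W s ∈ w.asIdeal ^ n)
    (q : Qˣ) (s : S) (hq : (q : Q) = algebraMap S Q s) :
    ordZ A Q v (Additive.ofMul q) = ordZ W Q w (Additive.ofMul q) := by
  have h1 : (q : Q) = algebraMap A Q (algebraMap S A s) := by
    rw [hq, ← IsScalarTower.algebraMap_apply]
  have h2 : (q : Q) = algebraMap W Q (algebraMap S W s) := by
    rw [hq, ← IsScalarTower.algebraMap_apply]
  obtain ⟨n, hn⟩ := Int.eq_ofNat_of_zero_le (ord_nonneg A Q v q _ h1)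
  have h3 := (ord_eq_iff A Q v q _ h1 n).1 hn
  rw [hn]
  refine ((ord_eq_iff W Q w q _ h2 n).2 ⟨(h s n).1 h3.1, fun h4 => h3.2 ((h s (n + 1)).2 h4)⟩).symm

section

variable (S A W Q : Type) [CommRing S] [IsDomain S] [CommRing A] [IsDedekindDomain A] [CommRing W]
  [IsDedekindDomain W] [Field Q] [Algebra S A] [Algebra S W] [Algebra S Q] [Algebra A Q]
  [Algebra W Q] [IsScalarTower S A Q] [IsScalarTower S W Q] [IsFractionRing A Q]
  [IsFractionRing W Q]

/-- Proof: the localisation `A_v` (a discrete valuation ring of `Q`) contains `W`, because the elements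
of `Nx` are units in it; `v' = v A_v ∩ W` is a prime of `W`, not zero because it contains the image
of a nonzero element of `v ∩ S`, and it contains no element of `Nt` (units of `A`); `W_v' ⊆ A_v` are
discrete valuation rings of `Q`, so they are equal and the orders agree. (In orders: for
`q ∈ Q` with `ord_v q ≥ 0` write `q = w/w'` with `w' ∉ v'`.) -/
theorem mixed (Nt Nx : Submonoid S) [IsLocalization Nt A] [IsLocalization Nx W]
    (v : HeightOneSpectrum A) (hv : ∀ n ∈ Nx, algebraMap S A n ∉ v.asIdeal) :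
    ∃ v' : HeightOneSpectrum W, (∀ n ∈ Nt, algebraMap S W n ∉ v'.asIdeal) ∧
      ordZ A Q v = ordZ W Q v' := by
  classical
  have hvp := v.isPrime
  obtain ⟨I, hI⟩ : ∃ I : Ideal S, I = v.asIdeal.under S := ⟨_, rfl⟩
  have hp : I.IsPrime := by rw [hI]; exact hvp.comap _
  have hmem : ∀ s : S, s ∈ I ↔ algebraMap S A s ∈ v.asIdeal := fun s => by rw [hI]; rfl
  have hdx : Disjoint (Nx : Set S) (I : Set S) := by
    rw [Set.disjoint_left]
    intro n hn h
    exact hv n hn ((hmem n).1 h)
  have hdt : ∀ n ∈ Nt, n ∉ I := by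
    intro n hn h
    exact hvp.ne_top (Ideal.eq_top_of_isUnit_mem _ ((hmem n).1 h)
      (IsLocalization.map_units A ⟨n, hn⟩))
  have hWp : (I.map (algebraMap S W)).IsPrime :=
    IsLocalization.isPrime_of_isPrime_disjoint Nx W I hp hdx
  have hWu : (I.map (algebraMap S W)).under S = I :=
    IsLocalization.under_map_of_isPrime_disjoint Nx W hp hdx
  have hWmem : ∀ s : S, algebraMap S W s ∈ I.map (algebraMap S W) ↔ s ∈ I := by
    intro s
    conv_rhs => rw [← hWu]
    rfl
  have iA : Function.Injective (algebraMap S A) := by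
    refine IsLocalization.injective A (M := Nt) fun n hn => mem_nonZeroDivisors_of_ne_zero ?_
    rintro rfl
    exact hdt 0 hn I.zero_mem
  have iW : Function.Injective (algebraMap S W) := by
    refine IsLocalization.injective W (M := Nx) fun n hn => mem_nonZeroDivisors_of_ne_zero ?_
    rintro rfl
    exact Set.disjoint_left.1 hdx hn I.zero_mem
  -- a nonzero element of `v ∩ S`
  have hne : I.map (algebraMap S W) ≠ ⊥ := by
    intro hbot
    obtain ⟨a, ha, ha0⟩ := Submodule.exists_mem_ne_zero_of_ne_bot v.ne_bot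
    obtain ⟨⟨s, m⟩, hsm⟩ := IsLocalization.surj Nt a
    have h1 : algebraMap S A s ∈ v.asIdeal := by
      rw [← hsm]
      exact Ideal.mul_mem_right _ _ ha
    have h2 : algebraMap S W s ∈ I.map (algebraMap S W) := (hWmem s).2 ((hmem s).2 h1)
    rw [hbot, Ideal.mem_bot] at h2
    have h3 : s = 0 := iW (by rw [h2, map_zero])
    rw [h3, map_zero] at hsm
    have h4 := (IsLocalization.map_units A m)
    exact ha0 ((h4.mul_left_eq_zero).1 hsm)
  refine ⟨⟨I.map (algebraMap S W), hWp, hne⟩, fun n hn h => hdt n hn ((hWmem n).1 h), ?_⟩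
  obtain ⟨v', hv'⟩ : ∃ v' : HeightOneSpectrum W, v' = ⟨I.map (algebraMap S W), hWp, hne⟩ :=
    ⟨_, rfl⟩
  rw [← hv']
  have hu : v'.asIdeal.under S = v.asIdeal.under S := by
    rw [hv', ← hI]
    exact hWu
  have key : ∀ (s : S) (n : ℕ), algebraMap S A s ∈ v.asIdeal ^ n ↔
      algebraMap S W s ∈ v'.asIdeal ^ n := by
    intro s n
    rw [mix_pow Nt v s n, mix_pow Nx v' s n, hu]
  refine LinearMap.ext fun q => ?_
  -- quotients
  obtain ⟨q, rfl⟩ := Additive.ofMul.surjective q
  obtain ⟨x, y, hy, hxy⟩ := IsFractionRing.div_surjective (A := A) (q : Q)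
  obtain ⟨⟨s, m⟩, hs⟩ := IsLocalization.surj Nt x
  obtain ⟨⟨s', m'⟩, hs'⟩ := IsLocalization.surj Nt y
  have hy0 : algebraMap A Q y ≠ 0 :=
    IsFractionRing.to_map_ne_zero_of_mem_nonZeroDivisors hy
  have hx0 : algebraMap A Q x ≠ 0 := by
    intro h0
    rw [h0, zero_div] at hxy
    exact q.ne_zero hxy.symm
  have hQA : ∀ t : S, algebraMap S Q t = algebraMap A Q (algebraMap S A t) := fun t =>
    IsScalarTower.algebraMap_apply S A Q t
  have hm0 : ∀ m : Nt, algebraMap S Q m ≠ 0 := by
    intro m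
    rw [hQA]
    exact ((IsLocalization.map_units A m).map (algebraMap A Q)).ne_zero
  have e1 : algebraMap A Q x * algebraMap S Q m = algebraMap S Q s := by
    rw [hQA, hQA, ← map_mul]
    exact congrArg _ hs
  have e2 : algebraMap A Q y * algebraMap S Q m' = algebraMap S Q s' := by
    rw [hQA, hQA, ← map_mul]
    exact congrArg _ hs'
  have hs0 : algebraMap S Q (s' * m) ≠ 0 := by
    rw [map_mul, ← e2]
    exact mul_ne_zero (mul_ne_zero hy0 (hm0 m')) (hm0 m)
  have e3 : (q : Q) * algebraMap S Q (s' * m) = algebraMap S Q (s * m') := by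
    rw [map_mul, map_mul, ← e1, ← e2, ← hxy]
    field_simp
  have h1 := mix_ord v v' key (Units.mk0 _ hs0) (s' * m) rfl
  have h2 := mix_ord v v' key (q * Units.mk0 _ hs0) (s * m') (by
    rw [Units.val_mul, Units.val_mk0, e3])
  rw [ofMul_mul, map_add, map_add, h1] at h2
  exact add_right_cancel h2

/-- the submodule of the quotients of elements of `N` -/
def quotSub (N : Submonoid S) : Submodule ℤ (Additive Qˣ) :=
  Submodule.span ℤ {q | ∃ n ∈ N, ((Additive.toMul q : Qˣ) : Q) = algebraMap S Q n}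

/-- the primes of `A` which contain an element of `N` -/
abbrev VertPrimes (N : Submonoid S) : Type :=
  {v : HeightOneSpectrum A // ∃ n ∈ N, algebraMap S A n ∈ v.asIdeal}

private theorem ord_quot (N : Submonoid S) (v : HeightOneSpectrum A)
    (hv : ∀ n ∈ N, algebraMap S A n ∉ v.asIdeal) (q : Additive Qˣ) (hq : q ∈ quotSub S Q N) :
    ordZ A Q v q = 0 := by
  unfold quotSub at hq
  induction hq using Submodule.span_induction with
  | mem q hq =>
    obtain ⟨n, hn, h⟩ := hq
    have h1 : ((Additive.toMul q : Qˣ) : Q) = algebraMap A Q (algebraMap S A n) := by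
      rw [h, ← IsScalarTower.algebraMap_apply]
    have h2 := ord_nonneg A Q v (Additive.toMul q) _ h1
    have h3 := (ord_pos_iff A Q v (Additive.toMul q) _ h1).not.mpr (hv n hn)
    rw [ofMul_toMul] at h2 h3
    omega
  | zero => exact map_zero _
  | add x y _ _ hx hy => rw [map_add, hx, hy, add_zero]
  | smul a x _ hx => rw [map_smul, hx, smul_zero]

private theorem notMem_unit (N : Submonoid S) [IsLocalization N A] (v : HeightOneSpectrum A) :
    ∀ n ∈ N, algebraMap S A n ∉ v.asIdeal := fun n hn h =>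
  v.isPrime.ne_top (Ideal.eq_top_of_isUnit_mem _ h (IsLocalization.map_units A (⟨n, hn⟩ : N)))

/-- the primes of `A` which contain no element of `N` -/
private abbrev MixP (N : Submonoid S) : Type :=
  {v : HeightOneSpectrum A // ¬ ∃ n ∈ N, algebraMap S A n ∈ v.asIdeal}

open Classical in
private theorem chi_split (Nt Nx : Submonoid S) [IsLocalization Nt A]
    (hA : ∀ q ∈ quotSub S Q Nx, (∀ v : HeightOneSpectrum A, ordZ A Q v q = 0) →
      q ∈ quotSub S Q Nt) (s : ℕ)
    (hs : VertRank (fun v : VertPrimes S A Nx => ordZ A Q v.1) (quotSub S Q Nx) s) (n : ℤ) :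
    Chi (ordZ A Q) (quotSub S Q Nt) n ↔
      Chi (fun v : MixP S A Nx => ordZ A Q v.1) (quotSub S Q Nt ⊔ quotSub S Q Nx) (n - s) := by
  have hm : ∀ v : MixP S A Nx, ∀ n ∈ Nx, algebraMap S A n ∉ v.1.asIdeal := fun v n hn h =>
    v.2 ⟨n, hn, h⟩
  rw [← chi_iff (fun v : MixP S A Nx => ordZ A Q v.1) (fun v : VertPrimes S A Nx => ordZ A Q v.1)
    (quotSub S Q Nt) (quotSub S Q Nx)
    (fun g hg v => ord_quot S A Q Nt v.1 (notMem_unit S A Nt v.1) g hg)
    (fun g hg v => ord_quot S A Q Nt v.1 (notMem_unit S A Nt v.1) g hg)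
    (fun g hg v => ord_quot S A Q Nx v.1 (hm v) g hg) (fun g hg h => hA g hg fun v => ?_) s hs n]
  · refine chi_equiv ((Equiv.sumComm _ _).trans (Equiv.sumCompl
      (fun v : HeightOneSpectrum A => ∃ n ∈ Nx, algebraMap S A n ∈ v.asIdeal))).symm _ _ ?_ _ _
    intro v
    obtain ⟨w, rfl⟩ := ((Equiv.sumComm _ _).trans (Equiv.sumCompl
      (fun v : HeightOneSpectrum A => ∃ n ∈ Nx, algebraMap S A n ∈ v.asIdeal))).surjective v
    rw [Equiv.symm_apply_apply]
    rcases w with w | w
    · rfl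
    · rfl
  · by_cases hv : ∃ n ∈ Nx, algebraMap S A n ∈ v.asIdeal
    · exact h ⟨v, hv⟩
    · exact ord_quot S A Q Nx v (fun n hn h => hv ⟨n, hn, h⟩) g hg

/-- **The two fibrations.** Proof: let `I` be the set of the mixed primes of `A` (containing no element
of `Nx`); by `mixed` and `ord_ext` the mixed primes of `W` (containing no element of `Nt`) are the
same places. `chi_iff` for `A` (`α` the mixed, `β` the vertical places, `E = quotSub Nt`,
`H = quotSub Nx`) and for `W` (`E = quotSub Nx`, `H = quotSub Nt`), `chi_equiv`. The elements of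
`Nt` are units of `A`, those of `Nx` units of `W`. -/
theorem two_fibrations (Nt Nx : Submonoid S) [IsLocalization Nt A] [IsLocalization Nx W]
    (h0 : (0 : S) ∉ Nt) (h0' : (0 : S) ∉ Nx)
    (hA : ∀ q ∈ quotSub S Q Nx, (∀ v : HeightOneSpectrum A, ordZ A Q v q = 0) →
      q ∈ quotSub S Q Nt)
    (hW : ∀ q ∈ quotSub S Q Nt, (∀ v : HeightOneSpectrum W, ordZ W Q v q = 0) →
      q ∈ quotSub S Q Nx) (s s' : ℕ)
    (hs : VertRank (fun v : VertPrimes S A Nx => ordZ A Q v.1) (quotSub S Q Nx) s)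
    (hs' : VertRank (fun v : VertPrimes S W Nt => ordZ W Q v.1) (quotSub S Q Nt) s') (n : ℤ)
    (hχ : Chi (ordZ W Q) (quotSub S Q Nx) n) :
    Chi (ordZ A Q) (quotSub S Q Nt) (n + s - s') := by
  rw [chi_split S W Q Nx Nt hW s' hs' n] at hχ
  rw [chi_split S A Q Nt Nx hA s hs (n + s - s')]
  have hf : ∀ v : MixP S A Nx, ∃ v' : MixP S W Nt, ordZ A Q v.1 = ordZ W Q v'.1 := by
    intro v
    obtain ⟨v', h1, h2⟩ := mixed S A W Q Nt Nx v.1 (fun n hn h => v.2 ⟨n, hn, h⟩)
    exact ⟨⟨v', fun ⟨n, hn, h⟩ => h1 n hn h⟩, h2⟩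
  have hg : ∀ v : MixP S W Nt, ∃ v' : MixP S A Nx, ordZ W Q v.1 = ordZ A Q v'.1 := by
    intro v
    obtain ⟨v', h1, h2⟩ := mixed S W A Q Nx Nt v.1 (fun n hn h => v.2 ⟨n, hn, h⟩)
    exact ⟨⟨v', fun ⟨n, hn, h⟩ => h1 n hn h⟩, h2⟩
  choose f hf using hf
  choose g hg using hg
  let e : MixP S A Nx ≃ MixP S W Nt :=
    { toFun := f
      invFun := g
      left_inv := fun v => Subtype.ext (ord_ext A Q _ _ ((hg (f v)).symm.trans (hf v).symm))
      right_inv := fun v => Subtype.ext (ord_ext W Q _ _ ((hf (g v)).symm.trans (hg v).symm)) }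
  rw [sup_comm] at hχ
  have h1 := (chi_equiv e (fun v : MixP S A Nx => ordZ A Q v.1)
    (fun v : MixP S W Nt => ordZ W Q v.1) hf (quotSub S Q Nt ⊔ quotSub S Q Nx) (n - s')).mpr hχ
  have h2 : n + s - s' - s = n - s' := by ring
  rw [h2]
  exact h1

end

end Pool.Agent.Lib.MP_1a0ddd_nt.Hyp
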