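import Pool.Agent.Lib.MP_1a0ddd_nt.Hyp.AlgC
import Pool.Agent.Lib.MP_1a0ddd_nt.Hyp.Mix
import Pool.Agent.Lib.MP_1a0ddd_nt.Hyp.QRv
import Pool.Agent.Lib.MP_1a0ddd_nt.Hyp.Cnc
import Pool.Agent.Lib.MP_1a0ddd_nt.Quad.Trans
import Pool.Agent.Lib.MP_1a0ddd_nt.Quad.Final4

/-! The rank of a quadratic family over a field. -/

set_option autoImplicit false

namespace Pool.Agent.Lib.MP_1a0ddd_nt.Hyp

open Polynomial Quad IsDedekindDomain Module

variable {L : Type} [Field L] [CharZero L]

/-- the nonzero polynomials in `t`, in the ring of the surface -/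
noncomputable def subT (a b c : L[X]) : Submonoid (SurfRing a b c) :=
  (nonZeroDivisors L[X]).map ((em (quad a b c)).comp (C : L[X] →+* L[X][X]) : L[X] →* SurfRing a b c)

/-- the nonzero polynomials in `x`, in the ring of the surface -/
noncomputable def subX (a b c : L[X]) : Submonoid (SurfRing a b c) :=
  (nonZeroDivisors L[X]).map
    ((em (quad a b c)).comp (mapRingHom (C : L →+* L[X])) : L[X] →* SurfRing a b c)

private theorem isLoc_of {S A : Type} [CommRing S] [CommRing A] (f : S →+* A)
    (hf : Function.Injective f) (M : Submonoid S) (hu : ∀ m ∈ M, IsUnit (f m))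
    (hs : ∀ z : A, ∃ m ∈ M, ∃ s, f m * z = f s) : @IsLocalization _ _ M A _ f.toAlgebra := by
  let _ := f.toAlgebra
  exact
    { map_units := fun m => hu m.1 m.2
      surj := fun z => by
        obtain ⟨m, hm, s, e⟩ := hs z
        exact ⟨(s, ⟨m, hm⟩), by rw [mul_comm]; exact e⟩
      exists_of_eq := fun {x y} e => ⟨1, by rw [hf e]⟩ }

private theorem unit_W (a b c w : L[X]) (hw : w ≠ 0) :
    IsUnit (sW a b c (em (quad a b c) (w.map C))) := by
  unfold sW
  rw [mp_em, toW_map_C]
  refine IsUnit.map _ (IsUnit.map _ (isUnit_iff_ne_zero.mpr ?_))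
  rwa [Ne, map_eq_zero_iff _ (IsFractionRing.injective L[X] (RatFunc L))]

/-- `L(t)[x, y]/(y² - F)` is the localisation of `L[t, x, y]/(y² - F)` at the polynomials in `t` -/
theorem isLocalization_A (a b c : L[X]) :
    @IsLocalization _ _ (subT a b c) (CoordRing2 a b c) _ (sA a b c).toAlgebra := by
  refine isLoc_of (sA a b c) (mp_injective _ _ toK_injective) _ ?_ fun z => ?_
  · rintro _ ⟨τ, hτ, rfl⟩
    exact unit_A a b c τ (nonZeroDivisors.ne_zero hτ)
  · obtain ⟨τ, s, hτ, e⟩ := clear_A a b c z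
    exact ⟨_, ⟨τ, mem_nonZeroDivisors_of_ne_zero hτ, rfl⟩, s, e⟩

/-- `L(x)[t, y]/(y² - F)` is the localisation at the polynomials in `x` -/
theorem isLocalization_W (a b c : L[X]) :
    @IsLocalization _ _ (subX a b c) (ConicRing a b c) _ (sW a b c).toAlgebra := by
  refine isLoc_of (sW a b c) (mp_injective _ _ toW_injective) _ ?_ fun z => ?_
  · rintro _ ⟨w, hw, rfl⟩
    exact unit_W a b c w (nonZeroDivisors.ne_zero hw)
  · obtain ⟨w, s, hw, e⟩ := clear_W a b c z
    exact ⟨_, ⟨w, mem_nonZeroDivisors_of_ne_zero hw, rfl⟩, s, e⟩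

private theorem mem_subT {a b c : L[X]} (s : SurfRing a b c) :
    s ∈ subT a b c ↔ ∃ w : L[X], w ≠ 0 ∧ em (quad a b c) (C w) = s := by
  constructor
  · rintro ⟨w, hw, rfl⟩
    exact ⟨w, nonZeroDivisors.ne_zero hw, rfl⟩
  · rintro ⟨w, hw, rfl⟩
    exact ⟨w, mem_nonZeroDivisors_of_ne_zero hw, rfl⟩

private theorem mem_subX {a b c : L[X]} (s : SurfRing a b c) :
    s ∈ subX a b c ↔ ∃ w : L[X], w ≠ 0 ∧ em (quad a b c) (w.map C) = s := by
  constructor
  · rintro ⟨w, hw, rfl⟩
    exact ⟨w, nonZeroDivisors.ne_zero hw, rfl⟩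
  · rintro ⟨w, hw, rfl⟩
    exact ⟨w, mem_nonZeroDivisors_of_ne_zero hw, rfl⟩

/-- the rank, for all algebra structures -/
private theorem core {a b c : L[X]} (h : Base2 a b c)
    (hpos : 0 < (quad a b c).natDegree) (Q : Type) [Field Q]
    [Algebra (SurfRing a b c) (CoordRing2 a b c)] [Algebra (SurfRing a b c) (ConicRing a b c)]
    (hsA : ∀ s, algebraMap (SurfRing a b c) (CoordRing2 a b c) s = sA a b c s)
    (hsW : ∀ s, algebraMap (SurfRing a b c) (ConicRing a b c) s = sW a b c s)
    [Algebra (SurfRing a b c) Q] [Algebra (CoordRing2 a b c) Q] [Algebra (ConicRing a b c) Q]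
    [IsScalarTower (SurfRing a b c) (CoordRing2 a b c) Q]
    [IsScalarTower (SurfRing a b c) (ConicRing a b c) Q]
    [IsFractionRing (CoordRing2 a b c) Q] [IsFractionRing (ConicRing a b c) Q]
    [IsDomain (SurfRing a b c)] [IsDedekindDomain (CoordRing2 a b c)]
    [IsDedekindDomain (ConicRing a b c)] [IsLocalization (subT a b c) (CoordRing2 a b c)]
    [IsLocalization (subX a b c) (ConicRing a b c)] (h0 : (0 : SurfRing a b c) ∉ subT a b c)
    (h0' : (0 : SurfRing a b c) ∉ subX a b c) :
    Chi (ordZ (CoordRing2 a b c) Q)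
      (kGrp (((algebraMap (CoordRing2 a b c) Q).comp (em (toK L (quad a b c)))).comp C))
      (famRank a b c) := by
  classical
  have hT : quotSub (SurfRing a b c) Q (subT a b c) =
      kGrp (((algebraMap (CoordRing2 a b c) Q).comp (em (toK L (quad a b c)))).comp C) := by
    rw [← span_w]
    unfold quotSub
    congr 1
    ext q
    constructor
    · rintro ⟨n, hn, e⟩
      obtain ⟨w, hw, rfl⟩ := (mem_subT n).1 hn
      refine ⟨w, hw, ?_⟩
      rw [e, IsScalarTower.algebraMap_apply (SurfRing a b c) (CoordRing2 a b c) Q, hsA, sA_C]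
      rfl
    · rintro ⟨w, hw, e⟩
      refine ⟨_, (mem_subT _).2 ⟨w, hw, rfl⟩, ?_⟩
      rw [e, IsScalarTower.algebraMap_apply (SurfRing a b c) (CoordRing2 a b c) Q, hsA, sA_C]
      rfl
  have hX : quotSub (SurfRing a b c) Q (subX a b c) =
      kGrp (((algebraMap (ConicRing a b c) Q).comp (em (toW L (quad a b c)))).comp C) := by
    rw [← span_w]
    unfold quotSub
    congr 1
    ext q
    constructor
    · rintro ⟨n, hn, e⟩
      obtain ⟨w, hw, rfl⟩ := (mem_subX n).1 hn
      refine ⟨w, hw, ?_⟩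
      rw [e, IsScalarTower.algebraMap_apply (SurfRing a b c) (ConicRing a b c) Q, hsW, sW_X]
      rfl
    · rintro ⟨w, hw, e⟩
      refine ⟨_, (mem_subX _).2 ⟨w, hw, rfl⟩, ?_⟩
      rw [e, IsScalarTower.algebraMap_apply (SurfRing a b c) (ConicRing a b c) Q, hsW, sW_X]
      rfl
  have hXA : quotSub (SurfRing a b c) Q (subX a b c) = Submodule.span ℤ {q : Additive Qˣ |
      ∃ w : L[X], w ≠ 0 ∧ ((Additive.toMul q : Qˣ) : Q) =
        algebraMap (CoordRing2 a b c) Q (em (toK L (quad a b c)) (up w))} := by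
    unfold quotSub
    congr 1
    ext q
    constructor
    · rintro ⟨n, hn, e⟩
      obtain ⟨w, hw, rfl⟩ := (mem_subX n).1 hn
      refine ⟨w, hw, ?_⟩
      rw [e, IsScalarTower.algebraMap_apply (SurfRing a b c) (CoordRing2 a b c) Q, hsA, sA_em]
      rfl
    · rintro ⟨w, hw, e⟩
      refine ⟨_, (mem_subX _).2 ⟨w, hw, rfl⟩, ?_⟩
      rw [e, IsScalarTower.algebraMap_apply (SurfRing a b c) (CoordRing2 a b c) Q, hsA, sA_em]
      rfl
  have hTW : quotSub (SurfRing a b c) Q (subT a b c) = Submodule.span ℤ {q : Additive Qˣ |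
      ∃ w : L[X], w ≠ 0 ∧ ((Additive.toMul q : Qˣ) : Q) =
        algebraMap (ConicRing a b c) Q (em (toW L (quad a b c)) (up w))} := by
    unfold quotSub
    congr 1
    ext q
    constructor
    · rintro ⟨n, hn, e⟩
      obtain ⟨w, hw, rfl⟩ := (mem_subT n).1 hn
      refine ⟨w, hw, ?_⟩
      rw [e, IsScalarTower.algebraMap_apply (SurfRing a b c) (ConicRing a b c) Q, hsW, sW_C]
    · rintro ⟨w, hw, e⟩
      refine ⟨_, (mem_subT _).2 ⟨w, hw, rfl⟩, ?_⟩
      rw [e, IsScalarTower.algebraMap_apply (SurfRing a b c) (ConicRing a b c) Q, hsW, sW_C]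
  have hA : ∀ q ∈ quotSub (SurfRing a b c) Q (subX a b c),
      (∀ v : HeightOneSpectrum (CoordRing2 a b c), ordZ (CoordRing2 a b c) Q v q = 0) →
      q ∈ quotSub (SurfRing a b c) Q (subT a b c) := by
    intro q hq hv
    rw [hXA] at hq
    obtain ⟨k, hk, e⟩ := const_of_ord (toK L (quad a b c)) Q q hq hv
    rw [hT, mem_kGrp]
    exact ⟨RatFunc.C k, by rwa [Ne, map_eq_zero], e⟩
  have hW : ∀ q ∈ quotSub (SurfRing a b c) Q (subT a b c),
      (∀ v : HeightOneSpectrum (ConicRing a b c), ordZ (ConicRing a b c) Q v q = 0) →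
      q ∈ quotSub (SurfRing a b c) Q (subX a b c) := by
    intro q hq hv
    rw [hTW] at hq
    obtain ⟨k, hk, e⟩ := const_of_ord (toW L (quad a b c)) Q q hq hv
    rw [hX, mem_kGrp]
    exact ⟨RatFunc.C k, by rwa [Ne, map_eq_zero], e⟩
  have hs : VertRank (fun v : VertPrimes (SurfRing a b c) (CoordRing2 a b c) (subX a b c) =>
      ordZ (CoordRing2 a b c) Q v.1) (quotSub (SurfRing a b c) Q (subX a b c))
      (splitSet a b c).ncard := by
    refine vertRank_congr (fun v : HeightOneSpectrum (CoordRing2 a b c) =>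
      ordZ (CoordRing2 a b c) Q v) ?_ hXA.symm ?_
      (vert_QR (toK L (quad a b c)) (toK_squarefree h) (toK_not_isSquare h)
        (by rw [vSet_toK]; exact splitSet_finite h.disc_ne) Q)
    · intro v
      constructor
      · rintro ⟨w, hw, hv⟩
        exact ⟨_, (mem_subX _).2 ⟨w, hw, rfl⟩, by rw [hsA, sA_em]; exact hv⟩
      · rintro ⟨n, hn, hv⟩
        obtain ⟨w, hw, rfl⟩ := (mem_subX n).1 hn
        rw [hsA, sA_em] at hv
        exact ⟨w, hw, hv⟩
    · rw [vSet_toK]
  have hs' : VertRank (fun v : VertPrimes (SurfRing a b c) (ConicRing a b c) (subT a b c) =>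
      ordZ (ConicRing a b c) Q v.1) (quotSub (SurfRing a b c) Q (subT a b c))
      (memSet (quad a b c)).ncard := by
    refine vertRank_congr (fun v : HeightOneSpectrum (ConicRing a b c) =>
      ordZ (ConicRing a b c) Q v) ?_ hTW.symm ?_
      (vert_QR (toW L (quad a b c)) (toW_squarefree h) (toW_not_isSquare h)
        (by rw [vSet_toW]; exact memSet_finite h hpos) Q)
    · intro v
      constructor
      · rintro ⟨w, hw, hv⟩
        exact ⟨_, (mem_subT _).2 ⟨w, hw, rfl⟩, by rw [hsW, sW_C]; exact hv⟩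
      · rintro ⟨n, hn, hv⟩
        obtain ⟨w, hw, rfl⟩ := (mem_subT n).1 hn
        rw [hsW, sW_C] at hv
        exact ⟨w, hw, hv⟩
    · rw [vSet_toW]
  have hχ := conic_L h (toW L (quad a b c)) (toW_quad a b c) Q
  rw [← hX] at hχ
  have h9 := two_fibrations (SurfRing a b c) (CoordRing2 a b c) (ConicRing a b c) Q
    (subT a b c) (subX a b c) h0 h0' hA hW _ _ hs hs' _ hχ
  rw [← hT]
  have e : famRank a b c = -(if a ≠ 0 ∧ IsSquare a then 1 else 0) + ((splitSet a b c).ncard : ℤ) -
      (memSet (quad a b c)).ncard := by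
    unfold famRank
    ring
  rw [e]
  exact h9

/-- Assembly. `Q` = the fraction field of the curve ring (or of the surface ring), with compatible
algebra structures; `two_fibrations` for `S` the surface ring, `A` the curve ring, `W` the conic
ring, `Nt = subT`, `Nx = subX`; `vert_QR` for `toK` and `toW`, `vSet_toK`, `vSet_toW`,
`splitSet_finite`, `memSet_finite`; `conic_chi` for `κ = L(x)` (`toW_quad`; `a` is a square in
`L(x)` iff in `L[x]`); `hA`: a quotient of polynomials in `x` which is a unit of the curve ring is a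
constant (every nonconstant `w(x)` is contained in a prime), same for `hW`; `chi_of_class` for the
curve ring; `Pic` and the class group of a domain. `overLt L F` is `toK L F` and `CurveRing` is
`QR` by definition. -/
theorem curve_rank {a b c : L[X]} (h : Base2 a b c) (hpos : 0 < (quad a b c).natDegree) :
    CurveRank (overLt L (quad a b c)) (famRank a b c) := by
  have hA1 : IsDedekindDomain (CoordRing2 a b c) := isDedekind2 h
  have h2 : IsUnit (2 : (RatFunc L)[X]) := by
    have h1 : (2 : (RatFunc L)[X]) = C (2 : RatFunc L) := (C_ofNat 2).symm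
    rw [h1, isUnit_C]
    have : CharZero (RatFunc L) := charZero_of_injective_algebraMap
      (algebraMap L (RatFunc L)).injective
    exact IsUnit.mk0 _ two_ne_zero
  have hW1 : IsDedekindDomain (ConicRing a b c) :=
    isDedekindDomain_QR h2 (toW_squarefree h) (toW_not_isSquare h)
  have hiA : Function.Injective (sA a b c) := mp_injective _ _ toK_injective
  have hS : IsDomain (SurfRing a b c) := hiA.isDomain _
  have h0 : (0 : SurfRing a b c) ∉ subT a b c := by
    rw [mem_subT]
    rintro ⟨w, hw, e⟩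
    exact hw (C_injective (em_injective _ (by rw [e, C_0, map_zero])))
  have h0' : (0 : SurfRing a b c) ∉ subX a b c := by
    rw [mem_subX]
    rintro ⟨w, hw, e⟩
    exact hw (map_injective C C_injective (em_injective _ (by
      rw [e, Polynomial.map_zero, map_zero])))
  have hle : subT a b c ≤ nonZeroDivisors (SurfRing a b c) :=
    le_nonZeroDivisors_of_noZeroDivisors h0
  have hle' : subX a b c ≤ nonZeroDivisors (SurfRing a b c) :=
    le_nonZeroDivisors_of_noZeroDivisors h0'
  let i1 : Algebra (SurfRing a b c) (CoordRing2 a b c) := (sA a b c).toAlgebra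
  let i2 : Algebra (SurfRing a b c) (ConicRing a b c) := (sW a b c).toAlgebra
  have i3 : IsLocalization (subT a b c) (CoordRing2 a b c) := isLocalization_A a b c
  have i4 : IsLocalization (subX a b c) (ConicRing a b c) := isLocalization_W a b c
  let i5 : Algebra (CoordRing2 a b c) (FractionRing (SurfRing a b c)) :=
    IsLocalization.localizationAlgebraOfSubmonoidLe _ _ (subT a b c) (nonZeroDivisors (SurfRing a b c)) hle
  let i6 : Algebra (ConicRing a b c) (FractionRing (SurfRing a b c)) :=
    IsLocalization.localizationAlgebraOfSubmonoidLe _ _ (subX a b c) (nonZeroDivisors (SurfRing a b c)) hle'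
  have i7 : IsScalarTower (SurfRing a b c) (CoordRing2 a b c) (FractionRing (SurfRing a b c)) :=
    IsLocalization.localization_isScalarTower_of_submonoid_le _ _ (subT a b c) _ hle
  have i8 : IsScalarTower (SurfRing a b c) (ConicRing a b c) (FractionRing (SurfRing a b c)) :=
    IsLocalization.localization_isScalarTower_of_submonoid_le _ _ (subX a b c) _ hle'
  have i9 : IsFractionRing (CoordRing2 a b c) (FractionRing (SurfRing a b c)) :=
    IsFractionRing.isFractionRing_of_isDomain_of_isLocalization (subT a b c) _ _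
  have i10 : IsFractionRing (ConicRing a b c) (FractionRing (SurfRing a b c)) :=
    IsFractionRing.isFractionRing_of_isDomain_of_isLocalization (subX a b c) _ _
  exact rank_of_chi (toK L (quad a b c)) (FractionRing (SurfRing a b c)) _
    (core h hpos (FractionRing (SurfRing a b c)) (fun _ => rfl) (fun _ => rfl) h0 h0')

end Pool.Agent.Lib.MP_1a0ddd_nt.Hyp
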