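import Pool.Agent.Lib.MP_1a0ddd_nt.Hyp.Mix
import Pool.Agent.Lib.MP_1a0ddd_nt.Hyp.QRv
import Pool.Agent.Lib.MP_1a0ddd_nt.Hyp.Cnc
import Pool.Agent.Lib.MP_1a0ddd_nt.Quad.Trans
import Pool.Agent.Lib.MP_1a0ddd_nt.Quad.Final4

/-! Lemmas for the assembly in `Alg.lean`: constants, quotients, squares. -/

set_option autoImplicit false

namespace Pool.Agent.Lib.MP_1a0ddd_nt.Hyp

open Polynomial Quad IsDedekindDomain Module

variable {L : Type} [Field L]

theorem vertRank_congr {G V : Type} [AddCommGroup G] (β : V → G →ₗ[ℤ] ℤ)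
    {p p' : V → Prop} (h : ∀ v, p v ↔ p' v) {H H' : Submodule ℤ G} (hH : H = H') {s s' : ℕ}
    (hs : s = s') (h1 : VertRank (fun v : {v // p v} => β v.1) H s) :
    VertRank (fun v : {v // p' v} => β v.1) H' s' := by
  obtain rfl : p = p' := funext fun v => propext (h v)
  subst hH hs
  exact h1

/-- the group of the nonzero constants -/
noncomputable def kGrp {κ Q : Type} [Field κ] [Field Q] (f : κ →+* Q) : Submodule ℤ (Additive Qˣ) :=
  AddSubgroup.toIntSubmodule (Subgroup.toAddSubgroup (Units.map (f : κ →* Q)).range)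

theorem mem_kGrp {κ Q : Type} [Field κ] [Field Q] (f : κ →+* Q) (q : Additive Qˣ) :
    q ∈ kGrp f ↔ ∃ k : κ, k ≠ 0 ∧ ((Additive.toMul q : Qˣ) : Q) = f k := by
  constructor
  · rintro ⟨k, hk⟩
    refine ⟨k, k.ne_zero, ?_⟩
    have h := congrArg (fun u : Qˣ => (u : Q)) hk
    exact h.symm
  · rintro ⟨k, hk, e⟩
    refine ⟨Units.mk0 k hk, ?_⟩
    refine Units.ext ?_
    exact e.symm

theorem span_k {κ Q : Type} [Field κ] [Field Q] (f : κ →+* Q) :
    Submodule.span ℤ {q : Additive Qˣ | ∃ k : κ, k ≠ 0 ∧ ((Additive.toMul q : Qˣ) : Q) = f k} =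
      kGrp f := by
  have h : {q : Additive Qˣ | ∃ k : κ, k ≠ 0 ∧ ((Additive.toMul q : Qˣ) : Q) = f k} =
      (kGrp f : Set (Additive Qˣ)) := by
    ext q
    exact (mem_kGrp f q).symm
  rw [h, Submodule.span_eq]

theorem span_w {Q : Type} [Field Q] (f : RatFunc L →+* Q) :
    Submodule.span ℤ {q : Additive Qˣ | ∃ w : L[X], w ≠ 0 ∧
      ((Additive.toMul q : Qˣ) : Q) = f (algebraMap L[X] (RatFunc L) w)} = kGrp f := by
  apply le_antisymm
  · rw [Submodule.span_le]
    rintro q ⟨w, hw, e⟩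
    rw [SetLike.mem_coe, mem_kGrp]
    refine ⟨_, ?_, e⟩
    rwa [Ne, map_eq_zero_iff _ (IsFractionRing.injective L[X] (RatFunc L))]
  · intro q hq
    rw [mem_kGrp] at hq
    obtain ⟨k, hk, e⟩ := hq
    obtain ⟨w1, w2, hw2, rfl⟩ := IsFractionRing.div_surjective (A := L[X]) k
    have h2 : algebraMap L[X] (RatFunc L) w2 ≠ 0 := by
      rw [Ne, map_eq_zero_iff _ (IsFractionRing.injective L[X] (RatFunc L))]
      exact nonZeroDivisors.ne_zero hw2
    have h1 : algebraMap L[X] (RatFunc L) w1 ≠ 0 := by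
      intro h
      exact hk (by rw [h, zero_div])
    have h1' : w1 ≠ 0 := by
      rintro rfl
      exact h1 (map_zero _)
    have f1 : f (algebraMap L[X] (RatFunc L) w1) ≠ 0 := (map_ne_zero f).2 h1
    have f2 : f (algebraMap L[X] (RatFunc L) w2) ≠ 0 := (map_ne_zero f).2 h2
    have e3 : q = Additive.ofMul (Units.mk0 _ f1) - Additive.ofMul (Units.mk0 _ f2) := by
      apply Additive.toMul.injective
      apply Units.ext
      rw [toMul_sub, toMul_ofMul, toMul_ofMul, e, map_div₀, Units.val_div_eq_div_val,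
        Units.val_mk0, Units.val_mk0]
    rw [e3]
    exact Submodule.sub_mem _ (Submodule.subset_span ⟨w1, h1', rfl⟩)
      (Submodule.subset_span ⟨w2, nonZeroDivisors.ne_zero hw2, rfl⟩)

theorem up_inj : Function.Injective (up : L[X] → (RatFunc L)[X]) :=
  map_injective _ (RatFunc.C : L →+* RatFunc L).injective

/-- a coprime quotient of polynomials with coefficients in `L` -/
theorem quot_up {Q : Type} [Field Q] (f : (RatFunc L)[X] →+* Q)
    (hf : Function.Injective f) (q : Additive Qˣ)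
    (hq : q ∈ Submodule.span ℤ {q : Additive Qˣ | ∃ w : L[X], w ≠ 0 ∧
      ((Additive.toMul q : Qˣ) : Q) = f (up w)}) : ∃ w1 w2 : L[X], IsCoprime w1 w2 ∧
        w1 ≠ 0 ∧ w2 ≠ 0 ∧ ((Additive.toMul q : Qˣ) : Q) * f (up w2) = f (up w1) := by
  classical
  have key : ∃ w1 w2 : L[X], w1 ≠ 0 ∧ w2 ≠ 0 ∧
      ((Additive.toMul q : Qˣ) : Q) * f (up w2) = f (up w1) := by
    induction hq using Submodule.span_induction with
    | mem q hq =>
      obtain ⟨w, hw, e⟩ := hq
      exact ⟨w, 1, hw, one_ne_zero, by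
        rw [e, show up (1 : L[X]) = 1 from Polynomial.map_one _, map_one, mul_one]⟩
    | zero => exact ⟨1, 1, one_ne_zero, one_ne_zero, by simp⟩
    | add x y _ _ hx hy =>
      obtain ⟨w1, w2, h1, h2, e⟩ := hx
      obtain ⟨w1', w2', h1', h2', e'⟩ := hy
      refine ⟨w1 * w1', w2 * w2', mul_ne_zero h1 h1', mul_ne_zero h2 h2', ?_⟩
      rw [toMul_add, Units.val_mul, up, up, Polynomial.map_mul, Polynomial.map_mul, map_mul,
        map_mul, ← e, ← e']
      ring
    | smul a x _ hx =>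
      obtain ⟨w1, w2, h1, h2, e⟩ := hx
      have g1 : f (up w1) ≠ 0 := (map_ne_zero_iff f hf).2
        ((Polynomial.map_ne_zero_iff (RatFunc.C : L →+* RatFunc L).injective).2 h1)
      have g2 : f (up w2) ≠ 0 := (map_ne_zero_iff f hf).2
        ((Polynomial.map_ne_zero_iff (RatFunc.C : L →+* RatFunc L).injective).2 h2)
      obtain ⟨k, rfl | rfl⟩ := Int.eq_nat_or_neg a
      · refine ⟨w1 ^ k, w2 ^ k, pow_ne_zero _ h1, pow_ne_zero _ h2, ?_⟩
        rw [natCast_zsmul, toMul_nsmul, Units.val_pow_eq_pow_val, up, up, Polynomial.map_pow,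
          Polynomial.map_pow, map_pow, map_pow, ← mul_pow, e]
      · refine ⟨w2 ^ k, w1 ^ k, pow_ne_zero _ h2, pow_ne_zero _ h1, ?_⟩
        rw [neg_smul, natCast_zsmul, toMul_neg, toMul_nsmul, Units.val_inv_eq_inv_val,
          Units.val_pow_eq_pow_val, up, up, Polynomial.map_pow, Polynomial.map_pow, map_pow, map_pow,
          inv_mul_eq_iff_eq_mul₀ (pow_ne_zero _ (Units.ne_zero _)), ← mul_pow, e]
  obtain ⟨w1, w2, h1, h2, e⟩ := key
  obtain ⟨g, hg⟩ : ∃ g, g = EuclideanDomain.gcd w1 w2 := ⟨_, rfl⟩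
  obtain ⟨a, ha⟩ := EuclideanDomain.gcd_dvd_left w1 w2
  obtain ⟨b, hb⟩ := EuclideanDomain.gcd_dvd_right w1 w2
  rw [← hg] at ha hb
  have hg0 : g ≠ 0 := by
    rintro rfl
    exact h1 (by rw [ha, zero_mul])
  refine ⟨a, b, ?_, ?_, ?_, ?_⟩
  · obtain ⟨A, B, hAB⟩ : ∃ A B, g = w1 * A + w2 * B :=
      ⟨_, _, hg.trans (EuclideanDomain.gcd_eq_gcd_ab w1 w2)⟩
    refine ⟨A, B, ?_⟩
    apply mul_left_cancel₀ hg0
    calc g * (A * a + B * b) = (g * a) * A + (g * b) * B := by ring
      _ = w1 * A + w2 * B := by rw [← ha, ← hb]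
      _ = g * 1 := by rw [mul_one, ← hAB]
  · rintro rfl
    exact h1 (by rw [ha, mul_zero])
  · rintro rfl
    exact h2 (by rw [hb, mul_zero])
  · have g3 : f (up g) ≠ 0 := (map_ne_zero_iff f hf).2
        ((Polynomial.map_ne_zero_iff (RatFunc.C : L →+* RatFunc L).injective).2 hg0)
    apply mul_left_cancel₀ g3
    rw [ha, hb, up, up, Polynomial.map_mul, Polynomial.map_mul, map_mul, map_mul] at e
    rw [← e]
    ring

/-- a quotient of polynomials with coefficients in `L` all whose orders are zero is a constant -/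
theorem const_of_ord (P : (RatFunc L)[X]) [IsDedekindDomain (QR P)] (Q : Type) [Field Q]
    [Algebra (QR P) Q] [IsFractionRing (QR P) Q] (q : Additive Qˣ)
    (hq : q ∈ Submodule.span ℤ {q : Additive Qˣ | ∃ w : L[X], w ≠ 0 ∧
      ((Additive.toMul q : Qˣ) : Q) = algebraMap (QR P) Q (em P (up w))})
    (h0 : ∀ v : HeightOneSpectrum (QR P), ordZ (QR P) Q v q = 0) :
    ∃ k : L, k ≠ 0 ∧
      ((Additive.toMul q : Qˣ) : Q) = algebraMap (QR P) Q (em P (C (RatFunc.C k))) := by
  have hup : Function.Injective (up : L[X] → (RatFunc L)[X]) := up_inj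
  have hinj : Function.Injective ((algebraMap (QR P) Q).comp (em P)) :=
    (IsFractionRing.injective (QR P) Q).comp (em_injective P)
  obtain ⟨w1, w2, hc, h1, h2, e⟩ := quot_up ((algebraMap (QR P) Q).comp (em P)) hinj q hq
  have hne : ∀ w : L[X], w ≠ 0 → algebraMap (QR P) Q (em P (up w)) ≠ 0 := by
    intro w hw h
    have h3 : up w = 0 := hinj (by rw [map_zero]; exact h)
    exact hw ((Polynomial.map_eq_zero_iff (RatFunc.C : L →+* RatFunc L).injective).1 h3)
  have key : ∀ w w' : L[X], w ≠ 0 → IsCoprime w w' →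
      (∀ v : HeightOneSpectrum (QR P), em P (up w) ∈ v.asIdeal → em P (up w') ∈ v.asIdeal) →
        ∃ k : L, w = C k := by
    intro w w' hw hc hv
    by_contra hu
    have h3 : ¬ IsUnit (em P (up w)) := by
      intro h
      have h5 := natDegree_eq_zero_of_isUnit (isUnit_of_em P h)
      rw [up, natDegree_map_eq_of_injective (RatFunc.C : L →+* RatFunc L).injective] at h5
      exact hu ⟨_, eq_C_of_natDegree_eq_zero h5⟩
    obtain ⟨M, hM, hwM⟩ := exists_max_ideal_of_mem_nonunits h3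
    have hM0 : M ≠ ⊥ := by
      rintro rfl
      rw [Ideal.mem_bot] at hwM
      exact hne w hw (by rw [hwM, map_zero])
    have h6 : em P (up w') ∈ M := hv ⟨M, hM.isPrime, hM0⟩ hwM
    obtain ⟨a, b, hab⟩ := hc
    apply hM.ne_top
    rw [Ideal.eq_top_iff_one]
    have h7 : (1 : QR P) = em P (up a) * em P (up w) + em P (up b) * em P (up w') := by
      rw [← map_mul, ← map_mul, ← map_add, up, up, up, up, ← Polynomial.map_mul,
        ← Polynomial.map_mul, ← Polynomial.map_add, hab, Polynomial.map_one, map_one]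
    rw [h7]
    exact M.add_mem (M.mul_mem_left _ hwM) (M.mul_mem_left _ h6)
  have hord : ∀ v : HeightOneSpectrum (QR P),
      (em P (up w1) ∈ v.asIdeal ↔ em P (up w2) ∈ v.asIdeal) := by
    intro v
    rw [← ord_pos_iff (QR P) Q v (Units.mk0 _ (hne w1 h1)) _ rfl,
      ← ord_pos_iff (QR P) Q v (Units.mk0 _ (hne w2 h2)) _ rfl]
    have e2 : q + Additive.ofMul (Units.mk0 _ (hne w2 h2)) =
        Additive.ofMul (Units.mk0 _ (hne w1 h1)) := by
      apply Additive.toMul.injective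
      apply Units.ext
      rw [toMul_add, Units.val_mul, toMul_ofMul, toMul_ofMul, Units.val_mk0, Units.val_mk0]
      exact e
    rw [← e2, map_add, h0 v, zero_add]
  obtain ⟨k1, rfl⟩ := key w1 w2 h1 hc fun v => (hord v).1
  obtain ⟨k2, rfl⟩ := key w2 (C k1) h2 hc.symm fun v => (hord v).2
  have hk1 : k1 ≠ 0 := fun h => h1 (by rw [h, C_0])
  have hk2 : k2 ≠ 0 := fun h => h2 (by rw [h, C_0])
  refine ⟨k1 / k2, div_ne_zero hk1 hk2, ?_⟩
  have e3 : up (C k1) = C (RatFunc.C (k1 / k2)) * up (C k2) := by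
    rw [up, up, map_C, map_C, ← C_mul, ← map_mul, div_mul_cancel₀ _ hk2]
  have e4 := e
  rw [e3] at e4
  apply mul_right_cancel₀ (hne (C k2) h2)
  rw [← map_mul, ← map_mul]
  exact e4

theorem sA_C (a b c w : L[X]) : sA a b c (em (quad a b c) (C w)) =
    em (toK L (quad a b c)) (C (algebraMap L[X] (RatFunc L) w)) := by
  unfold sA
  have g : toK L (C w) = C (algebraMap L[X] (RatFunc L) w) := by rw [coe_mapRingHom, map_C]
  rw [mp_em, g]

theorem sW_C (a b c w : L[X]) : sW a b c (em (quad a b c) (C w)) =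
    em (toW L (quad a b c)) (up w) := by
  unfold sW
  rw [mp_em, toW_C]

theorem sW_X (a b c w : L[X]) : sW a b c (em (quad a b c) (w.map C)) =
    em (toW L (quad a b c)) (C (algebraMap L[X] (RatFunc L) w)) := by
  unfold sW
  rw [mp_em, toW_map_C]

/-- squares in `L(x)` and in `L[x]` -/
theorem sq_iff (a : L[X]) : (algebraMap L[X] (RatFunc L) a ≠ 0 ∧
    IsSquare (algebraMap L[X] (RatFunc L) a)) ↔ (a ≠ 0 ∧ IsSquare a) := by
  have hinj := IsFractionRing.injective L[X] (RatFunc L)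
  constructor
  · rintro ⟨h0, s, hs⟩
    refine ⟨fun h => h0 (by rw [h, map_zero]), ?_⟩
    have h1 : IsIntegral L[X] (s ^ 2) := by
      rw [pow_two, ← hs]
      exact isIntegral_algebraMap
    obtain ⟨y, rfl⟩ := IsIntegrallyClosed.exists_algebraMap_eq_of_isIntegral_pow two_pos h1
    rw [← map_mul] at hs
    exact ⟨y, hinj hs⟩
  · rintro ⟨h0, s, hs⟩
    refine ⟨fun h => h0 (hinj (by rw [h, map_zero])), algebraMap L[X] (RatFunc L) s, ?_⟩
    rw [hs, map_mul]

open Classical in
/-- the characteristic of the conic over `L(x)` -/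
theorem conic_L [CharZero L] {a b c : L[X]} (h : Base2 a b c) (P : (RatFunc L)[X])
    (hP : P = cq (algebraMap L[X] (RatFunc L) a) (algebraMap L[X] (RatFunc L) b)
      (algebraMap L[X] (RatFunc L) c)) [IsDedekindDomain (QR P)] (Q : Type) [Field Q]
    [Algebra (QR P) Q] [IsFractionRing (QR P) Q] :
    Chi (ordZ (QR P) Q) (kGrp (((algebraMap (QR P) Q).comp (em P)).comp C))
      (-(if a ≠ 0 ∧ IsSquare a then 1 else 0)) := by
  subst hP
  have hinj := IsFractionRing.injective L[X] (RatFunc L)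
  have h2 : (2 : RatFunc L) ≠ 0 := by
    have h1 : (2 : RatFunc L) = algebraMap L[X] (RatFunc L) 2 := by rw [map_ofNat]
    rw [h1, Ne, map_eq_zero_iff _ hinj]
    exact two_ne_zero
  have hd : (algebraMap L[X] (RatFunc L) b) ^ 2 - algebraMap L[X] (RatFunc L) a *
      algebraMap L[X] (RatFunc L) c ≠ 0 := by
    rw [← map_pow, ← map_mul, ← map_sub, Ne, map_eq_zero_iff _ hinj]
    exact h.disc_ne
  have h3 := conic_chi h2 (algebraMap L[X] (RatFunc L) a) (algebraMap L[X] (RatFunc L) b)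
    (algebraMap L[X] (RatFunc L) c) hd Q
  rw [← span_k]
  have e : (if a ≠ 0 ∧ IsSquare a then (1 : ℤ) else 0) =
      if (algebraMap L[X] (RatFunc L) a ≠ 0 ∧ IsSquare (algebraMap L[X] (RatFunc L) a)) then 1
      else 0 := by
    simp only [sq_iff]
  rw [e]
  exact h3

/-- units modulo a subgroup, written additively -/
theorem quot_equiv {G : Type} [CommGroup G] (U : Subgroup G) :
    Nonempty ((Additive G ⧸ AddSubgroup.toIntSubmodule (Subgroup.toAddSubgroup U)) ≃ₗ[ℤ]
      Additive (G ⧸ U)) := by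
  let f : Additive G →ₗ[ℤ] Additive (G ⧸ U) :=
    (MonoidHom.toAdditive (QuotientGroup.mk' U)).toIntLinearMap
  have hf : Function.Surjective f := fun y => by
    obtain ⟨x, hx⟩ := QuotientGroup.mk'_surjective U (Additive.toMul y)
    exact ⟨Additive.ofMul x, hx⟩
  have hk : AddSubgroup.toIntSubmodule (Subgroup.toAddSubgroup U) = LinearMap.ker f := by
    ext x
    rw [LinearMap.mem_ker]
    exact (QuotientGroup.eq_one_iff (N := U) (Additive.toMul x)).symm
  exact ⟨(Submodule.quotEquivOfEq _ _ hk).trans (f.quotKerEquivOfSurjective hf)⟩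

/-- from the orders to the curve -/
theorem rank_of_chi {κ : Type} [Field κ] (F : κ[X]) [hD : IsDedekindDomain (QR F)]
    (Q : Type) [Field Q] [Algebra (QR F) Q] [IsFractionRing (QR F) Q] (n : ℤ)
    (h : Chi (ordZ (QR F) Q) (kGrp (((algebraMap (QR F) Q).comp (em F)).comp C)) n) :
    CurveRank F n := by
  have h1 := (chi_of_class (QR F) Q (kGrp (((algebraMap (QR F) Q).comp (em F)).comp C))
    (Units.map (curveConst F : κ →* CurveRing F)).range (fun q => by
      constructor
      · rintro ⟨k, hk⟩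
        refine ⟨Units.map (curveConst F : κ →* CurveRing F) k, ⟨k, rfl⟩, ?_⟩
        have e := congrArg (fun u : Qˣ => (u : Q)) hk
        exact Units.ext e
      · rintro ⟨u, ⟨k, rfl⟩, rfl⟩
        exact ⟨k, rfl⟩) n).1 h
  obtain ⟨h2, h3, h4⟩ := h1
  let e : Additive (ClassGroup (QR F)) ≃ₗ[ℤ] Additive (CommRing.Pic (QR F)) :=
    (MulEquiv.toAdditive (ClassGroup.equivPic (QR F))).toIntLinearEquiv
  obtain ⟨e2⟩ : Nonempty ((Additive (CurveRing F)ˣ ⧸ AddSubgroup.toIntSubmodule
      (Subgroup.toAddSubgroup (Units.map (curveConst F : κ →* CurveRing F)).range)) ≃ₗ[ℤ]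
        Additive (UnitsMod F)) :=
    quot_equiv (G := (CurveRing F)ˣ) (Units.map (curveConst F : κ →* CurveRing F)).range
  have g1 : Module.Finite ℤ (Additive (CommRing.Pic (QR F))) := Module.Finite.equiv e
  have g2 : Module.Finite ℤ (Additive (UnitsMod F)) := by
    have h5 : Module.Finite ℤ (Additive (CurveRing F)ˣ ⧸ AddSubgroup.toIntSubmodule
      (Subgroup.toAddSubgroup (Units.map (curveConst F : κ →* CurveRing F)).range)) := h3
    exact Module.Finite.equiv e2
  have g3 : (finrank ℤ (Additive (CommRing.Pic (QR F))) : ℤ) -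
      finrank ℤ (Additive (UnitsMod F)) = n := by
    rw [← e.finrank_eq, ← e2.finrank_eq]
    exact h4
  exact ⟨hD, g1, g2, g3⟩

end Pool.Agent.Lib.MP_1a0ddd_nt.Hyp
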