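import Mathlib

/-! Euler characteristics of families of places: the effect of adding places. -/

set_option autoImplicit false

namespace Pool.Agent.Lib.MP_1a0ddd_nt.Hyp

open Module

/-- the divisor map of a family of homomorphisms with finite supports -/
noncomputable def divL {G I : Type} [AddCommGroup G] (α : I → G →ₗ[ℤ] ℤ)
    (hfin : ∀ g, {i | α i g ≠ 0}.Finite) : G →ₗ[ℤ] (I →₀ ℤ) where
  toFun g := Finsupp.ofSupportFinite (fun i => α i g) (hfin g)
  map_add' g h := by
    ext i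
    exact map_add (α i) g h
  map_smul' n g := by
    ext i
    exact map_smul (α i) n g

theorem divL_apply {G I : Type} [AddCommGroup G] (α : I → G →ₗ[ℤ] ℤ)
    (hfin : ∀ g, {i | α i g ≠ 0}.Finite) (g : G) (i : I) : divL α hfin g i = α i g := rfl

/-- `rank (coker div) - rank (ker div / E) = n`, both finitely generated -/
structure Chi {G I : Type} [AddCommGroup G] (α : I → G →ₗ[ℤ] ℤ) (E : Submodule ℤ G) (n : ℤ) :
    Prop where
  fin : ∀ g, {i | α i g ≠ 0}.Finite
  triv : ∀ g ∈ E, ∀ i, α i g = 0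
  fin1 : Module.Finite ℤ ((I →₀ ℤ) ⧸ LinearMap.range (divL α fin))
  fin2 : Module.Finite ℤ (LinearMap.ker (divL α fin) ⧸ E.comap (LinearMap.ker (divL α fin)).subtype)
  eq : (finrank ℤ ((I →₀ ℤ) ⧸ LinearMap.range (divL α fin)) : ℤ) -
    finrank ℤ (LinearMap.ker (divL α fin) ⧸ E.comap (LinearMap.ker (divL α fin)).subtype) = n

/-- the group of the new places modulo `H` is finitely generated of rank `s` -/
def VertRank {G X : Type} [AddCommGroup G] (β : X → G →ₗ[ℤ] ℤ) (H : Submodule ℤ G) (s : ℕ) : Prop :=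
  ∃ hβ : ∀ g, {x | β x g ≠ 0}.Finite,
    Module.Finite ℤ ((X →₀ ℤ) ⧸ H.map (divL β hβ)) ∧
    finrank ℤ ((X →₀ ℤ) ⧸ H.map (divL β hβ)) = s

/-- the finiteness part of the five term exact sequence -/
private theorem fiveFin {A B C D F : Type} [AddCommGroup A] [AddCommGroup B] [AddCommGroup C]
    [AddCommGroup D] [AddCommGroup F] (f1 : A →ₗ[ℤ] B) (f2 : B →ₗ[ℤ] C) (f3 : C →ₗ[ℤ] D)
    (f4 : D →ₗ[ℤ] F) (h1 : Function.Injective f1) (h2 : LinearMap.ker f2 = LinearMap.range f1)
    (h4 : LinearMap.ker f4 = LinearMap.range f3)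
    (h5 : Function.Surjective f4) (hC : Module.Finite ℤ C) :
    (Module.Finite ℤ A ∧ Module.Finite ℤ D) ↔ (Module.Finite ℤ B ∧ Module.Finite ℤ F) := by
  constructor
  · rintro ⟨hA, hD⟩
    refine ⟨?_, Module.Finite.of_surjective f4 h5⟩
    have hk : (LinearMap.ker f2).FG := by
      rw [h2, LinearMap.range_eq_map]
      exact Submodule.FG.map _ Module.Finite.fg_top
    have hr : (LinearMap.range f2).FG := IsNoetherian.noetherian _
    refine ⟨Submodule.fg_of_fg_map_of_fg_inf_ker f2 ?_ ?_⟩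
    · rw [← LinearMap.range_eq_map]
      exact hr
    · rw [top_inf_eq]
      exact hk
  · rintro ⟨hB, hF⟩
    refine ⟨Module.Finite.of_injective f1 h1, ?_⟩
    have hk : (LinearMap.ker f4).FG := by
      rw [h4, LinearMap.range_eq_map]
      exact Submodule.FG.map _ Module.Finite.fg_top
    have hr : (LinearMap.range f4).FG := IsNoetherian.noetherian _
    refine ⟨Submodule.fg_of_fg_map_of_fg_inf_ker f4 ?_ ?_⟩
    · rw [← LinearMap.range_eq_map]
      exact hr
    · rw [top_inf_eq]
      exact hk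

/-- the ranks in the five term exact sequence -/
private theorem fiveRank {A B C D F : Type} [AddCommGroup A] [AddCommGroup B] [AddCommGroup C]
    [AddCommGroup D] [AddCommGroup F] (f1 : A →ₗ[ℤ] B) (f2 : B →ₗ[ℤ] C) (f3 : C →ₗ[ℤ] D)
    (f4 : D →ₗ[ℤ] F) (h1 : Function.Injective f1) (h2 : LinearMap.ker f2 = LinearMap.range f1)
    (h3 : LinearMap.ker f3 = LinearMap.range f2) (h4 : LinearMap.ker f4 = LinearMap.range f3)
    (h5 : Function.Surjective f4) [Module.Finite ℤ A] [Module.Finite ℤ B] [Module.Finite ℤ C]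
    [Module.Finite ℤ D] [Module.Finite ℤ F] :
    (finrank ℤ D : ℤ) - finrank ℤ A = finrank ℤ C + (finrank ℤ F - finrank ℤ B) := by
  have key : ∀ {P Q : Type} [AddCommGroup P] [AddCommGroup Q] [Module.Finite ℤ P] (f : P →ₗ[ℤ] Q),
      finrank ℤ (LinearMap.range f) + finrank ℤ (LinearMap.ker f) = finrank ℤ P := by
    intro P Q _ _ _ f
    rw [← LinearEquiv.finrank_eq f.quotKerEquivRange]
    exact Submodule.finrank_quotient_add_finrank _
  have e1 := key f2
  have e2 := key f3
  have e3 := key f4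
  have e4 : finrank ℤ (LinearMap.range f1) = finrank ℤ A := LinearMap.finrank_range_of_inj h1
  have e5 : finrank ℤ (LinearMap.range f4) = finrank ℤ F := by
    rw [LinearMap.range_eq_top.2 h5, finrank_top]
  rw [h2] at e1
  rw [h3] at e2
  rw [h4] at e3
  omega

section

variable {G I X : Type} [AddCommGroup G] (α : I → G →ₗ[ℤ] ℤ) (β : X → G →ₗ[ℤ] ℤ)

private theorem mem_kerL {G I : Type} [AddCommGroup G] (α : I → G →ₗ[ℤ] ℤ)
    (h : ∀ g, {i | α i g ≠ 0}.Finite) (g : G) :
    g ∈ LinearMap.ker (divL α h) ↔ ∀ i, α i g = 0 := by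
  rw [LinearMap.mem_ker]
  constructor
  · intro hg i
    rw [← divL_apply α h, hg]
    rfl
  · intro hg
    ext i
    rw [divL_apply]
    exact hg i

/-- the five term exact sequence -/
private theorem seqEx (E H : Submodule ℤ G)
    (hEβ : ∀ g ∈ E, ∀ x, β x g = 0)
    (hHα : ∀ g ∈ H, ∀ i, α i g = 0) (hHE : ∀ g ∈ H, (∀ x, β x g = 0) → g ∈ E)
    (fα : ∀ g, {i | α i g ≠ 0}.Finite) (fβ : ∀ g, {x | β x g ≠ 0}.Finite)
    (fαβ : ∀ g, {i | Sum.elim α β i g ≠ 0}.Finite) :
    ∃ (f1 : (LinearMap.ker (divL (Sum.elim α β) fαβ) ⧸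
          E.comap (LinearMap.ker (divL (Sum.elim α β) fαβ)).subtype) →ₗ[ℤ]
        (LinearMap.ker (divL α fα) ⧸ (E ⊔ H).comap (LinearMap.ker (divL α fα)).subtype))
      (f2 : (LinearMap.ker (divL α fα) ⧸ (E ⊔ H).comap (LinearMap.ker (divL α fα)).subtype) →ₗ[ℤ]
        ((X →₀ ℤ) ⧸ H.map (divL β fβ)))
      (f3 : ((X →₀ ℤ) ⧸ H.map (divL β fβ)) →ₗ[ℤ]
        ((I ⊕ X →₀ ℤ) ⧸ LinearMap.range (divL (Sum.elim α β) fαβ)))
      (f4 : ((I ⊕ X →₀ ℤ) ⧸ LinearMap.range (divL (Sum.elim α β) fαβ)) →ₗ[ℤ]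
        ((I →₀ ℤ) ⧸ LinearMap.range (divL α fα))),
      Function.Injective f1 ∧ LinearMap.ker f2 = LinearMap.range f1 ∧
      LinearMap.ker f3 = LinearMap.range f2 ∧ LinearMap.ker f4 = LinearMap.range f3 ∧
      Function.Surjective f4 := by
  have hMN : LinearMap.ker (divL (Sum.elim α β) fαβ) ≤ LinearMap.ker (divL α fα) := by
    intro g hg
    rw [mem_kerL] at hg ⊢
    intro i
    exact hg (Sum.inl i)
  have c1 : E.comap (LinearMap.ker (divL (Sum.elim α β) fαβ)).subtype ≤
      ((E ⊔ H).comap (LinearMap.ker (divL α fα)).subtype).comap (Submodule.inclusion hMN) := by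
    intro g hg
    rw [Submodule.mem_comap, Submodule.mem_comap]
    exact Submodule.mem_sup_left hg
  have c2 : (E ⊔ H).comap (LinearMap.ker (divL α fα)).subtype ≤
      (H.map (divL β fβ)).comap ((divL β fβ).comp (LinearMap.ker (divL α fα)).subtype) := by
    intro g hg
    rw [Submodule.mem_comap] at hg ⊢
    obtain ⟨e, he, h, hh, heh⟩ := Submodule.mem_sup.1 hg
    refine ⟨h, hh, ?_⟩
    have he0 : divL β fβ e = 0 := (LinearMap.mem_ker).1 ((mem_kerL β fβ e).2 (hEβ e he))
    rw [LinearMap.comp_apply, ← heh, map_add, he0, zero_add]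
  have c3 : H.map (divL β fβ) ≤ (LinearMap.range (divL (Sum.elim α β) fαβ)).comap
      (Finsupp.lmapDomain ℤ ℤ (Sum.inr : X → I ⊕ X)) := by
    rintro _ ⟨h, hh, rfl⟩
    rw [Submodule.mem_comap]
    refine ⟨h, ?_⟩
    ext i
    rw [Finsupp.lmapDomain_apply, divL_apply]
    rcases i with i | x
    · rw [Finsupp.mapDomain_of_notMem_range _ _ (by rintro ⟨x, hx⟩; cases hx)]
      exact hHα h hh i
    · rw [Finsupp.mapDomain_apply Sum.inr_injective, divL_apply]
      rfl
  have c4 : LinearMap.range (divL (Sum.elim α β) fαβ) ≤ (LinearMap.range (divL α fα)).comap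
      (Finsupp.lcomapDomain (Sum.inl : I → I ⊕ X) Sum.inl_injective) := by
    rintro _ ⟨g, rfl⟩
    rw [Submodule.mem_comap]
    refine ⟨g, ?_⟩
    ext i
    rfl
  refine ⟨Submodule.mapQ _ _ _ c1, Submodule.mapQ _ _ _ c2, Submodule.mapQ _ _ _ c3,
    Submodule.mapQ _ _ _ c4, ?_, ?_, ?_, ?_, ?_⟩
  · -- injective
    rw [← LinearMap.ker_eq_bot, LinearMap.ker_eq_bot']
    intro m hm
    induction m using Submodule.Quotient.induction_on with
    | _ m =>
    rw [Submodule.mapQ_apply, Submodule.Quotient.mk_eq_zero, Submodule.mem_comap] at hm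
    rw [Submodule.Quotient.mk_eq_zero, Submodule.mem_comap]
    obtain ⟨e, he, h, hh, heh⟩ := Submodule.mem_sup.1 hm
    have hm0 := (mem_kerL (Sum.elim α β) fαβ m.1).1 m.2
    have heh' : e + h = m.1 := heh
    have : h ∈ E := by
      apply hHE h hh
      intro x
      have h1 : β x (e + h) = 0 := by
        rw [heh']
        exact hm0 (Sum.inr x)
      rwa [map_add, hEβ e he x, zero_add] at h1
    change m.1 ∈ E
    rw [← heh']
    exact E.add_mem he this
  · -- exact at `N/(E ⊔ H)`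
    apply le_antisymm
    · intro m hm
      induction m using Submodule.Quotient.induction_on with
      | _ m =>
      rw [LinearMap.mem_ker, Submodule.mapQ_apply, Submodule.Quotient.mk_eq_zero] at hm
      obtain ⟨h, hh, hhm⟩ := hm
      have hα := (mem_kerL α fα m.1).1 m.2
      have hhm' : divL β fβ h = divL β fβ m.1 := hhm
      have hk : m.1 - h ∈ LinearMap.ker (divL (Sum.elim α β) fαβ) := by
        rw [mem_kerL]
        rintro (i | x)
        · change α i (m.1 - h) = 0
          rw [map_sub, hα i, hHα h hh i, sub_zero]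
        · change β x (m.1 - h) = 0
          rw [map_sub, ← divL_apply β fβ m.1, ← divL_apply β fβ h, hhm', sub_self]
      refine ⟨Submodule.Quotient.mk ⟨m.1 - h, hk⟩, ?_⟩
      rw [Submodule.mapQ_apply]
      rw [Submodule.Quotient.eq, Submodule.mem_comap]
      have : (m.1 - h) - m.1 ∈ E ⊔ H := by
        have : (m.1 - h) - m.1 = - h := by abel
        rw [this]
        exact (E ⊔ H).neg_mem (Submodule.mem_sup_right hh)
      exact this
    · rintro _ ⟨m, rfl⟩
      induction m using Submodule.Quotient.induction_on with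
      | _ m =>
      rw [LinearMap.mem_ker, Submodule.mapQ_apply, Submodule.mapQ_apply,
        Submodule.Quotient.mk_eq_zero]
      refine ⟨0, H.zero_mem, ?_⟩
      have hm0 := (mem_kerL (Sum.elim α β) fαβ m.1).1 m.2
      have : divL β fβ m.1 = 0 :=
        (LinearMap.mem_ker).1 ((mem_kerL β fβ m.1).2 (fun x => hm0 (Sum.inr x)))
      rw [map_zero]
      exact this.symm
  · -- exact at `V`
    apply le_antisymm
    · intro v hv
      induction v using Submodule.Quotient.induction_on with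
      | _ v =>
      rw [LinearMap.mem_ker, Submodule.mapQ_apply, Submodule.Quotient.mk_eq_zero] at hv
      obtain ⟨g, hg⟩ := hv
      rw [Finsupp.lmapDomain_apply] at hg
      have hgk : g ∈ LinearMap.ker (divL α fα) := by
        rw [mem_kerL]
        intro i
        have h1 : divL (Sum.elim α β) fαβ g (Sum.inl i) = 0 := by
          rw [hg]
          exact Finsupp.mapDomain_of_notMem_range _ _ (by rintro ⟨x, hx⟩; cases hx)
        exact h1
      refine ⟨Submodule.Quotient.mk ⟨g, hgk⟩, ?_⟩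
      rw [Submodule.mapQ_apply]
      congr 1
      ext x
      have h1 : divL (Sum.elim α β) fαβ g (Sum.inr x) = v x := by
        rw [hg]
        exact Finsupp.mapDomain_apply Sum.inr_injective _ _
      exact h1
    · rintro _ ⟨m, rfl⟩
      induction m using Submodule.Quotient.induction_on with
      | _ m =>
      rw [LinearMap.mem_ker, Submodule.mapQ_apply, Submodule.mapQ_apply,
        Submodule.Quotient.mk_eq_zero]
      refine ⟨m.1, ?_⟩
      have hα := (mem_kerL α fα m.1).1 m.2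
      ext i
      rw [Finsupp.lmapDomain_apply, divL_apply]
      rcases i with i | x
      · rw [Finsupp.mapDomain_of_notMem_range _ _ (by rintro ⟨x, hx⟩; cases hx)]
        exact hα i
      · rw [Finsupp.mapDomain_apply Sum.inr_injective]
        rfl
  · -- exact at the cokernel
    apply le_antisymm
    · intro v hv
      induction v using Submodule.Quotient.induction_on with
      | _ v =>
      rw [LinearMap.mem_ker, Submodule.mapQ_apply, Submodule.Quotient.mk_eq_zero] at hv
      obtain ⟨g, hg⟩ := hv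
      refine ⟨Submodule.Quotient.mk
        (Finsupp.lcomapDomain (R := ℤ) (M := ℤ) (Sum.inr : X → I ⊕ X) Sum.inr_injective
          (v - divL (Sum.elim α β) fαβ g)), ?_⟩
      rw [Submodule.mapQ_apply, Submodule.Quotient.eq]
      refine ⟨-g, ?_⟩
      ext i
      rcases i with i | x
      · have h1 : divL α fα g i = v (Sum.inl i) := by
          rw [hg]
          rfl
        rw [Finsupp.sub_apply, Finsupp.lmapDomain_apply,
          Finsupp.mapDomain_of_notMem_range _ _ (by rintro ⟨x, hx⟩; cases hx), ← h1, map_neg,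
          Finsupp.neg_apply, zero_sub]
        rfl
      · rw [Finsupp.sub_apply, Finsupp.lmapDomain_apply,
          Finsupp.mapDomain_apply Sum.inr_injective, map_neg, Finsupp.neg_apply]
        change _ = (v - divL (Sum.elim α β) fαβ g) (Sum.inr x) - v (Sum.inr x)
        rw [Finsupp.sub_apply]
        abel
    · rintro _ ⟨m, rfl⟩
      induction m using Submodule.Quotient.induction_on with
      | _ m =>
      rw [LinearMap.mem_ker, Submodule.mapQ_apply, Submodule.mapQ_apply,
        Submodule.Quotient.mk_eq_zero]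
      refine ⟨0, ?_⟩
      rw [map_zero]
      ext i
      have h1 : Finsupp.mapDomain (Sum.inr : X → I ⊕ X) m (Sum.inl i) = 0 :=
        Finsupp.mapDomain_of_notMem_range _ _ (by rintro ⟨x, hx⟩; cases hx)
      exact h1.symm
  · -- surjective
    intro u
    induction u using Submodule.Quotient.induction_on with
    | _ u =>
    refine ⟨Submodule.Quotient.mk (Finsupp.mapDomain (Sum.inl : I → I ⊕ X) u), ?_⟩
    rw [Submodule.mapQ_apply]
    congr 1
    ext i
    exact Finsupp.mapDomain_apply Sum.inl_injective _ _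

end

/-- **Adding places.** Proof: with `N = ker α`, `M = ker α ∩ ker β`, `V = (X →₀ ℤ)/β(H)` the sequence
`0 → M/E → N/(E ⊔ H) → V → coker (α, β) → coker α → 0` is exact (`N/(E ⊔ H) → V` is induced by `β`;
its kernel: `β n = β h` gives `n - h ∈ M`; `M ∩ (E ⊔ H) = E` by `hHE`); ranks of finitely
generated `ℤ`-modules are additive in exact sequences (`Submodule.finrank_quotient_add_finrank`
for domains). -/
theorem chi_iff {G I X : Type} [AddCommGroup G] (α : I → G →ₗ[ℤ] ℤ) (β : X → G →ₗ[ℤ] ℤ)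
    (E H : Submodule ℤ G) (hEα : ∀ g ∈ E, ∀ i, α i g = 0) (hEβ : ∀ g ∈ E, ∀ x, β x g = 0)
    (hHα : ∀ g ∈ H, ∀ i, α i g = 0) (hHE : ∀ g ∈ H, (∀ x, β x g = 0) → g ∈ E) (s : ℕ)
    (hV : VertRank β H s) (n : ℤ) :
    Chi (Sum.elim α β) E n ↔ Chi α (E ⊔ H) (n - s) := by
  obtain ⟨fβ, hVf, hVs⟩ := hV
  have mk1 : ∀ (fα : ∀ g, {i | α i g ≠ 0}.Finite) (g : G), {i | Sum.elim α β i g ≠ 0}.Finite := by
    intro fα g
    apply (((fα g).image Sum.inl).union ((fβ g).image Sum.inr)).subset
    rintro (i | x) hx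
    · exact Or.inl ⟨i, hx, rfl⟩
    · exact Or.inr ⟨x, hx, rfl⟩
  have mk2 : (∀ g, {i | Sum.elim α β i g ≠ 0}.Finite) → ∀ g, {i | α i g ≠ 0}.Finite := by
    intro f g
    have hs : (Sum.inl '' {i | α i g ≠ 0} : Set (I ⊕ X)) ⊆ {i | Sum.elim α β i g ≠ 0} := by
      rintro _ ⟨i, hi, rfl⟩
      exact hi
    exact Set.Finite.of_finite_image ((f g).subset hs) Sum.inl_injective.injOn
  constructor
  · intro hc
    have fα := mk2 hc.fin
    obtain ⟨f1, f2, f3, f4, h1, h2, h3, h4, h5⟩ := seqEx α β E H hEβ hHα hHE fα fβ hc.fin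
    have := hVf
    have a1 := hc.fin1
    have a2 := hc.fin2
    obtain ⟨b2, b1⟩ := (fiveFin f1 f2 f3 f4 h1 h2 h4 h5 hVf).1 ⟨a2, a1⟩
    have := b1
    have := b2
    refine ⟨fα, ?_, b1, b2, ?_⟩
    · intro g hg i
      obtain ⟨e, he, h, hh, rfl⟩ := Submodule.mem_sup.1 hg
      rw [map_add, hEα e he i, hHα h hh i, add_zero]
    · have hr := fiveRank f1 f2 f3 f4 h1 h2 h3 h4 h5
      rw [hc.eq, hVs] at hr
      rw [hr]
      ring
  · intro hc
    have fαβ := mk1 hc.fin
    obtain ⟨f1, f2, f3, f4, h1, h2, h3, h4, h5⟩ := seqEx α β E H hEβ hHα hHE hc.fin fβ fαβ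
    have := hVf
    have a1 := hc.fin1
    have a2 := hc.fin2
    obtain ⟨b2, b1⟩ := (fiveFin f1 f2 f3 f4 h1 h2 h4 h5 hVf).2 ⟨a2, a1⟩
    have := b1
    have := b2
    refine ⟨fαβ, ?_, b1, b2, ?_⟩
    · rintro g hg (i | x)
      · exact hEα g hg i
      · exact hEβ g hg x
    · have hr := fiveRank f1 f2 f3 f4 h1 h2 h3 h4 h5
      rw [hc.eq, hVs] at hr
      rw [hr]
      ring

/-- one direction of `chi_equiv` -/
private theorem chi_of_equiv {G I J : Type} [AddCommGroup G] (e : I ≃ J) (α : I → G →ₗ[ℤ] ℤ)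
    (β : J → G →ₗ[ℤ] ℤ) (h : ∀ i, α i = β (e i)) (E : Submodule ℤ G) (n : ℤ)
    (hc : Chi α E n) : Chi β E n := by
  have h' : ∀ j, β j = α (e.symm j) := fun j => by rw [h, e.apply_symm_apply]
  have fβ : ∀ g, {j | β j g ≠ 0}.Finite := by
    intro g
    apply ((hc.fin g).image e).subset
    intro j hj
    refine ⟨e.symm j, ?_, e.apply_symm_apply j⟩
    change α (e.symm j) g ≠ 0
    rw [← h']
    exact hj
  have hker : LinearMap.ker (divL α hc.fin) = LinearMap.ker (divL β fβ) := by
    ext g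
    rw [mem_kerL, mem_kerL]
    constructor
    · intro hg j
      rw [h']
      exact hg _
    · intro hg i
      rw [h]
      exact hg _
  have hmap : (LinearMap.range (divL α hc.fin)).map
      ((Finsupp.domLCongr e : (I →₀ ℤ) ≃ₗ[ℤ] (J →₀ ℤ)) : (I →₀ ℤ) →ₗ[ℤ] (J →₀ ℤ)) =
      LinearMap.range (divL β fβ) := by
    have hg : ∀ g, Finsupp.domLCongr (R := ℤ) e (divL α hc.fin g) = divL β fβ g := by
      intro g
      ext j
      rw [Finsupp.domLCongr_apply, Finsupp.domCongr_apply, Finsupp.equivMapDomain_apply,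
        divL_apply, divL_apply, h']
    ext v
    constructor
    · rintro ⟨_, ⟨g, rfl⟩, rfl⟩
      exact ⟨g, (hg g).symm⟩
    · rintro ⟨g, rfl⟩
      exact ⟨_, ⟨g, rfl⟩, hg g⟩
  have q := Submodule.Quotient.equiv (LinearMap.range (divL α hc.fin))
    (LinearMap.range (divL β fβ)) (Finsupp.domLCongr e : (I →₀ ℤ) ≃ₗ[ℤ] (J →₀ ℤ)) hmap
  have := hc.fin1
  refine ⟨fβ, ?_, Module.Finite.equiv q, ?_, ?_⟩
  · intro g hg j
    rw [h']
    exact hc.triv g hg _
  · have := hc.fin2
    rw [hker] at this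
    exact this
  · rw [← hc.eq, LinearEquiv.finrank_eq q, hker]

/-- `Chi` depends only on the set of the homomorphisms -/
theorem chi_equiv {G I J : Type} [AddCommGroup G] (e : I ≃ J) (α : I → G →ₗ[ℤ] ℤ)
    (β : J → G →ₗ[ℤ] ℤ) (h : ∀ i, α i = β (e i)) (E : Submodule ℤ G) (n : ℤ) :
    Chi α E n ↔ Chi β E n :=
  ⟨chi_of_equiv e α β h E n, chi_of_equiv e.symm β α (fun j => by
    rw [h, e.apply_symm_apply]) E n⟩

end Pool.Agent.Lib.MP_1a0ddd_nt.Hyp
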