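import Pool.Agent.Lib.MP_1a0ddd_nt.Hyp.HDef
import Pool.Agent.Lib.MP_1a0ddd_nt.LW.QCou

/-! The traces at the zeros of a polynomial in `t`. -/

set_option autoImplicit false

namespace Pool.Agent.Lib.MP_1a0ddd_nt.Hyp

open Polynomial Quad Filter Topology LW

/-- the sum of the traces over the zeros of `D` on the line over `z` -/
noncomputable def remSum {R : Type} [CommRing R] (a b c D : R[X]) (p : ℕ) (z : R →+* ZMod p) : ℝ :=
  ∑ᶠ t : {t : ZMod p // (D.map z).eval t = 0}, (frobTrace2 a b c p z t.1 : ℝ)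

/-- the average of `remSum` over the points of `{E ≠ 0}` -/
noncomputable def remAvg {R : Type} [CommRing R] (a b c D : R[X]) (E : R) (m p : ℕ) : ℝ :=
  (∑ᶠ z : {z : R →+* ZMod p // z E ≠ 0}, remSum a b c D p z.1) / (p : ℝ) ^ m

/-- a sum over the points of `R[t]/(τ)` is a sum over the points of `R` and the zeros of `τ` -/
private theorem rt_sum {R : Type} [CommRing R] (τ : R[X]) (D : R) (p : ℕ) [Fact p.Prime]
    [Finite (R →+* ZMod p)] (g : (R →+* ZMod p) → ZMod p → ℝ) :
    ∑ᶠ ζ : {ζ : AdjoinRoot τ →+* ZMod p // ζ (AdjoinRoot.of τ D) ≠ 0},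
      g (ζ.1.comp (AdjoinRoot.of τ)) (ζ.1 (AdjoinRoot.root τ)) =
    ∑ᶠ z : {z : R →+* ZMod p // z D ≠ 0},
      ∑ᶠ t : {t : ZMod p // (τ.map z.1).eval t = 0}, g z.1 t.1 := by
  classical
  have := Fintype.ofFinite {z : R →+* ZMod p // z D ≠ 0}
  let f : {ζ : AdjoinRoot τ →+* ZMod p // ζ (AdjoinRoot.of τ D) ≠ 0} →
      {z : R →+* ZMod p // z D ≠ 0} := fun ζ => ⟨ζ.1.comp (AdjoinRoot.of τ), ζ.2⟩
  let e : ∀ z : {z : R →+* ZMod p // z D ≠ 0},
      {ζ : {ζ : AdjoinRoot τ →+* ZMod p // ζ (AdjoinRoot.of τ D) ≠ 0} // f ζ = z} ≃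
        {t : ZMod p // (τ.map z.1).eval t = 0} := fun z => by
    refine ⟨fun x => ⟨x.1.1 (AdjoinRoot.root τ), ?_⟩,
      fun s => ⟨⟨AdjoinRoot.lift z.1 s.1 (by rw [← eval_map]; exact s.2), ?_⟩, ?_⟩, ?_, ?_⟩
    · have h2 : x.1.1.comp (AdjoinRoot.of τ) = z.1 := congrArg Subtype.val x.2
      rw [← h2, eval_map, ← hom_eval₂, AdjoinRoot.eval₂_root, map_zero]
    · rw [AdjoinRoot.lift_of]
      exact z.2
    · apply Subtype.ext
      refine RingHom.ext fun a => ?_
      simp [f]
    · intro x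
      apply Subtype.ext
      apply Subtype.ext
      refine AdjoinRoot.ringHom_ext ?_ ?_
      · have h2 : x.1.1.comp (AdjoinRoot.of τ) = z.1 := congrArg Subtype.val x.2
        rw [h2]
        refine RingHom.ext fun a => ?_
        simp
      · simp
    · intro s
      apply Subtype.ext
      simp
  have hfin : ∀ z, Finite {ζ : {ζ : AdjoinRoot τ →+* ZMod p // ζ (AdjoinRoot.of τ D) ≠ 0} //
      f ζ = z} := fun z => Finite.of_equiv _ (e z).symm
  have hfin2 : Finite {ζ : AdjoinRoot τ →+* ZMod p // ζ (AdjoinRoot.of τ D) ≠ 0} :=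
    Finite.of_equiv _ (Equiv.sigmaFiberEquiv f)
  have := Fintype.ofFinite {ζ : AdjoinRoot τ →+* ZMod p // ζ (AdjoinRoot.of τ D) ≠ 0}
  rw [finsum_eq_sum_of_fintype, finsum_eq_sum_of_fintype,
    ← Finset.sum_fiberwise_of_maps_to (g := f) (fun _ _ => Finset.mem_univ _)]
  refine Finset.sum_congr rfl fun z _ => ?_
  rw [finsum_eq_sum_of_fintype]
  refine Finset.sum_bij' (fun ζ hζ => e z ⟨ζ, (Finset.mem_filter.1 hζ).2⟩)
    (fun t _ => ((e z).symm t).1) ?_ ?_ ?_ ?_ ?_
  · intro ζ _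
    exact Finset.mem_univ _
  · intro t _
    exact Finset.mem_filter.2 ⟨Finset.mem_univ _, ((e z).symm t).2⟩
  · intro ζ hζ
    simp
  · intro t _
    exact (e z).apply_symm_apply t
  · intro ζ hζ
    have h2 : ζ.1.comp (AdjoinRoot.of τ) = z.1 :=
      congrArg Subtype.val (Finset.mem_filter.1 hζ).2
    rw [h2]
    rfl

/-- the mean of the curve `y² = f(x)` over a finitely generated domain -/
private theorem rt_mean (B : Type) [CommRing B] [IsDomain B] [CharZero B]
    [Algebra.FiniteType ℤ B] (d : ℕ) (hd : Algebra.trdeg ℤ B = (d : Cardinal)) (f : B[X])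
    (P : Prop) [Decidable P] (hP : P ↔ f ≠ 0 ∧ IsSquare (toF f)) :
    ∃ N : B, N ≠ 0 ∧ ∀ D : B, D ≠ 0 → N ∣ D → TauMean (fun p => infAvg f D d p)
      (if P then (1 : ℝ) else 0) := by
  have hB : LangWeilT B d := langWeil B d hd
  by_cases h0 : f = 0
  · rw [if_neg fun h => (hP.1 h).1 h0]
    exact inf_zero B d hB f (Or.inl h0)
  · by_cases h1 : IsSquare (toF f)
    · rw [if_pos (hP.2 ⟨h0, h1⟩)]
      exact inf_square B d hB f h0 h1
    · rw [if_neg fun h => h1 (hP.1 h).2]
      by_cases h2 : NotConstSquare f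
      · exact inf_zero B d hB f (Or.inr h2)
      · unfold NotConstSquare at h2
        push Not at h2
        obtain ⟨v, s, hs⟩ := h2
        obtain ⟨r, q, hq, rfl⟩ := IsFractionRing.div_surjective (A := B) v
        have hq0 : algebraMap B (FractionRing B) q ≠ 0 := by
          rw [Ne, IsFractionRing.to_map_eq_zero_iff]
          exact nonZeroDivisors.ne_zero hq
        have h3 : toF f = C (algebraMap B (FractionRing B) (r * q)) *
            (C (algebraMap B (FractionRing B) q)⁻¹ * s) ^ 2 := by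
          rw [hs, mul_pow, ← mul_assoc, ← C_pow, ← C_mul]
          congr 2
          rw [map_mul]
          field_simp
        refine inf_const B d hB f h0 (r * q) _ h3 (langWeil_sqrt B d hd (r * q) ?_)
        rintro ⟨w, hw⟩
        apply h1
        refine ⟨C w * (C (algebraMap B (FractionRing B) q)⁻¹ * s), ?_⟩
        rw [h3, hw, C_mul]
        ring

private theorem rt_abs {A A' B B' κ : Type} [CommRing A] [CommRing A'] [CommRing B] [CommRing B']
    [CommRing κ] (mB : A →+* B) (mB' : A' →+* B') (hs : Function.Surjective mB') (τ' : A')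
    (hk : ∀ g, mB' g = 0 ↔ τ' ∣ g) (j : A →+* A') (ι : B →+* B')
    (hι : ι.comp mB = mB'.comp j) (hιi : Function.Injective ι) (α : B →+* κ) (ψ : κ →+* B')
    (ρ : B' →+* κ) (hψ : ψ.comp α = ι) (hρ : ρ.comp ι = α) (G : A[X]) :
    (C τ' ∣ G.map j ↔ G.map mB = 0) ∧
      ((∃ s : A'[X], C τ' ∣ G.map j - s ^ 2) ↔ IsSquare ((G.map mB).map α)) := by
  have hF : (G.map j).map mB' = (G.map mB).map ι := by
    rw [Polynomial.map_map, Polynomial.map_map, hι]
  have hC : ∀ H : A'[X], C τ' ∣ H ↔ H.map mB' = 0 := by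
    intro H
    rw [C_dvd_iff_dvd_coeff, Polynomial.ext_iff]
    refine forall_congr' fun i => ?_
    rw [coeff_map, coeff_zero, hk]
  constructor
  · rw [hC, hF]
    constructor
    · intro h
      apply Polynomial.map_injective ι hιi
      rw [h, Polynomial.map_zero]
    · intro h
      rw [h, Polynomial.map_zero]
  · constructor
    · rintro ⟨s, hs⟩
      rw [hC, Polynomial.map_sub, hF, sub_eq_zero, Polynomial.map_pow] at hs
      refine ⟨(s.map mB').map ρ, ?_⟩
      have h1 : (G.map mB).map α = ((G.map mB).map ι).map ρ := by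
        rw [← hρ]
        exact (Polynomial.map_map ι ρ _).symm
      rw [h1, hs, Polynomial.map_pow, pow_two]
    · rintro ⟨s, hs'⟩
      obtain ⟨w, hw⟩ := Polynomial.map_surjective mB' hs (s.map ψ)
      refine ⟨w, ?_⟩
      rw [hC, Polynomial.map_sub, hF, sub_eq_zero, Polynomial.map_pow, hw]
      have h1 : (G.map mB).map ι = ((G.map mB).map α).map ψ := by
        rw [← hψ]
        exact (Polynomial.map_map α ψ _).symm
      rw [h1, hs', Polynomial.map_mul, pow_two]

private theorem rt_psi {R K B B' κ : Type} [CommRing R] [IsDomain R] [Field K] [Algebra R K]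
    [IsFractionRing R K] [CommRing B] [IsDomain B] [Field κ] [Algebra B κ] [IsFractionRing B κ]
    [Field B'] (τ : R[X]) (o : R →+* B) (ho : Function.Injective o) (w : B)
    (hw : τ.eval₂ o w = 0) (o' : K →+* B') (w' : B') (ι : B →+* B') (hι : Function.Injective ι)
    (h2 : ι w = w') (h1 : ι.comp o = o'.comp (algebraMap R K))
    (hlift : ∀ (φ : K →+* κ) (y : κ), (τ.map (algebraMap R K)).eval₂ φ y = 0 →
      ∃ ρ : B' →+* κ, ρ.comp o' = φ ∧ ρ w' = y)
    (hext : ∀ f g : B →+* κ, f.comp o = g.comp o → f w = g w → f = g) :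
    ∃ (ψ : κ →+* B') (ρ : B' →+* κ), ψ.comp (algebraMap B κ) = ι ∧
      ρ.comp ι = algebraMap B κ := by
  have hofi : Function.Injective ((algebraMap B κ).comp o) :=
    (IsFractionRing.injective B κ).comp ho
  have hφ : ((IsFractionRing.lift hofi : K →+* κ)).comp (algebraMap R K) =
      (algebraMap B κ).comp o :=
    RingHom.ext fun r => IsFractionRing.lift_algebraMap hofi r
  obtain ⟨ρ, h3, h4⟩ := hlift (IsFractionRing.lift hofi) (algebraMap B κ w) (by
    rw [eval₂_map, hφ, ← hom_eval₂, hw, map_zero])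
  refine ⟨IsFractionRing.lift hι, ρ, RingHom.ext fun z => IsFractionRing.lift_algebraMap hι z, ?_⟩
  refine hext _ _ ?_ ?_
  · rw [RingHom.comp_assoc, h1, ← RingHom.comp_assoc, h3, hφ]
  · rw [RingHom.comp_apply, h2, h4]

private theorem rt_iota {R : Type} [CommRing R] [IsDomain R] (τ : R[X]) (hm : τ.Monic)
    (hi : Irreducible (toF τ)) [IsDomain (AdjoinRoot τ)] (κ : Type) [Field κ]
    [Algebra (AdjoinRoot τ) κ] [IsFractionRing (AdjoinRoot τ) κ] :
    ∃ (ι : AdjoinRoot τ →+* AdjoinRoot (toF τ)) (ψ : κ →+* AdjoinRoot (toF τ))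
      (ρ : AdjoinRoot (toF τ) →+* κ),
      (∀ f : R[X], ι (AdjoinRoot.mk τ f) = AdjoinRoot.mk (toF τ) (toF f)) ∧
      Function.Injective ι ∧ ψ.comp (algebraMap (AdjoinRoot τ) κ) = ι ∧
      ρ.comp ι = algebraMap (AdjoinRoot τ) κ := by
  have hfact : Fact (Irreducible (toF τ)) := ⟨hi⟩
  have hroot : τ.eval₂ ((AdjoinRoot.of (toF τ)).comp (algebraMap R (FractionRing R)))
      (AdjoinRoot.root (toF τ)) = 0 := by
    rw [← eval₂_map]
    exact AdjoinRoot.eval₂_root (toF τ)
  obtain ⟨ι, hιd⟩ : ∃ ι, ι = AdjoinRoot.lift ((AdjoinRoot.of (toF τ)).comp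
    (algebraMap R (FractionRing R))) (AdjoinRoot.root (toF τ)) hroot := ⟨_, rfl⟩
  have hι : ∀ f : R[X], ι (AdjoinRoot.mk τ f) = AdjoinRoot.mk (toF τ) (toF f) := by
    intro f
    rw [hιd, AdjoinRoot.lift_mk, ← eval₂_map, ← AdjoinRoot.aeval_eq, aeval_def,
      AdjoinRoot.algebraMap_eq]
  have hιi : Function.Injective ι := by
    rw [injective_iff_map_eq_zero]
    intro z hz
    obtain ⟨f, rfl⟩ := AdjoinRoot.mk_surjective z
    rw [hι, AdjoinRoot.mk_eq_zero] at hz
    rw [AdjoinRoot.mk_eq_zero]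
    exact (toF_dvd hm).1 hz
  have ho : Function.Injective (AdjoinRoot.of τ) := by
    rw [injective_iff_map_eq_zero]
    intro r hr
    by_contra h
    exact of_ne_zero hm hi h hr
  obtain ⟨ψ, ρ, h1, h2⟩ := rt_psi (K := FractionRing R) (κ := κ) τ (AdjoinRoot.of τ) ho
    (AdjoinRoot.root τ) (AdjoinRoot.eval₂_root τ) (AdjoinRoot.of (toF τ))
    (AdjoinRoot.root (toF τ)) ι hιi (by rw [hιd, AdjoinRoot.lift_root])
    (RingHom.ext fun r => by
      rw [RingHom.comp_apply, hιd, AdjoinRoot.lift_of])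
    (fun φ y h => ⟨AdjoinRoot.lift φ y h, RingHom.ext fun r => by
      rw [RingHom.comp_apply, AdjoinRoot.lift_of], AdjoinRoot.lift_root _⟩)
    (fun f g hf hg => AdjoinRoot.ringHom_ext hf hg)
  exact ⟨ι, ψ, ρ, hι, hιi, h1, h2⟩

/-- the square members: `F` modulo `τ` -/
private theorem rt_mem {R : Type} [CommRing R] [IsDomain R] (a b c τ : R[X]) (hm : τ.Monic)
    (hi : Irreducible (toF τ)) [IsDomain (AdjoinRoot τ)] :
    toF τ ∈ memSet (quad (toF a) (toF b) (toF c)) ↔
      (quad a b c).map (AdjoinRoot.mk τ) ≠ 0 ∧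
        IsSquare (toF ((quad a b c).map (AdjoinRoot.mk τ))) := by
  obtain ⟨ι, ψ, ρ, hι, hιi, hψ, hρ⟩ := rt_iota τ hm hi (FractionRing (AdjoinRoot τ))
  have hι' : ι.comp (AdjoinRoot.mk τ) =
      (AdjoinRoot.mk (toF τ)).comp (mapRingHom (algebraMap R (FractionRing R))) :=
    RingHom.ext hι
  have h := rt_abs (AdjoinRoot.mk τ) (AdjoinRoot.mk (toF τ)) AdjoinRoot.mk_surjective (toF τ)
    (fun g => AdjoinRoot.mk_eq_zero) (mapRingHom (algebraMap R (FractionRing R))) ι hι' hιi
    (algebraMap (AdjoinRoot τ) (FractionRing (AdjoinRoot τ))) ψ ρ hψ hρ (quad a b c)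
  rw [← Quad.quad_map] at h
  obtain ⟨h0, hS⟩ := h
  constructor
  · rintro ⟨-, -, h3, h4⟩
    exact ⟨fun h => h3 (h0.2 h), hS.1 h4⟩
  · rintro ⟨h3, h4⟩
    exact ⟨hm.map _, hi, fun h => h3 (h0.1 h), hS.2 h4⟩

/-- the fibre over a point of `R[t]/(τ)` -/
private theorem rt_trace {R : Type} [CommRing R] (a b c τ : R[X]) (p : ℕ)
    (ζ : AdjoinRoot τ →+* ZMod p) :
    (frobTrace2 a b c p (ζ.comp (AdjoinRoot.of τ)) (ζ (AdjoinRoot.root τ)) : ℝ) =
      -((Nat.card {P : ZMod p × ZMod p //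
        P.2 ^ 2 = (((quad a b c).map (AdjoinRoot.mk τ)).map ζ).eval P.1} : ℝ) - p) := by
  have h1 : ((quad a b c).map (AdjoinRoot.mk τ)).map ζ =
      (quad a b c).map (eval₂RingHom (ζ.comp (AdjoinRoot.of τ)) (ζ (AdjoinRoot.root τ))) := by
    rw [Polynomial.map_map]
    congr 1
    refine Polynomial.ringHom_ext' ?_ ?_
    · ext r
      simp
    · simp
  rw [h1, quad_eval, frobTrace2]
  simp only [eval_add, eval_mul, eval_pow, eval_C, eval_ofNat]
  push_cast
  ring

open Classical in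
/-- The traces at the points of `τ = 0`. Let `B = R[t]/(τ)` (a finitely generated domain of
transcendence degree `d`, `adjoin_facts`), `κ` its fraction field, `f = F` modulo `τ` in `B[x]`.
(1) `f = 0`: every trace is `p - p = 0`. (2) `f = u s²` over `κ`, `s ≠ 0` (clear denominators:
`v² f = u s²` with `u, v ∈ B`, `s ∈ B[x]`): off a closed subset the trace is `- χ(u) p + O(1)`. If `u` is
a square in `κ`, this is `τ ∈ memSet`, the average of `χ(u)` is 1 (`langWeil` for `B`); otherwise it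
is 0 (`langWeil` for `B` and `langWeil_sqrt` for `B[√u]`: `#{B[√u] → F_p} = ∑ (1 + χ(u))`).
(3) `f` not a constant times a square over `κ`: `Gn.cert` for `B` and `Gn.card_curve_ns` give traces
`≤ ε p` off a closed subset. All traces are `≤ p` in absolute value, and the points of closed
subsets of `Spec B` are negligible (`langWeil` for `B` with `D = 1` and `D`). Compare the treatment of
the curve at infinity in `Quad/Inf4.lean` (`inf_zero`, `inf_square`, `inf_const`). -/
theorem tau_term (R : Type) [CommRing R] [IsDomain R] [CharZero R] [Algebra.FiniteType ℤ R]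
    (d : ℕ) (hd : Algebra.trdeg ℤ R = (d : Cardinal)) (a b c τ : R[X]) (hm : τ.Monic)
    (hi : Irreducible (toF τ)) : ∃ E : R, E ≠ 0 ∧ ∀ E' : R, E' ≠ 0 → E ∣ E' →
      TauMean (fun p => remAvg a b c τ E' (d + 1) p)
        (-(if toF τ ∈ memSet (quad (toF a) (toF b) (toF c)) then (1 : ℝ) else 0)) := by
  obtain ⟨h1, h2, h3, h4⟩ := adjoin_facts R τ hm hi
  obtain ⟨N, hN, hmean⟩ := @rt_mean (AdjoinRoot τ) _ h1 h2 h3 d (h4.trans hd)
    ((quad a b c).map (AdjoinRoot.mk τ)) (toF τ ∈ memSet (quad (toF a) (toF b) (toF c))) _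
    (rt_mem a b c τ hm hi)
  have hint : IsIntegral R N := by
    have : Module.Finite R (AdjoinRoot τ) := hm.finite_adjoinRoot
    have : Algebra.IsIntegral R (AdjoinRoot τ) := Algebra.IsIntegral.of_finite _ _
    exact Algebra.IsIntegral.isIntegral N
  obtain ⟨E, hE, hdvd⟩ := hint.isAlgebraic.exists_nonzero_dvd (mem_nonZeroDivisors_of_ne_zero hN)
  refine ⟨E, hE, fun E' hE' hEE' => ?_⟩
  have h5 := (hmean (AdjoinRoot.of τ E') (of_ne_zero hm hi hE')
    (hdvd.trans ((AdjoinRoot.of τ).map_dvd hEE'))).neg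
  refine h5.congr' 0 fun p _ hp => ?_
  have : Fact p.Prime := ⟨hp⟩
  have : Finite (R →+* ZMod p) := finite_hom R p
  rw [infAvg, remAvg, ← neg_div]
  congr 1
  have h6 := rt_sum τ E' p fun z t => (frobTrace2 a b c p z t : ℝ)
  simp only [remSum]
  rw [← h6]
  simp only [rt_trace]
  rw [finsum_neg_distrib]

private theorem rf_sub {X : Type} [Fintype X] (P : X → Prop) [DecidablePred P] (f : X → ℝ) :
    ∑ᶠ t : {t : X // P t}, f t.1 = ∑ t : X, if P t then f t else 0 := by
  rw [finsum_eq_sum_of_fintype, ← Finset.sum_filter]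
  exact (Finset.sum_subtype (Finset.univ.filter P) (by simp) f).symm

private theorem rf_split {R : Type} [CommRing R] (a b c D : R[X]) {n : ℕ} (τ : Fin n → R[X])
    (k : Fin n → ℕ) (δ : R) (hD : D = C δ * ∏ j, τ j ^ k j) (hk : ∀ j, k j ≠ 0) {p : ℕ}
    [Fact p.Prime] (z : R →+* ZMod p) (hδ : z δ ≠ 0)
    (hne : ∀ i j, i ≠ j → ∀ t : ZMod p, ((τ i).map z).eval t = 0 → ((τ j).map z).eval t ≠ 0) :
    remSum a b c D p z = ∑ j, remSum a b c (τ j) p z := by
  classical
  unfold remSum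
  rw [rf_sub (fun t : ZMod p => (D.map z).eval t = 0) fun t => (frobTrace2 a b c p z t : ℝ)]
  have h1 : ∀ j, (∑ᶠ t : {t : ZMod p // ((τ j).map z).eval t = 0},
      (frobTrace2 a b c p z t.1 : ℝ)) = ∑ t : ZMod p, if ((τ j).map z).eval t = 0 then
        (frobTrace2 a b c p z t : ℝ) else 0 := fun j =>
    rf_sub (fun t : ZMod p => ((τ j).map z).eval t = 0) fun t => (frobTrace2 a b c p z t : ℝ)
  simp only [h1]
  rw [Finset.sum_comm]
  refine Finset.sum_congr rfl fun t _ => ?_
  have h2 : (D.map z).eval t = z δ * ∏ j, ((τ j).map z).eval t ^ k j := by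
    rw [hD]
    simp [Polynomial.map_mul, Polynomial.map_prod, eval_prod]
  by_cases ht : (D.map z).eval t = 0
  · rw [if_pos ht]
    rw [h2] at ht
    obtain ⟨j, _, hj⟩ := Finset.prod_eq_zero_iff.1 ((mul_eq_zero.1 ht).resolve_left hδ)
    have hj' := eq_zero_of_pow_eq_zero hj
    rw [Finset.sum_eq_single j]
    · rw [if_pos hj']
    · intro i _ hij
      exact if_neg (hne j i hij.symm t hj')
    · intro h
      exact absurd (Finset.mem_univ j) h
  · rw [if_neg ht, Finset.sum_eq_zero]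
    intro j _
    refine if_neg fun hj => ht ?_
    rw [h2, Finset.prod_eq_zero (Finset.mem_univ j) (by rw [hj, zero_pow (hk j)]), mul_zero]

/-- Proof: off a closed subset (`δ`, the resultants of `τ_i`, `τ_j`; `bez` in `Bez3.lean`) the zeros of
`D_z` are the disjoint union of the zeros of the `τ_j`; sum of `tau_term`; every element of `memSet`
is one `toF (τ j)`. -/
theorem rem_factored (R : Type) [CommRing R] [IsDomain R] [CharZero R] [Algebra.FiniteType ℤ R]
    (d : ℕ) (hd : Algebra.trdeg ℤ R = (d : Cardinal)) (a b c D : R[X]) {n : ℕ} (τ : Fin n → R[X])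
    (k : Fin n → ℕ) (δ : R) (hδ : δ ≠ 0) (hD : D = C δ * ∏ j, τ j ^ k j) (hk : ∀ j, k j ≠ 0)
    (hm : ∀ j, (τ j).Monic) (hi : ∀ j, Irreducible (toF (τ j))) (hinj : Function.Injective τ)
    (hmem : ∀ q ∈ memSet (quad (toF a) (toF b) (toF c)), ∃ j, q = toF (τ j)) :
    ∃ E : R, E ≠ 0 ∧ ∀ E' : R, E' ≠ 0 → E ∣ E' →
      TauMean (fun p => remAvg a b c D E' (d + 1) p)
        (-((memSet (quad (toF a) (toF b) (toF c))).ncard : ℝ)) := by
  classical
  have hinjF : Function.Injective (toF : R[X] → (FractionRing R)[X]) :=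
    Polynomial.map_injective _ (IsFractionRing.injective R (FractionRing R))
  choose E hE0 hE using fun j => tau_term R d hd a b c (τ j) (hm j) (hi j)
  have hr : ∀ i j, ∃ r : R, r ≠ 0 ∧ (i ≠ j → ∃ A B : R[X], A * τ i + B * τ j = C r) := by
    intro i j
    by_cases hij : i = j
    · exact ⟨1, one_ne_zero, fun h => absurd hij h⟩
    · have hc : IsCoprime (toF (τ i)) (toF (τ j)) := by
        rw [(hi i).coprime_iff_not_dvd]
        intro hdvd
        have h1 : toF (τ i) = toF (τ j) :=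
          eq_of_monic_of_associated ((hm i).map _) ((hm j).map _)
            ((hi i).associated_of_dvd (hi j) hdvd)
        exact hij (hinj (hinjF h1))
      obtain ⟨r, hr, A, B, h⟩ := bez (τ i) (τ j) hc
      exact ⟨r, hr, fun _ => ⟨A, B, h⟩⟩
  choose r hr0 hr using hr
  refine ⟨δ * ((∏ j, E j) * ∏ i, ∏ j, r i j), mul_ne_zero hδ (mul_ne_zero
    (Finset.prod_ne_zero_iff.2 fun j _ => hE0 j) (Finset.prod_ne_zero_iff.2 fun i _ =>
      Finset.prod_ne_zero_iff.2 fun j _ => hr0 i j)), fun E' hE' hdvd => ?_⟩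
  have h1 : ∀ j, TauMean (fun p => remAvg a b c (τ j) E' (d + 1) p)
      (-(if toF (τ j) ∈ memSet (quad (toF a) (toF b) (toF c)) then (1 : ℝ) else 0)) := by
    intro j
    refine hE j E' hE' (dvd_trans ?_ hdvd)
    exact Dvd.dvd.mul_left (Dvd.dvd.mul_right (Finset.dvd_prod_of_mem _ (Finset.mem_univ j)) _) _
  have h2 := TauMean.sum Finset.univ (fun j p => remAvg a b c (τ j) E' (d + 1) p) _
    fun j _ => h1 j
  have h3 : (∑ j, -(if toF (τ j) ∈ memSet (quad (toF a) (toF b) (toF c)) then (1 : ℝ) else 0)) =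
      -((memSet (quad (toF a) (toF b) (toF c))).ncard : ℝ) := by
    obtain ⟨S, hS⟩ : ∃ S : Finset (Fin n), ∀ j, j ∈ S ↔
        toF (τ j) ∈ memSet (quad (toF a) (toF b) (toF c)) :=
      ⟨Finset.univ.filter fun j => toF (τ j) ∈ memSet (quad (toF a) (toF b) (toF c)), by simp⟩
    have h4 : memSet (quad (toF a) (toF b) (toF c)) = (S.image fun j => toF (τ j) :
          Finset (FractionRing R)[X]) := by
      ext q
      rw [Finset.mem_coe, Finset.mem_image]
      constructor
      · intro hq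
        obtain ⟨j, rfl⟩ := hmem q hq
        exact ⟨j, (hS j).2 hq, rfl⟩
      · rintro ⟨j, hj, rfl⟩
        exact (hS j).1 hj
    have h5 : (memSet (quad (toF a) (toF b) (toF c))).ncard = S.card := by
      rw [h4, Set.ncard_coe_finset, Finset.card_image_of_injective _ fun i j h => hinj (hinjF h)]
    rw [h5, Finset.sum_neg_distrib, neg_inj, Finset.sum_boole]
    congr 2
    ext j
    rw [Finset.mem_filter, hS]
    exact and_iff_right (Finset.mem_univ j)
  rw [h3] at h2
  refine h2.congr' 0 fun p _ hp => ?_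
  have : Fact p.Prime := ⟨hp⟩
  have : Finite (R →+* ZMod p) := finite_hom R p
  have := Fintype.ofFinite {z : R →+* ZMod p // z E' ≠ 0}
  unfold remAvg
  rw [← Finset.sum_div]
  congr 1
  simp only [finsum_eq_sum_of_fintype]
  rw [Finset.sum_comm]
  refine Finset.sum_congr rfl ?_
  rintro ⟨z, hz⟩ _
  obtain ⟨w, rfl⟩ := hdvd
  simp only [map_mul, map_prod] at hz
  have hz1 := left_ne_zero_of_mul hz
  refine rf_split a b c D τ k δ hD hk z (left_ne_zero_of_mul hz1) fun i j hij t ht => ?_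
  obtain ⟨A, B, h⟩ := hr i j hij
  refine bez_eval h z ?_ t ht
  have hz2 := right_ne_zero_of_mul (right_ne_zero_of_mul hz1)
  exact Finset.prod_ne_zero_iff.1 (Finset.prod_ne_zero_iff.1 hz2 i (Finset.mem_univ i)) j
    (Finset.mem_univ j)

end Pool.Agent.Lib.MP_1a0ddd_nt.Hyp
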