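import Pool.Agent.Lib.MP_1a0ddd_nt.Hyp.Rem
import Pool.Agent.Lib.MP_1a0ddd_nt.LW.QRed
import Pool.Agent.Lib.MP_1a0ddd_nt.Quad.Open3

/-! The traces at the zeros of any polynomial in `t`, and the average over an open subset. -/

set_option autoImplicit false

namespace Pool.Agent.Lib.MP_1a0ddd_nt.Hyp

open Polynomial Quad Filter Topology LW

private theorem rl_fact {K : Type} [Field K] {f : K[X]} (hf : f ≠ 0) :
    ∃ (m : ℕ) (p : Fin m → K[X]) (k : Fin m → ℕ) (δ : K), δ ≠ 0 ∧ (∀ i, k i ≠ 0) ∧
      (∀ i, (p i).Monic) ∧ (∀ i, Irreducible (p i)) ∧ Function.Injective p ∧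
      f = C δ * ∏ i, p i ^ k i := by
  classical
  let F := UniqueFactorizationMonoid.normalizedFactors f
  have h1 : Associated F.prod f := UniqueFactorizationMonoid.prod_normalizedFactors hf
  obtain ⟨u, hu⟩ := h1
  obtain ⟨δ, hδ, hδu⟩ := Polynomial.isUnit_iff.1 u.isUnit
  let e : Fin F.toFinset.card ≃ F.toFinset := F.toFinset.equivFin.symm
  have hirr : ∀ p ∈ F, Irreducible p := fun p hp =>
    UniqueFactorizationMonoid.irreducible_of_normalized_factor p hp
  refine ⟨F.toFinset.card, fun i => (e i : K[X]), fun i => F.count (e i : K[X]), δ,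
    hδ.ne_zero, ?_, ?_, ?_, ?_, ?_⟩
  · intro i
    exact (Multiset.count_pos.2 (Multiset.mem_toFinset.1 (e i).2)).ne'
  · intro i
    have hi := Multiset.mem_toFinset.1 (e i).2
    exact (normalize_eq_self_iff_monic (hirr _ hi).ne_zero).1
      (UniqueFactorizationMonoid.normalize_normalized_factor _ hi)
  · intro i
    exact hirr _ (Multiset.mem_toFinset.1 (e i).2)
  · intro i j hij
    exact e.injective (Subtype.ext hij)
  · have h2 : ∏ i, (e i : K[X]) ^ F.count (e i : K[X]) = F.prod := by
      rw [Finset.prod_multiset_count,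
        e.prod_comp (fun x : F.toFinset => (x : K[X]) ^ F.count (x : K[X])),
        Finset.prod_coe_sort F.toFinset (fun x : K[X] => x ^ F.count x)]
    rw [h2, hδu, mul_comm]
    exact hu.symm

private theorem rl_quad_map {R A : Type} [CommRing R] [CommRing A] (φ : R →+* A) (a b c : R[X]) :
    quad (a.map φ) (b.map φ) (c.map φ) = (quad a b c).map (mapRingHom φ) := by
  have h : ∀ f : R[X], (f.map φ).map (C : A →+* A[X]) =
      (f.map (C : R →+* R[X])).map (mapRingHom φ) := by
    intro f
    rw [Polynomial.map_map, Polynomial.map_map]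
    congr 1
    ext r
    simp
  unfold quad
  simp only [Polynomial.map_add, Polynomial.map_mul, Polynomial.map_pow, map_C, coe_mapRingHom,
    map_X, Polynomial.map_ofNat, h]

private theorem rl_mem {L L' : Type} [Field L] [Field L'] (e : L ≃+* L') (F : L[X][X])
    (τ : L[X]) : mapEquiv e τ ∈ memSet (F.map (mapRingHom (e : L →+* L'))) ↔ τ ∈ memSet F := by
  have hF : F.map (mapRingHom (e : L →+* L')) = mapEquiv (mapEquiv e) F := rfl
  have hdvd : ∀ f g : L[X][X], mapEquiv (mapEquiv e) f ∣ mapEquiv (mapEquiv e) g ↔ f ∣ g :=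
    fun f g => map_dvd_iff (mapEquiv (mapEquiv e))
  have hC : ∀ q : L[X], C (mapEquiv e q) = mapEquiv (mapEquiv e) (C q) := by
    intro q
    change C (mapEquiv e q) = (C q).map ((mapEquiv e : L[X] ≃+* L'[X]) : L[X] →+* L'[X])
    rw [map_C]
    rfl
  rw [hF]
  have hmon : (mapEquiv e τ).Monic ↔ τ.Monic :=
    Polynomial.monic_map_iff (f := (e : L →+* L'))
  unfold memSet
  rw [Set.mem_ofPred_eq, Set.mem_ofPred_eq, hmon, MulEquiv.irreducible_iff (mapEquiv e), hC, hdvd]
  refine and_congr_right fun _ => and_congr_right fun _ => and_congr_right fun _ => ?_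
  constructor
  · rintro ⟨s, hs⟩
    obtain ⟨s, rfl⟩ := (mapEquiv (mapEquiv e)).surjective s
    exact ⟨s, by rw [← hdvd, map_sub, map_pow]; exact hs⟩
  · rintro ⟨s, hs⟩
    exact ⟨mapEquiv (mapEquiv e) s, by rw [← map_pow, ← map_sub, hdvd]; exact hs⟩

private theorem rl_remSum {R : Type} [CommRing R] (s : R) (a b c D : R[X]) (p : ℕ)
    (z : Localization.Away s →+* ZMod p) :
    remSum (LW.toL s a) (LW.toL s b) (LW.toL s c) (LW.toL s D) p z =
      remSum a b c D p (z.comp (algebraMap R (Localization.Away s))) := by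
  have h : ∀ f : R[X], (LW.toL s f).map z =
      f.map (z.comp (algebraMap R (Localization.Away s))) := fun f => Polynomial.map_map _ _ _
  unfold remSum frobTrace2
  rw [h a, h b, h c, h D]

private theorem rl_remAvg {R : Type} [CommRing R] (s : R) (a b c D : R[X]) (E : R)
    (hE : s ∣ E) (m p : ℕ) (hp : p.Prime) :
    remAvg (LW.toL s a) (LW.toL s b) (LW.toL s c) (LW.toL s D)
      (algebraMap R (Localization.Away s) E) m p = remAvg a b c D E m p := by
  have : Fact p.Prime := ⟨hp⟩
  unfold remAvg
  congr 1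
  let g : {z' : Localization.Away s →+* ZMod p // z' (algebraMap R (Localization.Away s) E) ≠ 0} →
      {z : R →+* ZMod p // z E ≠ 0} :=
    fun z' => ⟨z'.1.comp (algebraMap R (Localization.Away s)), z'.2⟩
  refine finsum_eq_of_bijective g ⟨?_, ?_⟩ ?_
  · rintro ⟨y₁, h₁⟩ ⟨y₂, h₂⟩ h
    have h' : y₁.comp (algebraMap R (Localization.Away s)) =
        y₂.comp (algebraMap R (Localization.Away s)) := congrArg Subtype.val h
    apply Subtype.ext
    exact IsLocalization.ringHom_ext (Submonoid.powers s) h'
  · rintro ⟨y, hy⟩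
    have hs : y s ≠ 0 := by
      intro h0
      obtain ⟨E', rfl⟩ := hE
      apply hy
      rw [map_mul, h0, zero_mul]
    have hu : IsUnit (y s) := IsUnit.mk0 _ hs
    have hc : (IsLocalization.Away.lift s hu : Localization.Away s →+* ZMod p).comp
        (algebraMap R (Localization.Away s)) = y := IsLocalization.Away.lift_comp s hu
    refine ⟨⟨IsLocalization.Away.lift s hu, ?_⟩, Subtype.ext hc⟩
    rw [IsLocalization.Away.lift_eq]
    exact hy
  · rintro ⟨z, hz⟩
    exact rl_remSum s a b c D p z

private theorem rl_surj {R : Type} [CommRing R] (s : R) (D : Localization.Away s) :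
    ∃ (r : R) (t : Submonoid.powers s), D * algebraMap R (Localization.Away s) (t : R) =
      algebraMap R (Localization.Away s) r := by
  obtain ⟨⟨r, t⟩, hr⟩ := IsLocalization.surj (Submonoid.powers s) D
  exact ⟨r, t, hr⟩

/-- Proof: over `R' = R[1/s]` the polynomial `D` is `δ ∏ τ_j^(k_j)` (factor over the fraction field,
common denominator; compare `exists_pencil` in `LW/QRed.lean`); `rem_factored` for `R'`; the
homomorphisms `z` of `R` with `z E' ≠ 0`, `s ∣ E'`, are those of `R'`, `remSum` is the same. The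
fraction fields of `R` and `R'` are the same (as in `pencilRank_loc`). -/
theorem rem_limit (R : Type) [CommRing R] [IsDomain R] [CharZero R] [Algebra.FiniteType ℤ R]
    (d : ℕ) (hd : Algebra.trdeg ℤ R = (d : Cardinal)) (a b c D : R[X]) (hD : D ≠ 0)
    (hfin : (memSet (quad (toF a) (toF b) (toF c))).Finite)
    (hmem : ∀ q ∈ memSet (quad (toF a) (toF b) (toF c)), q ∣ toF D) :
    ∃ E : R, E ≠ 0 ∧ ∀ E' : R, E' ≠ 0 → E ∣ E' →
      TauMean (fun p => remAvg a b c D E' (d + 1) p)
        (-((memSet (quad (toF a) (toF b) (toF c))).ncard : ℝ)) := by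
  classical
  have hinjF : Function.Injective (algebraMap R (FractionRing R)) :=
    IsFractionRing.injective R (FractionRing R)
  have hDK : toF D ≠ 0 := by
    intro h0
    apply hD
    apply Polynomial.map_injective _ hinjF
    rw [Polynomial.map_zero]
    exact h0
  obtain ⟨m, P, k, δK, hδ, hk, hmon, hirr, hPinj, hfac⟩ := rl_fact hDK
  let Z : Finset (FractionRing R) := insert δK (Finset.univ.biUnion fun i => (P i).coeffs)
  obtain ⟨⟨s, hsm⟩, hs⟩ :=
    IsLocalization.exist_integer_multiples_of_finset (nonZeroDivisors R) Z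
  have hs0 : s ≠ 0 := nonZeroDivisors.ne_zero hsm
  have hsK : algebraMap R (FractionRing R) s ≠ 0 := by
    rw [Ne, IsFractionRing.to_map_eq_zero_iff]
    exact hs0
  obtain ⟨i1, i2, i3, htr, hinjL⟩ := loc_facts R s hs0 (Localization.Away s)
  obtain ⟨ψ, hψ⟩ : ∃ ψ : Localization.Away s →+* FractionRing R,
      ∀ r, ψ (algebraMap R (Localization.Away s) r) = algebraMap R (FractionRing R) r :=
    ⟨IsLocalization.Away.lift (S := Localization.Away s) s
      (g := algebraMap R (FractionRing R)) (IsUnit.mk0 _ hsK),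
      fun r => IsLocalization.Away.lift_eq s _ r⟩
  let _ : Algebra (Localization.Away s) (FractionRing R) := ψ.toAlgebra
  have tow : IsScalarTower R (Localization.Away s) (FractionRing R) :=
    IsScalarTower.of_algebraMap_eq fun r => (hψ r).symm
  have hfr : IsFractionRing (Localization.Away s) (FractionRing R) :=
    IsFractionRing.isFractionRing_of_isDomain_of_isLocalization (Submonoid.powers s)
      (Localization.Away s) (FractionRing R)
  have hψi : Function.Injective ψ :=
    IsFractionRing.injective (Localization.Away s) (FractionRing R)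
  let e : FractionRing (Localization.Away s) ≃+* FractionRing R :=
    (FractionRing.algEquiv (Localization.Away s) (FractionRing R)).toRingEquiv
  have he : ∀ x, e (algebraMap (Localization.Away s) _ x) = ψ x := fun x =>
    (FractionRing.algEquiv (Localization.Away s) (FractionRing R)).commutes x
  have hrange : ∀ z ∈ Z, ∃ x, ψ x = z := by
    intro z hz
    obtain ⟨r, hr⟩ := hs z hz
    refine ⟨algebraMap R _ r * IsLocalization.Away.invSelf (S := Localization.Away s) s, ?_⟩
    apply mul_right_cancel₀ hsK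
    have hr' : algebraMap R (FractionRing R) r = algebraMap R (FractionRing R) s * z := by
      rw [hr, Algebra.smul_def]
    rw [← hψ s, ← map_mul, mul_assoc, mul_comm (IsLocalization.Away.invSelf s),
      IsLocalization.Away.mul_invSelf, mul_one, hψ, hr', hψ, mul_comm]
  obtain ⟨δ, hδe⟩ : ∃ δ, ψ δ = δK := hrange _ (Finset.mem_insert_self _ _)
  have hlift : ∀ i, ∃ q : (Localization.Away s)[X], q.map ψ = P i ∧ q.Monic := by
    intro i
    have h1 : P i ∈ lifts ψ := by
      rw [lifts_iff_coeff_lifts]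
      intro n
      by_cases hn : (P i).coeff n = 0
      · exact ⟨0, by rw [map_zero, hn]⟩
      · exact hrange _ (Finset.mem_insert_of_mem
          (Finset.mem_biUnion.2 ⟨i, Finset.mem_univ _, coeff_mem_coeffs hn⟩))
    obtain ⟨q, hq1, -, hq2⟩ := lifts_and_natDegree_eq_and_monic h1 (hmon i)
    exact ⟨q, hq1, hq2⟩
  choose q hq1 hq2 using hlift
  have htoL : ∀ f : R[X], (LW.toL s f).map ψ = toF f := by
    intro f
    rw [Polynomial.map_map]
    congr 1
    ext r
    exact hψ r
  have htoF : ∀ f : (Localization.Away s)[X], mapEquiv e (toF f) = f.map ψ := by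
    intro f
    change (toF f).map (e : FractionRing (Localization.Away s) →+* FractionRing R) = f.map ψ
    rw [Polynomial.map_map]
    congr 1
    ext x
    exact he x
  have hquad : (quad (toF (LW.toL s a)) (toF (LW.toL s b)) (toF (LW.toL s c))).map
      (mapRingHom (e : FractionRing (Localization.Away s) →+* FractionRing R)) =
        quad (toF a) (toF b) (toF c) := by
    have h1 : ∀ f : R[X], (toF (LW.toL s f)).map
        (e : FractionRing (Localization.Away s) →+* FractionRing R) = toF f := by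
      intro f
      rw [← htoL f, ← htoF]
      rfl
    rw [← rl_quad_map, h1, h1, h1]
  have hset : memSet (quad (toF a) (toF b) (toF c)) = (mapEquiv e) ''
      memSet (quad (toF (LW.toL s a)) (toF (LW.toL s b)) (toF (LW.toL s c))) := by
    rw [← hquad]
    ext τ'
    constructor
    · intro h
      obtain ⟨τ, rfl⟩ := (mapEquiv e).surjective τ'
      exact ⟨τ, (rl_mem e _ τ).1 h, rfl⟩
    · rintro ⟨τ, h, rfl⟩
      exact (rl_mem e _ τ).2 h
  have hcard : (memSet (quad (toF a) (toF b) (toF c))).ncard =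
      (memSet (quad (toF (LW.toL s a)) (toF (LW.toL s b)) (toF (LW.toL s c)))).ncard := by
    rw [hset, Set.ncard_image_of_injective _ (mapEquiv e).injective]
  have hD' : LW.toL s D = C δ * ∏ i, q i ^ k i := by
    apply Polynomial.map_injective ψ hψi
    rw [htoL, hfac, Polynomial.map_mul, map_C, hδe, Polynomial.map_prod]
    congr 1
    refine Finset.prod_congr rfl fun i _ => ?_
    rw [Polynomial.map_pow, hq1]
  obtain ⟨E₁, hE₁, hlim⟩ := rem_factored (Localization.Away s) d (htr.trans hd) (LW.toL s a)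
    (LW.toL s b) (LW.toL s c) (LW.toL s D) q k δ (by
      rintro rfl
      exact hδ (by rw [← hδe, map_zero])) hD' hk hq2 (by
      intro i
      have h2 : Irreducible (mapEquiv e (toF (q i))) := by
        rw [htoF, hq1]
        exact hirr i
      exact (MulEquiv.irreducible_iff (mapEquiv e)).1 h2) (by
      intro i j hij
      apply hPinj
      rw [← hq1, ← hq1, hij]) (by
      intro τ hτ
      have h1 : mapEquiv e τ ∈ memSet (quad (toF a) (toF b) (toF c)) := by
        rw [hset]
        exact ⟨τ, hτ, rfl⟩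
      have h2 := hmem _ h1
      obtain ⟨g1, g2, -, -⟩ := h1
      rw [hfac] at h2
      have g3 : Prime (mapEquiv e τ) := g2.prime
      rcases g3.dvd_or_dvd h2 with h3 | h3
      · exfalso
        apply g2.not_isUnit
        exact isUnit_of_dvd_unit h3 (isUnit_C.2 (IsUnit.mk0 _ hδ))
      · obtain ⟨j, -, hj⟩ := (Prime.dvd_finsetProd_iff g3 _).1 h3
        refine ⟨j, (mapEquiv e).injective ?_⟩
        rw [htoF, hq1]
        exact eq_of_monic_of_associated g1 (hmon j)
          (g2.associated_of_dvd (hirr j) (g3.dvd_of_dvd_pow hj)))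
  obtain ⟨r₀, t, hr⟩ := rl_surj s E₁
  have htu : IsUnit (algebraMap R (Localization.Away s) t) := IsLocalization.map_units _ t
  have hr0 : r₀ ≠ 0 := by
    rintro rfl
    rw [map_zero] at hr
    exact hE₁ ((htu.mul_left_eq_zero).1 hr)
  refine ⟨s * r₀, mul_ne_zero hs0 hr0, fun E' hE' hdvd => ?_⟩
  have h1 : algebraMap R (Localization.Away s) E' ≠ 0 := by
    intro h0
    exact hE' (hinjL (by rw [h0, map_zero]))
  have h2 : E₁ ∣ algebraMap R (Localization.Away s) E' := by
    have h3 : E₁ ∣ algebraMap R (Localization.Away s) r₀ := ⟨_, hr.symm⟩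
    exact h3.trans (map_dvd _ ((dvd_mul_left _ _).trans hdvd))
  have key := hlim _ h1 h2
  rw [← hcard] at key
  unfold TauMean at key ⊢
  refine key.congr fun T => ?_
  refine congrArg (fun z : ℝ => z / (T : ℝ)) (Finset.sum_congr rfl fun p hp => ?_)
  beta_reduce
  rw [rl_remAvg s a b c D E' ((dvd_mul_right _ _).trans hdvd) (d + 1) p
    (Finset.mem_filter.1 hp).2]

private theorem card_le_two {p : ℕ} [Fact p.Prime] (v : ZMod p) :
    (Finset.univ.filter fun w : ZMod p => w ^ 2 = v).card ≤ 2 := by
  have h1 : (X ^ 2 - C v : (ZMod p)[X]) ≠ 0 := (monic_X_pow_sub_C v two_ne_zero).ne_zero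
  have h2 : (X ^ 2 - C v : (ZMod p)[X]).natDegree = 2 := natDegree_X_pow_sub_C
  refine (le_trans (Finset.card_le_card ?_)
    ((X ^ 2 - C v : (ZMod p)[X]).roots.toFinset_card_le.trans (card_roots' _))).trans h2.le
  intro w hw
  rw [Multiset.mem_toFinset, mem_roots h1, IsRoot, eval_sub, eval_pow, eval_X, eval_C,
    (Finset.mem_filter.1 hw).2, sub_self]

private theorem abs_frobTrace2 {R : Type} [CommRing R] (a b c : R[X]) (p : ℕ) [Fact p.Prime]
    (z : R →+* ZMod p) (t : ZMod p) : |(frobTrace2 a b c p z t : ℝ)| ≤ p := by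
  classical
  have h1 : Nat.card {P : ZMod p × ZMod p // P.2 ^ 2 = (a.map z).eval P.1 * t ^ 2 +
      2 * (b.map z).eval P.1 * t + (c.map z).eval P.1} ≤ 2 * p := by
    rw [Nat.card_eq_fintype_card, Fintype.card_subtype, Finset.card_filter,
      ← Finset.univ_product_univ, Finset.sum_product]
    calc _ ≤ ∑ _x : ZMod p, 2 := by
          refine Finset.sum_le_sum fun x _ => ?_
          rw [← Finset.card_filter]
          exact card_le_two ((a.map z).eval x * t ^ 2 + 2 * (b.map z).eval x * t +
            (c.map z).eval x)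
      _ = 2 * p := by
          rw [Finset.sum_const, Finset.card_univ, ZMod.card, smul_eq_mul, mul_comm]
  have h2 : (Nat.card {P : ZMod p × ZMod p // P.2 ^ 2 = (a.map z).eval P.1 * t ^ 2 +
      2 * (b.map z).eval P.1 * t + (c.map z).eval P.1} : ℝ) ≤ 2 * p := by exact_mod_cast h1
  have h3 : (0 : ℝ) ≤ (Nat.card {P : ZMod p × ZMod p // P.2 ^ 2 = (a.map z).eval P.1 * t ^ 2 +
      2 * (b.map z).eval P.1 * t + (c.map z).eval P.1} : ℝ) := Nat.cast_nonneg _
  unfold frobTrace2
  push_cast
  rw [abs_le]
  constructor <;> linarith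

private theorem finsum_subtype' {α : Type} [Fintype α] (P : α → Prop) [DecidablePred P]
    (f : α → ℝ) : ∑ᶠ x : {x // P x}, f x.1 = ∑ x, if P x then f x else 0 := by
  rw [finsum_eq_sum_of_fintype, ← Finset.sum_filter,
    Finset.sum_subtype (p := P) (Finset.univ.filter P) (fun x => by simp) f]

private theorem card_roots_le {p : ℕ} [Fact p.Prime] (P : (ZMod p)[X]) (hP : P ≠ 0) :
    (Finset.univ.filter fun x : ZMod p => P.eval x = 0).card ≤ P.natDegree := by
  classical
  refine le_trans (Finset.card_le_card ?_) (P.roots.toFinset_card_le.trans P.card_roots')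
  intro x hx
  rw [Multiset.mem_toFinset, mem_roots hP]
  exact (Finset.mem_filter.1 hx).2

private theorem abs_remSum {R : Type} [CommRing R] (a b c D : R[X]) (p : ℕ) [Fact p.Prime]
    (z : R →+* ZMod p) (hD : D.map z ≠ 0) (B : ℝ) (hB0 : 0 ≤ B)
    (hB : ∀ t : ZMod p, (D.map z).eval t = 0 → |(frobTrace2 a b c p z t : ℝ)| ≤ B) :
    |remSum a b c D p z| ≤ D.natDegree * B := by
  classical
  unfold remSum
  rw [finsum_subtype' (fun t : ZMod p => (D.map z).eval t = 0)
    (fun t => (frobTrace2 a b c p z t : ℝ)), ← Finset.sum_filter]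
  calc _ ≤ ∑ t ∈ Finset.univ.filter (fun t : ZMod p => (D.map z).eval t = 0),
        |(frobTrace2 a b c p z t : ℝ)| := Finset.abs_sum_le_sum_abs _ _
    _ ≤ ∑ t ∈ Finset.univ.filter (fun t : ZMod p => (D.map z).eval t = 0), B :=
        Finset.sum_le_sum fun t ht => hB t (Finset.mem_filter.1 ht).2
    _ = (Finset.univ.filter (fun t : ZMod p => (D.map z).eval t = 0)).card * B := by
        rw [Finset.sum_const, nsmul_eq_mul]
    _ ≤ D.natDegree * B := by
        refine mul_le_mul_of_nonneg_right ?_ hB0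
        exact_mod_cast (card_roots_le _ hD).trans natDegree_map_le

private theorem line_sum {R : Type} [CommRing R] (a b c D : R[X]) (p : ℕ) [Fact p.Prime]
    (z : R →+* ZMod p) :
    ∑ t : ZMod p, (if (D.map z).eval t ≠ 0 then (frobTrace2 a b c p z t : ℝ) else 0) =
      ∑ᶠ t : ZMod p, (frobTrace2 a b c p z t : ℝ) - remSum a b c D p z := by
  classical
  unfold remSum
  rw [finsum_subtype' (fun t : ZMod p => (D.map z).eval t = 0)
    (fun t => (frobTrace2 a b c p z t : ℝ)), finsum_eq_sum_of_fintype, ← Finset.sum_sub_distrib]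
  refine Finset.sum_congr rfl fun t _ => ?_
  by_cases h : (D.map z).eval t = 0
  · rw [if_pos h, if_neg (not_not.mpr h)]; ring
  · rw [if_neg h, if_pos h]; ring

/-- the sum over the points of an open subset of `Spec R[t]`, line by line -/
private theorem traceAvg_eq {R : Type} [CommRing R] (a b c D : R[X]) (m p : ℕ) [Fact p.Prime]
    [Fintype (R →+* ZMod p)] :
    traceAvg (quad a b c) D m p = (∑ z : R →+* ZMod p,
      (∑ᶠ t : ZMod p, (frobTrace2 a b c p z t : ℝ) - remSum a b c D p z)) / (p : ℝ) ^ m := by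
  classical
  have hfX : Finite (R[X] →+* ZMod p) := Finite.of_equiv _ (ptEquiv R p).symm
  have := Fintype.ofFinite (R[X] →+* ZMod p)
  rw [traceAvg, finsum_subtype' (fun y : R[X] →+* ZMod p => y D ≠ 0)
    (fun y => (fibreTrace (quad a b c) p y : ℝ)),
    ← (ptEquiv R p).symm.sum_comp, Fintype.sum_prod_type]
  congr 1
  refine Finset.sum_congr rfl fun z _ => ?_
  rw [← line_sum]
  refine Finset.sum_congr rfl fun t _ => ?_
  have e : ((ptEquiv R p).symm (z, t)) = eval₂RingHom z t := rfl
  rw [e, fibreTrace_quad]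
  have e2 : (eval₂RingHom z t) D = (D.map z).eval t := by
    rw [coe_eval₂RingHom, eval_map]
  rw [e2]

/-- Proof (compare `open_limit` in `Quad/Open3.lean`): let `E' = D₀ · E · lc(D)`. Over the `z` with
`z E' ≠ 0` the sum over `{D ≠ 0}` is the full sum minus `remSum`: averages `v` and `μ`. Over the `z`
with `z D₀ ≠ 0`, `z E' = 0` the sum over `{D_z ≠ 0}` on the line is `≤ (K + deg D) p` in absolute value
(if `D_z = 0` it is empty), and the number of these `z` is negligible (`langWeil`). The `z` with
`z D₀ = 0` do not occur (`C D₀ ∣ D`). -/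
theorem open_limit5 (R : Type) [CommRing R] [IsDomain R] [CharZero R] [Algebra.FiniteType ℤ R]
    (d : ℕ) (hR : LangWeilT R d) (a b c : R[X]) (v μ : ℝ) (D₀ : R) (hD₀ : D₀ ≠ 0)
    (h1 : ∀ D : R, D ≠ 0 → D₀ ∣ D → TauMean (fun p => nagaoAvg2 a b c D d p) v)
    (h2 : ∃ (K : ℝ) (p₀ : ℕ), ∀ p : ℕ, p₀ ≤ p → p.Prime → ∀ z : R →+* ZMod p, z D₀ ≠ 0 →
        |∑ᶠ t : ZMod p, (frobTrace2 a b c p z t : ℝ)| ≤ K * p)
    (D : R[X]) (hD : D ≠ 0) (hdvd : C D₀ ∣ D)
    (h3 : ∃ E : R, E ≠ 0 ∧ ∀ E' : R, E' ≠ 0 → E ∣ E' →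
      TauMean (fun p => remAvg a b c D E' (d + 1) p) μ) :
    TauMean (fun p => traceAvg (quad a b c) D (d + 1) p) (v - μ) := by
  classical
  have hnoeth : IsNoetherianRing R := Algebra.FiniteType.isNoetherianRing ℤ R
  obtain ⟨N, hN, hrem⟩ := h3
  obtain ⟨E, hE⟩ : ∃ E : R, E = D₀ * (D.leadingCoeff * N) := ⟨_, rfl⟩
  have hE0 : E ≠ 0 := by
    rw [hE]
    exact mul_ne_zero hD₀ (mul_ne_zero (leadingCoeff_ne_zero.mpr hD) hN)
  have hEd : D₀ ∣ E := ⟨_, hE⟩
  have hEN : N ∣ E := ⟨D₀ * D.leadingCoeff, by rw [hE]; ring⟩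
  obtain ⟨K, p₁, hK⟩ := h2
  have hfinhom : ∀ p : ℕ, p.Prime → Finite (R →+* ZMod p) := by
    intro p hp
    have : Fact p.Prime := ⟨hp⟩
    exact finite_hom R p
  have hzE : ∀ p : ℕ, p.Prime → ∀ z : R →+* ZMod p, z E ≠ 0 → z D₀ ≠ 0 := by
    intro p hp z hz
    have : Fact p.Prime := ⟨hp⟩
    rw [hE, map_mul] at hz
    exact left_ne_zero_of_mul hz
  set S : (p : ℕ) → (R →+* ZMod p) → ℝ := fun p z =>
    ∑ᶠ t : ZMod p, (frobTrace2 a b c p z t : ℝ) with hS
  set U : (p : ℕ) → (R →+* ZMod p) → ℝ := fun p z => remSum a b c D p z with hU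
  set G₂ : ℕ → ℝ := fun p => (∑ᶠ z : {z : R →+* ZMod p // z E = 0}, (S p z.1 - U p z.1)) /
    (p : ℝ) ^ (d + 1) with hG₂
  set Q : R → ℕ → ℝ := fun D p =>
    (Nat.card {z : R →+* ZMod p // z D ≠ 0} : ℝ) / (p : ℝ) ^ d with hQ
  have hQ0 : TauMean (fun p => Q D₀ p - Q E p) 0 := by
    have := (hR D₀ hD₀).sub (hR E hE0)
    rwa [sub_self] at this
  -- exact identity
  have hid : ∀ p : ℕ, p.Prime →
      traceAvg (quad a b c) D (d + 1) p =
        (nagaoAvg2 a b c E d p - remAvg a b c D E (d + 1) p) + G₂ p := by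
    intro p hp
    have : Fact p.Prime := ⟨hp⟩
    have := hfinhom p hp
    have := Fintype.ofFinite (R →+* ZMod p)
    rw [traceAvg_eq, nagaoAvg2, remAvg, hG₂]
    simp only
    rw [finsum_subtype' (fun z : R →+* ZMod p => z E ≠ 0) (fun z => S p z),
      finsum_subtype' (fun z : R →+* ZMod p => z E ≠ 0) (fun z => remSum a b c D p z),
      finsum_subtype' (fun z : R →+* ZMod p => z E = 0) (fun z => S p z - U p z),
      ← sub_div, ← add_div, ← Finset.sum_sub_distrib, ← Finset.sum_add_distrib]
    congr 1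
    refine Finset.sum_congr rfl fun z _ => ?_
    by_cases h : z E = 0
    · rw [if_neg (not_not.mpr h), if_neg (not_not.mpr h), if_pos h]
      simp only [hS, hU]; ring
    · rw [if_pos h, if_pos h, if_neg h]
      simp only [hS]; ring
  have hG₂0 : TauMean G₂ 0 := by
    refine hQ0.of_abs_le (K + D.natDegree) p₁ fun p hpp hp => ?_
    have : Fact p.Prime := ⟨hp⟩
    have := hfinhom p hp
    have := Fintype.ofFinite (R →+* ZMod p)
    have hp0 : (0 : ℝ) < p := by exact_mod_cast hp.pos
    have h3 : ∀ z : R →+* ZMod p, z E = 0 →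
        |S p z - U p z| ≤ if z D₀ ≠ 0 then (K + D.natDegree) * p else 0 := by
      intro z hz
      by_cases hz0 : z D₀ = 0
      · rw [if_neg (not_not.mpr hz0)]
        have h4 : D.map z = 0 := by
          obtain ⟨k, hk⟩ := hdvd
          rw [hk, Polynomial.map_mul, map_C, hz0, C_0, zero_mul]
        have h5 := line_sum a b c D p z
        have h6 : ∑ t : ZMod p, (if (D.map z).eval t ≠ 0 then
            (frobTrace2 a b c p z t : ℝ) else 0) = 0 := by
          refine Finset.sum_eq_zero fun t _ => ?_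
          rw [h4, eval_zero, if_neg (not_not.mpr rfl)]
        rw [h6] at h5
        simp only [hS, hU]
        rw [← h5, abs_zero]
      · rw [if_pos hz0]
        by_cases h4 : D.map z = 0
        · have h5 := line_sum a b c D p z
          have h6 : ∑ t : ZMod p, (if (D.map z).eval t ≠ 0 then
              (frobTrace2 a b c p z t : ℝ) else 0) = 0 := by
            refine Finset.sum_eq_zero fun t _ => ?_
            rw [h4, eval_zero, if_neg (not_not.mpr rfl)]
          rw [h6] at h5
          simp only [hS, hU]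
          rw [← h5, abs_zero]
          have h7 := (abs_nonneg _).trans (hK p hpp hp z hz0)
          have h8 : (0 : ℝ) ≤ D.natDegree * p := by positivity
          nlinarith
        · have h5 := hK p hpp hp z hz0
          have h6 := abs_remSum a b c D p z h4 p hp0.le fun t _ => abs_frobTrace2 a b c p z t
          calc |S p z - U p z| ≤ |S p z| + |U p z| := abs_sub _ _
            _ ≤ K * p + D.natDegree * p := add_le_add h5 h6
            _ = _ := by ring
    have h4 : |∑ z : R →+* ZMod p, if z E = 0 then S p z - U p z else 0| ≤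
        (K + D.natDegree) * p * ((Nat.card {z : R →+* ZMod p // z D₀ ≠ 0} : ℝ) -
          Nat.card {z : R →+* ZMod p // z E ≠ 0}) := by
      calc _ ≤ ∑ z : R →+* ZMod p, |if z E = 0 then S p z - U p z else 0| :=
            Finset.abs_sum_le_sum_abs _ _
        _ ≤ ∑ z : R →+* ZMod p, (K + D.natDegree) * p *
            ((if z D₀ ≠ 0 then 1 else 0) - (if z E ≠ 0 then 1 else 0)) := by
            refine Finset.sum_le_sum fun z _ => ?_
            by_cases hz : z E = 0
            · rw [if_pos hz, if_neg (not_not.mpr hz)]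
              refine (h3 z hz).trans ?_
              by_cases hz0 : z D₀ = 0
              · rw [if_neg (not_not.mpr hz0), if_neg (not_not.mpr hz0)]; simp
              · rw [if_pos hz0, if_pos hz0]; simp
            · rw [if_neg hz, if_pos hz, if_pos (hzE p hp z hz)]; simp
        _ = _ := by
            rw [← Finset.mul_sum, Finset.sum_sub_distrib]
            congr 1
            rw [Nat.card_eq_fintype_card, Nat.card_eq_fintype_card, Fintype.card_subtype,
              Fintype.card_subtype, Finset.card_filter, Finset.card_filter]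
            push_cast
            rfl
    rw [hG₂]
    simp only
    rw [finsum_subtype' (fun z : R →+* ZMod p => z E = 0) (fun z => S p z - U p z), abs_div,
      abs_of_pos (pow_pos hp0 (d + 1))]
    calc _ ≤ (K + D.natDegree) * p * ((Nat.card {z : R →+* ZMod p // z D₀ ≠ 0} : ℝ) -
          Nat.card {z : R →+* ZMod p // z E ≠ 0}) / (p : ℝ) ^ (d + 1) :=
          div_le_div_of_nonneg_right h4 (pow_pos hp0 (d + 1)).le
      _ = (K + D.natDegree) * (Q D₀ p - Q E p) := by
          simp only [hQ]
          rw [pow_succ]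
          field_simp
  have h3 := ((h1 E hE0 hEd).sub (hrem E hE0 hEN)).add hG₂0
  rw [add_zero] at h3
  exact h3.congr' 0 fun p _ hp => hid p hp

end Pool.Agent.Lib.MP_1a0ddd_nt.Hyp
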