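import Pool.Agent.Lib.MP_1a0ddd_nt.Hyp.Chi

/-! The group of the vertical places. -/

set_option autoImplicit false

namespace Pool.Agent.Lib.MP_1a0ddd_nt.Hyp

open Module

/-- Proof: the quotient is the direct sum over `p ∈ P` of the groups `ℤ^(fibre of p)/(m)`; for `p ∉ S`
it is `ℤ/(m x)`, finite and for almost all `p` zero; for `p ∈ S` it is `ℤ²/(m₁, m₂)` of rank 1. For
the rank: the map to `S →₀ ℤ`, `x ↦ ± m'` (`m'` the multiplicity of the other point of the fibre),
zero outside `S`, has a finite cokernel and a finite kernel. -/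
theorem vert_group {X P : Type} (f : X → P) (m : X → ℕ) (hm : ∀ x, 0 < m x)
    (hfib : ∀ p, {x | f x = p}.Finite) (S : Set P) (hS : S.Finite)
    (h1 : ∀ p ∉ S, {x | f x = p}.ncard = 1) (h2 : ∀ p ∈ S, {x | f x = p}.ncard = 2)
    (hfin : {x | m x ≠ 1}.Finite) :
    Module.Finite ℤ ((X →₀ ℤ) ⧸ Submodule.span ℤ
      (Set.range fun p => ∑ x ∈ (hfib p).toFinset, Finsupp.single x (m x : ℤ))) ∧
    finrank ℤ ((X →₀ ℤ) ⧸ Submodule.span ℤ
      (Set.range fun p => ∑ x ∈ (hfib p).toFinset, Finsupp.single x (m x : ℤ))) = S.ncard := by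
  classical
  obtain ⟨r, hr⟩ : ∃ r : P → (X →₀ ℤ),
      r = fun p => ∑ x ∈ (hfib p).toFinset, Finsupp.single x (m x : ℤ) := ⟨_, rfl⟩
  rw [← hr]
  obtain ⟨N, hN⟩ : ∃ N : Submodule ℤ (X →₀ ℤ), N = Submodule.span ℤ (Set.range r) := ⟨_, rfl⟩
  rw [← hN]
  have hrN : ∀ p, r p ∈ N := fun p => by rw [hN]; exact Submodule.subset_span ⟨p, rfl⟩
  -- the fibres
  have hone : ∀ x, f x ∉ S → r (f x) = Finsupp.single x (m x : ℤ) := by
    intro x hx
    obtain ⟨y, hy⟩ := Set.ncard_eq_one.1 (h1 _ hx)
    have hxy : x = y := by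
      have : x ∈ {z | f z = f x} := rfl
      rw [hy] at this
      exact this
    have e : (hfib (f x)).toFinset = {x} := by
      ext z
      rw [Set.Finite.mem_toFinset, hy, hxy, Finset.mem_singleton, Set.mem_singleton_iff]
    rw [hr]
    show ∑ z ∈ (hfib (f x)).toFinset, Finsupp.single z (m z : ℤ) = _
    rw [e, Finset.sum_singleton]
  have htwo : ∀ p : S, ∃ x y : X, x ≠ y ∧ {z | f z = (p : P)} = {x, y} := by
    intro p
    exact Set.ncard_eq_two.1 (h2 p p.2)
  choose u v huv hfuv using htwo
  have hfu : ∀ p : S, f (u p) = p := fun p => by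
    have : u p ∈ {z | f z = (p : P)} := by rw [hfuv]; exact Or.inl rfl
    exact this
  have hfv : ∀ p : S, f (v p) = p := fun p => by
    have : v p ∈ {z | f z = (p : P)} := by rw [hfuv]; exact Or.inr rfl
    exact this
  have hrp : ∀ p : S, r p = Finsupp.single (u p) (m (u p) : ℤ) +
      Finsupp.single (v p) (m (v p) : ℤ) := by
    intro p
    have e : (hfib p).toFinset = {u p, v p} := by
      ext z
      rw [Set.Finite.mem_toFinset, hfuv, Finset.mem_insert, Finset.mem_singleton,
        Set.mem_insert_iff, Set.mem_singleton_iff]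
    rw [hr]
    show ∑ z ∈ (hfib (p : P)).toFinset, Finsupp.single z (m z : ℤ) = _
    rw [e, Finset.sum_pair (huv p)]
  have hrf : ∀ p z, f z ≠ p → r p z = 0 := by
    intro p z hz
    rw [hr]
    show (∑ x ∈ (hfib p).toFinset, Finsupp.single x (m x : ℤ)) z = 0
    rw [Finsupp.finsetSum_apply]
    refine Finset.sum_eq_zero fun x hx => ?_
    rw [Set.Finite.mem_toFinset] at hx
    rw [Finsupp.single_apply, if_neg]
    rintro rfl
    exact hz hx
  -- finite generation
  have hX0 : ({x | m x ≠ 1} ∪ {x | f x ∈ S}).Finite := by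
    refine hfin.union ?_
    have e : {x | f x ∈ S} = ⋃ p ∈ S, {x | f x = p} := by
      ext x
      simp
    rw [e]
    exact hS.biUnion fun p _ => hfib p
  have hgen : Module.Finite ℤ ((X →₀ ℤ) ⧸ N) := by
    refine ⟨⟨hX0.toFinset.image fun x => N.mkQ (Finsupp.single x 1), ?_⟩⟩
    rw [eq_top_iff]
    rintro z -
    obtain ⟨w, rfl⟩ := N.mkQ_surjective z
    induction w using Finsupp.induction_linear with
    | zero => rw [map_zero]; exact Submodule.zero_mem _
    | add a b ha hb => rw [map_add]; exact Submodule.add_mem _ ha hb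
    | single x k =>
      have e : Finsupp.single x k = k • Finsupp.single x (1 : ℤ) := by
        rw [Finsupp.smul_single, smul_eq_mul, mul_one]
      rw [e, map_smul]
      refine Submodule.smul_mem _ _ ?_
      by_cases hx : x ∈ ({x | m x ≠ 1} ∪ {x | f x ∈ S})
      · refine Submodule.subset_span ?_
        rw [Finset.coe_image]
        exact ⟨x, by rwa [Set.Finite.coe_toFinset], rfl⟩
      · have hx' : m x = 1 ∧ f x ∉ S := by
          constructor
          · by_contra h; exact hx (Or.inl h)
          · intro h; exact hx (Or.inr h)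
        have h3 := hrN (f x)
        rw [hone x hx'.2, hx'.1, Nat.cast_one] at h3
        have h4 : N.mkQ (Finsupp.single x 1) = 0 := by
          rw [Submodule.mkQ_apply, Submodule.Quotient.mk_eq_zero]
          exact h3
        rw [h4]
        exact Submodule.zero_mem _
  refine ⟨hgen, ?_⟩
  -- the map from the free group on `S`
  have hSf : Fintype S := hS.fintype
  let φ : (S →₀ ℤ) →ₗ[ℤ] ((X →₀ ℤ) ⧸ N) :=
    Finsupp.linearCombination ℤ fun p : S => N.mkQ (Finsupp.single (u p) 1)
  have hφ : ∀ a : S →₀ ℤ, φ a = N.mkQ (a.sum fun p k => Finsupp.single (u p) k) := by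
    intro a
    rw [Finsupp.linearCombination_apply, Finsupp.sum, Finsupp.sum, map_sum]
    refine Finset.sum_congr rfl fun p _ => ?_
    rw [← map_smul, Finsupp.smul_single, smul_eq_mul, mul_one]
  have hker : ∀ w ∈ N, ∀ p : S, (m (v p) : ℤ) * w (u p) = m (u p) * w (v p) := by
    intro w hw p
    rw [hN] at hw
    induction hw using Submodule.span_induction with
    | mem z hz =>
      obtain ⟨p', rfl⟩ := hz
      by_cases hp : p' = p
      · rw [hp, hrp p, Finsupp.add_apply, Finsupp.add_apply, Finsupp.single_eq_same,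
          Finsupp.single_eq_same, Finsupp.single_apply, Finsupp.single_apply, if_neg (huv p).symm,
          if_neg (huv p)]
        ring
      · rw [hrf p' (u p) (by rw [hfu]; exact fun h => hp h.symm),
          hrf p' (v p) (by rw [hfv]; exact fun h => hp h.symm)]
        ring
    | zero => simp
    | add a b _ _ ha hb =>
      rw [Finsupp.add_apply, Finsupp.add_apply, mul_add, mul_add, ha, hb]
    | smul k a _ ha =>
      rw [Finsupp.smul_apply, Finsupp.smul_apply, smul_eq_mul, smul_eq_mul]
      linear_combination k * ha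
  have hinjU : Function.Injective u := by
    intro p p' h
    have := congrArg f h
    rw [hfu, hfu] at this
    exact Subtype.ext this
  have hval : ∀ (a : S →₀ ℤ) (p : S), (a.sum fun p k => Finsupp.single (u p) k) (u p) = a p := by
    intro a p
    rw [Finsupp.sum, Finsupp.finsetSum_apply]
    rw [Finset.sum_eq_single p]
    · rw [Finsupp.single_eq_same]
    · intro p' _ hp'
      rw [Finsupp.single_apply, if_neg fun h => hp' (hinjU h)]
    · intro hp
      rw [Finsupp.notMem_support_iff.1 hp, Finsupp.single_zero, Finsupp.zero_apply]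
  have hval' : ∀ (a : S →₀ ℤ) (p : S), (a.sum fun p k => Finsupp.single (u p) k) (v p) = 0 := by
    intro a p
    rw [Finsupp.sum, Finsupp.finsetSum_apply]
    refine Finset.sum_eq_zero fun p' _ => ?_
    rw [Finsupp.single_apply, if_neg]
    intro h
    have h3 := congrArg f h
    rw [hfu, hfv] at h3
    have h4 : p' = p := Subtype.ext h3
    rw [h4] at h
    exact huv p h
  have hinj : Function.Injective φ := by
    rw [injective_iff_map_eq_zero]
    intro a ha
    rw [hφ, Submodule.mkQ_apply, Submodule.Quotient.mk_eq_zero] at ha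
    ext p
    have h3 := hker _ ha p
    rw [hval, hval', mul_zero] at h3
    rcases mul_eq_zero.1 h3 with h4 | h4
    · exact absurd (by exact_mod_cast h4) (hm (v p)).ne'
    · exact h4
  have hrange : finrank ℤ (LinearMap.range φ) = S.ncard := by
    rw [LinearMap.finrank_range_of_inj hinj, Module.finrank_finsupp_self, ← Nat.card_eq_fintype_card,
      Nat.card_coe_set_eq]
  have htors : Module.IsTorsion ℤ (((X →₀ ℤ) ⧸ N) ⧸ LinearMap.range φ) := by
    intro z
    rw [← Submodule.mem_torsion_iff]
    obtain ⟨w, rfl⟩ := (LinearMap.range φ).mkQ_surjective z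
    obtain ⟨w, rfl⟩ := N.mkQ_surjective w
    induction w using Finsupp.induction_linear with
    | zero => rw [map_zero, map_zero]; exact Submodule.zero_mem _
    | add a b ha hb => rw [map_add, map_add]; exact Submodule.add_mem _ ha hb
    | single x k =>
      have e : Finsupp.single x k = k • Finsupp.single x (1 : ℤ) := by
        rw [Finsupp.smul_single, smul_eq_mul, mul_one]
      rw [e, map_smul, map_smul]
      refine Submodule.smul_mem _ _ ?_
      rw [Submodule.mem_torsion_iff]
      refine ⟨⟨(m x : ℤ), mem_nonZeroDivisors_of_ne_zero (by exact_mod_cast (hm x).ne')⟩, ?_⟩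
      show (m x : ℤ) • (LinearMap.range φ).mkQ (N.mkQ (Finsupp.single x 1)) = 0
      rw [← map_smul, ← map_smul, Finsupp.smul_single, smul_eq_mul, mul_one,
        Submodule.mkQ_apply, Submodule.Quotient.mk_eq_zero]
      by_cases hx : f x ∈ S
      · have hx' : x = u ⟨f x, hx⟩ ∨ x = v ⟨f x, hx⟩ := by
          have : x ∈ {z | f z = ((⟨f x, hx⟩ : S) : P)} := rfl
          rw [hfuv] at this
          exact this
        rcases hx' with h | h
        · refine ⟨Finsupp.single ⟨f x, hx⟩ (m x : ℤ), ?_⟩
          rw [hφ, Finsupp.sum_single_index (Finsupp.single_zero _), ← h]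
        · refine ⟨Finsupp.single ⟨f x, hx⟩ (-(m (u ⟨f x, hx⟩) : ℤ)), ?_⟩
          rw [hφ, Finsupp.sum_single_index (Finsupp.single_zero _), ← sub_eq_zero, ← map_sub,
            Submodule.mkQ_apply, Submodule.Quotient.mk_eq_zero]
          have h3 := N.neg_mem (hrN (f x))
          have h4 := hrp ⟨f x, hx⟩
          have h5 : Finsupp.single (u ⟨f x, hx⟩) (-(m (u ⟨f x, hx⟩) : ℤ)) -
              Finsupp.single x (m x : ℤ) = - r (f x) := by
            have h6 : r (f x) = Finsupp.single (u ⟨f x, hx⟩) (m (u ⟨f x, hx⟩) : ℤ) +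
                Finsupp.single x (m x : ℤ) := by
              rw [show r (f x) = r ((⟨f x, hx⟩ : S) : P) from rfl, h4, ← h]
            rw [h6, Finsupp.single_neg]
            abel
          rw [h5]
          exact h3
      · refine ⟨0, ?_⟩
        rw [map_zero, eq_comm, Submodule.mkQ_apply, Submodule.Quotient.mk_eq_zero, ← hone x hx]
        exact hrN _
  have h0 : finrank ℤ (((X →₀ ℤ) ⧸ N) ⧸ LinearMap.range φ) = 0 :=
    Module.finrank_eq_zero_iff_isTorsion.2 htors
  have h3 := Submodule.finrank_quotient_add_finrank (LinearMap.range φ)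
  rw [h0, zero_add, hrange] at h3
  exact h3.symm

end Pool.Agent.Lib.MP_1a0ddd_nt.Hyp
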